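import Pool.Agent.Run7.h99.Orth

/-! # Norms on Artin-Schreier algebras -/

set_option autoImplicit false

open Polynomial

namespace Run7.h99

/-- The Artin-Schreier polynomial `T ^ q - T - A`. -/
noncomputable def asP {R : Type*} [CommRing R] (q : ℕ) (A : R) : R[X] := X ^ q - (X + C A)

theorem asP_deg {R : Type*} [CommRing R] [Nontrivial R] {q : ℕ} (hq : 1 < q) (A : R) :
    (X + C A).degree < ((q : ℕ) : WithBot ℕ) := by
  rw [degree_X_add_C]
  exact_mod_cast hq

theorem asP_monic {R : Type*} [CommRing R] {q : ℕ} (hq : 1 < q) (A : R) : (asP q A).Monic := by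
  nontriviality R
  unfold asP
  rw [sub_eq_add_neg]
  apply monic_X_pow_add
  rw [degree_neg]
  exact asP_deg hq A

theorem asP_natDegree {R : Type*} [CommRing R] [Nontrivial R] {q : ℕ} (hq : 1 < q) (A : R) :
    (asP q A).natDegree = q := by
  unfold asP
  rw [natDegree_sub_eq_left_of_natDegree_lt]
  · exact natDegree_X_pow q
  · rw [natDegree_X_add_C, natDegree_X_pow]
    exact hq

section norm

variable {K : Type*} [Field K] {Γ : Type*} [LinearOrderedCommGroupWithZero Γ]
  (w : Valuation K Γ) {q : ℕ} (hq : 1 < q) (A : K) {μ : Γ} (hμ : 1 < μ) (hA : w A = μ ^ q)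

include hq hμ hA in
/-- Reduction modulo the Artin-Schreier polynomial does not increase the Gauss norm. -/
theorem gn_modByMonic_le (P : K[X]) : gn w μ (P %ₘ asP q A) ≤ gn w μ P := by
  have hm := asP_monic hq A
  have hμ0 : μ ≠ 0 := (zero_lt_one.trans hμ).ne'
  have hμq : 1 ≤ μ ^ q := one_le_pow₀ hμ.le
  have hgm : gn w μ (asP q A) ≤ μ ^ q := by
    unfold asP
    rw [sub_eq_add_neg]
    refine (gn_add w μ _ _).trans (max_le ?_ ?_)
    · rw [← one_mul (X ^ q : K[X]), ← C_1, C_mul_X_pow_eq_monomial, gn_monomial, map_one, one_mul]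
    · rw [← gv_apply w hμ0, Valuation.map_neg, gv_apply]
      refine (gn_add w μ _ _).trans (max_le ?_ ?_)
      · rw [gn_X]
        exact le_self_pow₀ hμ.le (by omega)
      · rw [gn_C, hA]
  induction' hn : P.natDegree using Nat.strong_induction_on with n ih generalizing P
  by_cases hlt : P.natDegree < q
  · rw [(modByMonic_eq_self_iff hm).2]
    rw [degree_eq_natDegree hm.ne_zero, asP_natDegree hq]
    exact degree_le_natDegree.trans_lt (by exact_mod_cast hlt)
  · push Not at hlt
    have hP0 : P ≠ 0 := by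
      rintro rfl
      rw [natDegree_zero] at hlt
      omega
    set P' := P - C P.leadingCoeff * X ^ (P.natDegree - q) * asP q A with hP'
    have h1 : P' %ₘ asP q A = P %ₘ asP q A := by
      rw [hP', sub_modByMonic, mul_self_modByMonic hm, sub_zero]
    have h2 : gn w μ P' ≤ gn w μ P := by
      rw [hP', sub_eq_add_neg]
      refine (gn_add w μ _ _).trans (max_le le_rfl ?_)
      rw [← gv_apply w hμ0, Valuation.map_neg, gv_apply, gn_mul w hμ0, C_mul_X_pow_eq_monomial,
        gn_monomial]
      calc _ ≤ w P.leadingCoeff * μ ^ (P.natDegree - q) * μ ^ q := mul_le_mul_right hgm _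
        _ = w (P.coeff P.natDegree) * μ ^ P.natDegree := by
            rw [mul_assoc, ← pow_add, Nat.sub_add_cancel hlt]; rfl
        _ ≤ _ := le_gn w μ P _
    have h3 : P'.degree < P.degree := by
      apply degree_sub_lt_left
      · rw [degree_mul, degree_mul, degree_X_pow, degree_C (leadingCoeff_ne_zero.2 hP0), zero_add,
          degree_eq_natDegree hm.ne_zero, asP_natDegree hq, degree_eq_natDegree hP0]
        norm_cast
        omega
      · exact hP0
      · rw [leadingCoeff_mul, leadingCoeff_mul, leadingCoeff_C, leadingCoeff_X_pow, mul_one,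
          hm.leadingCoeff, mul_one]
    rw [← h1]
    by_cases hP'0 : P' = 0
    · rw [hP'0, zero_modByMonic, gn_zero]
      exact zero_le
    · exact (ih P'.natDegree (by rw [← hn]; exact natDegree_lt_natDegree hP'0 h3) P' rfl).trans h2

/-- The norm on the Artin-Schreier algebra. -/
noncomputable def wn (μ : Γ) (g : AdjoinRoot (asP q A)) : Γ :=
  gn w μ (AdjoinRoot.modByMonicHom (asP_monic hq A) g)

theorem wn_mk (P : K[X]) : wn w hq A μ (AdjoinRoot.mk _ P) = gn w μ (P %ₘ asP q A) := by
  unfold wn
  rw [AdjoinRoot.modByMonicHom_mk]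

theorem wn_mk_of_lt {P : K[X]} (hP : P.natDegree < q) :
    wn w hq A μ (AdjoinRoot.mk _ P) = gn w μ P := by
  rw [wn_mk, (modByMonic_eq_self_iff (asP_monic hq A)).2]
  rw [degree_eq_natDegree (asP_monic hq A).ne_zero, asP_natDegree hq]
  exact degree_le_natDegree.trans_lt (by exact_mod_cast hP)

include hq in
/-- every element has a representative of small degree -/
theorem exists_rep (g : AdjoinRoot (asP q A)) :
    ∃ P : K[X], P.natDegree < q ∧ AdjoinRoot.mk _ P = g := by
  have hm := asP_monic hq A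
  obtain ⟨P, rfl⟩ := AdjoinRoot.mk_surjective g
  refine ⟨P %ₘ asP q A, ?_, ?_⟩
  · have h := natDegree_modByMonic_lt P hm (by
      intro h
      have := asP_natDegree (R := K) hq A
      rw [h, natDegree_one] at this
      omega)
    rwa [asP_natDegree hq] at h
  · rw [AdjoinRoot.mk_eq_mk]
    have := modByMonic_add_div P (asP q A)
    refine ⟨-(P /ₘ asP q A), ?_⟩
    linear_combination this

theorem wn_add (g g' : AdjoinRoot (asP q A)) :
    wn w hq A μ (g + g') ≤ max (wn w hq A μ g) (wn w hq A μ g') := by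
  unfold wn
  rw [map_add]
  exact gn_add w μ _ _

theorem wn_zero : wn w hq A μ 0 = 0 := by
  unfold wn
  rw [map_zero, gn_zero]

theorem wn_one : wn w hq A μ 1 = 1 := by
  rw [← map_one (AdjoinRoot.mk (asP q A)), wn_mk_of_lt w hq A (by rw [natDegree_one]; omega),
    gn_one]

include hμ in
theorem wn_neg (g : AdjoinRoot (asP q A)) : wn w hq A μ (-g) = wn w hq A μ g := by
  unfold wn
  rw [map_neg, ← gv_apply w (zero_lt_one.trans hμ).ne', Valuation.map_neg, gv_apply]

include hμ hA in
theorem wn_mul (g g' : AdjoinRoot (asP q A)) :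
    wn w hq A μ (g * g') ≤ wn w hq A μ g * wn w hq A μ g' := by
  obtain ⟨P, hP, rfl⟩ := exists_rep hq A g
  obtain ⟨P', hP', rfl⟩ := exists_rep hq A g'
  rw [← map_mul, wn_mk, wn_mk_of_lt w hq A hP, wn_mk_of_lt w hq A hP',
    ← gn_mul w (zero_lt_one.trans hμ).ne']
  exact gn_modByMonic_le w hq A hμ hA _

include hμ in
theorem wn_eq_zero {g : AdjoinRoot (asP q A)} (h : wn w hq A μ g = 0) : g = 0 := by
  obtain ⟨P, hP, rfl⟩ := exists_rep hq A g
  rw [wn_mk_of_lt w hq A hP, gn_eq_zero_iff w μ (zero_lt_one.trans hμ).ne'] at h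
  rw [h, map_zero]

end norm

end Run7.h99
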