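import Pool.Agent.Run7.h99.ASNorm

/-! # The translations of Artin-Schreier algebras and the norm -/

set_option autoImplicit false

open Polynomial

namespace Run7.h99

/-- The map of Artin-Schreier algebras to a ring in which `T ^ q - T - A` has the root `y`. -/
noncomputable def asLift {R : Type*} [CommRing R] {q : ℕ} {A : R} {S : Type*} [CommRing S]
    [Algebra R S] (y : S) (hy : y ^ q = y + algebraMap R S A) : AdjoinRoot (asP q A) →ₐ[R] S :=
  AdjoinRoot.liftAlgHom (asP q A) (Algebra.ofId R S) y (by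
    unfold asP
    rw [eval₂_sub, eval₂_pow, eval₂_add, eval₂_X, eval₂_C, hy]
    exact sub_self _)

theorem asLift_root {R : Type*} [CommRing R] {q : ℕ} {A : R} {S : Type*} [CommRing S]
    [Algebra R S] (y : S) (hy : y ^ q = y + algebraMap R S A) :
    asLift y hy (AdjoinRoot.root (asP q A)) = y := by
  unfold asLift
  exact AdjoinRoot.liftAlgHom_root _ _ _ _

theorem asLift_mk {R : Type*} [CommRing R] {q : ℕ} {A : R} {S : Type*} [CommRing S]
    [Algebra R S] (y : S) (hy : y ^ q = y + algebraMap R S A) (P : R[X]) :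
    asLift y hy (AdjoinRoot.mk (asP q A) P) = aeval y P := by
  rw [← AdjoinRoot.aeval_eq, ← aeval_algHom_apply, asLift_root]

theorem as_root {R : Type*} [CommRing R] (q : ℕ) (A : R) :
    AdjoinRoot.root (asP q A) ^ q =
      AdjoinRoot.root (asP q A) + algebraMap R (AdjoinRoot (asP q A)) A := by
  have h := AdjoinRoot.eval₂_root (asP q A)
  unfold asP at h
  rw [eval₂_sub, eval₂_pow, eval₂_add, eval₂_X, eval₂_C] at h
  rw [sub_eq_zero] at h
  exact h

section transl

variable {K : Type*} [Field K] (p : ℕ) [hp : Fact p.Prime] [CharP K p] (r : ℕ) (A : K)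

/-- The translation by `γ` with `γ ^ q = γ`. -/
noncomputable def asTr (γ : K) (hγ : γ ^ p ^ r = γ) :
    AdjoinRoot (asP (p ^ r) A) →ₐ[K] AdjoinRoot (asP (p ^ r) A) :=
  asLift (AdjoinRoot.root _ + algebraMap K _ γ) (by
    nontriviality AdjoinRoot (asP (p ^ r) A)
    have : CharP (AdjoinRoot (asP (p ^ r) A)) p := charP_of_injective_algebraMap
      (algebraMap K (AdjoinRoot (asP (p ^ r) A))).injective p
    rw [add_pow_char_pow, as_root, ← map_pow, hγ]
    ring)

theorem asTr_mk (γ : K) (hγ : γ ^ p ^ r = γ) (P : K[X]) :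
    asTr p r A γ hγ (AdjoinRoot.mk _ P) = AdjoinRoot.mk _ (P.comp (X + C γ)) := by
  unfold asTr
  rw [asLift_mk, comp_eq_aeval, ← AdjoinRoot.aeval_eq, ← aeval_algHom_apply, map_add, aeval_X,
    aeval_C]

variable {Γ : Type*} [LinearOrderedCommGroupWithZero Γ] (w : Valuation K Γ)
  (hq : 1 < p ^ r) {μ : Γ} (hμ : 1 < μ)

omit hp [CharP K p] in
theorem val_fix {γ : K} (hγ : γ ^ p ^ r = γ) (hq : 1 < p ^ r) : w γ ≤ 1 := by
  by_contra h
  push Not at h
  have h1 := congrArg w hγ
  rw [map_pow] at h1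
  exact (lt_self_pow₀ h hq).ne' h1

include hμ in
theorem wn_asTr_sub (γ : K) (hγ : γ ^ p ^ r = γ) (g : AdjoinRoot (asP (p ^ r) A))
    (hg : wn w hq A μ g ≤ 1) : wn w hq A μ (asTr p r A γ hγ g - g) < 1 := by
  have hμ0 : μ ≠ 0 := (zero_lt_one.trans hμ).ne'
  obtain ⟨P, hP, rfl⟩ := exists_rep hq A g
  rw [wn_mk_of_lt w hq A hP] at hg
  rw [asTr_mk, ← map_sub, wn_mk_of_lt w hq A]
  · have e : P.comp (X + C γ) - P =
        ∑ i ∈ P.support, C (P.coeff i) * ((X + C γ) ^ i - X ^ i) := by
      simp_rw [mul_sub]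
      rw [Finset.sum_sub_distrib]
      congr 1
      · rw [comp, eval₂_eq_sum, sum_def]
      · conv_lhs => rw [as_sum_support_C_mul_X_pow P]
    rw [e, ← gv_apply w hμ0]
    apply Valuation.map_sum_lt _ one_ne_zero
    intro i _
    rw [map_mul, gv_apply, gn_C]
    rcases Nat.eq_zero_or_pos i with rfl | hi
    · rw [pow_zero, pow_zero, sub_self, map_zero, mul_zero]
      exact zero_lt_one
    · have h1 : gv w hμ0 ((X + C γ) ^ i - X ^ i) ≤ μ ^ (i - 1) := by
        rw [← geom_sum₂_mul, add_sub_cancel_left, map_mul, gv_apply w hμ0 (C γ), gn_C]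
        refine (mul_le_mul_right (val_fix p r w hγ hq) _).trans ?_
        rw [mul_one]
        apply Valuation.map_sum_le
        intro j hj
        rw [Finset.mem_range] at hj
        rw [map_mul, map_pow, map_pow, gv_apply, gv_apply, gn_X]
        have h3 : gn w μ (X + C γ) ≤ μ := by
          refine (gn_add w μ _ _).trans (max_le (gn_X w μ).le ?_)
          rw [gn_C]
          exact (val_fix p r w hγ hq).trans hμ.le
        calc _ ≤ μ ^ j * μ ^ (i - 1 - j) := mul_le_mul_left (pow_le_pow_left₀ zero_le h3 _) _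
          _ = μ ^ (i - 1) := by rw [← pow_add]; congr 1; omega
      have h2 : w (P.coeff i) * μ ^ i ≤ 1 := (le_gn w μ P i).trans hg
      by_cases h0 : w (P.coeff i) = 0
      · rw [h0, zero_mul]
        exact zero_lt_one
      · calc _ ≤ w (P.coeff i) * μ ^ (i - 1) := mul_le_mul_right h1 _
          _ < w (P.coeff i) * μ ^ i := by
              rw [mul_lt_mul_iff_right₀ (zero_lt_iff.2 h0)]
              exact pow_lt_pow_right₀ hμ (by omega)
          _ ≤ 1 := h2
  · refine lt_of_le_of_lt (natDegree_sub_le _ _) (max_lt ?_ hP)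
    rw [natDegree_comp, natDegree_X_add_C, mul_one]
    exact hP

end transl

section powq

variable {K : Type*} [Field K] (p : ℕ) [hp : Fact p.Prime] [CharP K p] (r : ℕ)
variable {Γ : Type*} [LinearOrderedCommGroupWithZero Γ] (v : Valuation K Γ) {c : Γ} (hc : c ≠ 0)
  (hq : 1 < p ^ r) {μ : Γ} (hμ : 1 < μ) (e A : RatFunc K) (hAe : A = RatFunc.X * e ^ p ^ r)
  (hA : gr v hc A = μ ^ p ^ r)

include hμ hA hAe in
theorem wn_pow_q (g : AdjoinRoot (asP (p ^ r) A)) :
    wn (gr v hc) hq A μ (g ^ p ^ r) = wn (gr v hc) hq A μ g ^ p ^ r := by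
  have : CharP (RatFunc K) p := charP_of_injective_algebraMap
      (algebraMap K (RatFunc K)).injective p
  have hμ0 : μ ≠ 0 := (zero_lt_one.trans hμ).ne'
  apply le_antisymm
  · have h : ∀ n, wn (gr v hc) hq A μ (g ^ n) ≤ wn (gr v hc) hq A μ g ^ n := by
      intro n
      induction n with
      | zero => rw [pow_zero, pow_zero, wn_one]
      | succ n ih =>
        rw [pow_succ, pow_succ]
        exact (wn_mul _ hq _ hμ hA _ _).trans (mul_le_mul_left ih _)
    exact h _
  · obtain ⟨P, hP, rfl⟩ := exists_rep hq A g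
    rw [wn_mk_of_lt _ hq A hP]
    have h1 : AdjoinRoot.mk (asP (p ^ r) A) P ^ p ^ r = AdjoinRoot.mk (asP (p ^ r) A)
        (∑ i ∈ Finset.range (p ^ r), C (P.coeff i ^ p ^ r) * (X + C A) ^ i) := by
      have h2 : AdjoinRoot.mk (asP (p ^ r) A) (X ^ p ^ r) =
          AdjoinRoot.mk (asP (p ^ r) A) (X + C A) := by
        rw [AdjoinRoot.mk_eq_mk]
        exact dvd_rfl
      conv_lhs => rw [P.as_sum_range' (p ^ r) hP]
      rw [← map_pow, sum_pow_char_pow, map_sum, map_sum]
      refine Finset.sum_congr rfl fun i _ => ?_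
      rw [← C_mul_X_pow_eq_monomial, mul_pow, ← pow_mul, mul_comm i, pow_mul, map_mul,
        map_pow _ (X ^ p ^ r) i, h2, map_mul, ← C_pow, ← map_pow _ (X + C A) i]
    rw [h1, wn_mk_of_lt _ hq A]
    · obtain ⟨i, hi⟩ := exists_gn (gr v hc) μ P
      refine le_trans ?_ (le_gn (gr v hc) μ _ 0)
      rw [pow_zero, mul_one, finsetSum_coeff]
      have h3 : ∀ i, (C (P.coeff i ^ p ^ r) * (X + C A) ^ i).coeff 0 =
          (P.coeff i * e ^ i) ^ p ^ r * RatFunc.X ^ i := by
        intro i
        rw [coeff_zero_eq_eval_zero, eval_mul, eval_C, eval_pow, eval_add, eval_X, eval_C,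
          zero_add, hAe]
        ring
      rw [Finset.sum_congr rfl fun i _ => h3 i, orth_rat v p r hc fun i => P.coeff i * e ^ i]
      have hil : i < p ^ r ∨ gn (gr v hc) μ P = 0 := by
        by_cases h : i < p ^ r
        · exact Or.inl h
        · right
          rw [hi, coeff_eq_zero_of_natDegree_lt (by omega), map_zero, zero_mul]
      rcases hil with hil | h0
      · refine le_trans (le_of_eq ?_) (Finset.le_sup (f := fun i =>
          gr v hc (P.coeff i * e ^ i) ^ p ^ r * c ^ i) (Finset.mem_range.2 hil))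
        rw [hi]
        have h4 : μ ^ p ^ r = c * gr v hc e ^ p ^ r := by
          rw [← hA, hAe, map_mul, map_pow, gr_X]
        rw [map_mul, map_pow, mul_pow, mul_pow, ← pow_mul μ, mul_comm i, pow_mul, h4, mul_pow,
          ← pow_mul, ← pow_mul, mul_comm i, mul_assoc, mul_comm (c ^ i)]
      · rw [h0, zero_pow (by omega)]
        exact zero_le
    · refine lt_of_le_of_lt (natDegree_sum_le_of_forall_le (n := p ^ r - 1) _ _ ?_) (by omega)
      intro i hi
      rw [Finset.mem_range] at hi
      refine (natDegree_C_mul_le _ _).trans ?_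
      rw [natDegree_pow, natDegree_X_add_C]
      omega

end powq

end Run7.h99
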