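import Pool.Agent.H19VF.N4_At

/-! # Rational functions over the Laurent series -/

set_option autoImplicit false

open Polynomial Pool.Agent.H19VF

universe u

namespace Run7.h99

variable (k : Type u) [Field k]

/-- The embedding of the rational functions over the Laurent series in the Laurent series over the
rational functions. -/
noncomputable def Emb : RatFunc (LSer k) →+* LSer (RatFunc k) :=
  IsFractionRing.lift (A := (LSer k)[X]) (K := RatFunc (LSer k))
    (g := (embY (κ := k) k).toRingHom) B_embY_inj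

theorem Emb_pol (P : (LSer k)[X]) :
    Emb k (algebraMap (LSer k)[X] (RatFunc (LSer k)) P) = embY k P :=
  IsFractionRing.lift_algebraMap _ _

theorem Emb_inj : Function.Injective (Emb k) := (Emb k).injective

theorem Emb_C (a : LSer k) : Emb k (RatFunc.C a) = embC k a := by
  rw [← RatFunc.algebraMap_C, Emb_pol, embY_C]

theorem Emb_X : Emb k RatFunc.X = LSer.C (polR X) := by
  rw [← RatFunc.algebraMap_X, Emb_pol, embY_X]
  rfl

theorem Emb_algebraMap (a : k) : Emb k (algebraMap k (RatFunc (LSer k)) a) =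
    algebraMap k (LSer (RatFunc k)) a := by
  have h : algebraMap k (RatFunc (LSer k)) a =
      algebraMap (LSer k)[X] (RatFunc (LSer k)) (algebraMap k (LSer k)[X] a) :=
    IsScalarTower.algebraMap_apply k (LSer k)[X] (RatFunc (LSer k)) a
  rw [h, Emb_pol]
  exact (embY (κ := k) k).commutes a

variable {k}

theorem exists_Emb {α : LSer (RatFunc k)} {P Q : (LSer k)[X]} (hQ : Q ≠ 0)
    (h : embY k Q * α = embY k P) : ∃ g, Emb k g = α := by
  have hQ' : embY (κ := k) k Q ≠ 0 := by
    intro h0
    apply hQ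
    apply B_embY_inj
    rw [map_zero]
    exact h0
  refine ⟨algebraMap (LSer k)[X] (RatFunc (LSer k)) P / algebraMap (LSer k)[X] _ Q, ?_⟩
  rw [map_div₀, Emb_pol, Emb_pol, ← h, mul_div_cancel_left₀ _ hQ']

theorem evk_zero (P : (LSer k)[X]) : evk (R := LSer k) (0 : k) P = P.coeff 0 := by
  change Polynomial.aeval (algebraMap k (LSer k) 0) P = _
  rw [map_zero, Polynomial.coeff_zero_eq_aeval_zero]

/-- A rational function over `k((t))` which is regular at infinity coefficientwise is regular at
infinity. -/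
theorem reg_none {h : RatFunc (LSer k)} (hr : SerIn (regAt none) (Emb k h)) :
    h ∈ regAt (none : Option (LSer k)) := by
  obtain ⟨ρ, hρ1, hρ2⟩ := exists_residue (none : Option k)
  have hO : ∀ c : k, polR (C c) ∈ regAt (none : Option k) := polR_C_mem none
  have hx : LSer.C (polR (X : k[X]))⁻¹ ∈ serSub (regAt (none : Option k)) :=
    C_mem_serSub (Dunif_mem none)
  have hc : serRho ρ ⟨LSer.C (polR (X : k[X]))⁻¹, hx⟩ = algebraMap k (LSer k) 0 := by
    have h1 := serRho_C ρ ⟨unif none, Dunif_mem none⟩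
    have h2 : ρ ⟨unif none, Dunif_mem none⟩ = 0 := by
      rw [hρ2]
      have := Dvan_pow (none : Option k) 1
      rwa [zpow_one] at this
    rw [h2, map_zero] at h1
    rw [map_zero]
    exact h1
  have key := fun P => serRho_emb hO ρ hρ1 hx (0 : k) hc P
  set P := h.num with hP
  set Q := h.denom with hQ
  have hQ0 : Q ≠ 0 := h.denom_ne_zero
  have hmul : embY k Q * Emb k h = embY k P := by
    rw [← Emb_pol, ← Emb_pol, ← map_mul]
    congr 1
    rw [mul_comm, hP, hQ]
    conv_lhs =>
      lhs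
      rw [← RatFunc.num_div_denom h]
    exact div_mul_cancel₀ _ (Dne (κ := LSer k) h.denom_ne_zero)
  by_contra hcon
  have hdeg : Q.natDegree < P.natDegree := by
    by_contra hle
    push Not at hle
    apply hcon
    refine ⟨P, Q, hQ0, hle, ?_⟩
    rw [hP, hQ]
    conv_lhs =>
      lhs
      rw [← RatFunc.num_div_denom h]
    exact div_mul_cancel₀ _ (Dne (κ := LSer k) h.denom_ne_zero)
  obtain ⟨d, hd⟩ := Nat.exists_eq_add_of_lt hdeg
  have e1 := B_W_reflect P.natDegree P le_rfl
  have e2 := B_W_reflect Q.natDegree Q le_rfl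
  have e3 : embW k (reflect Q.natDegree Q) * Emb k h * LSer.C (polR (X : k[X]))⁻¹ ^ (d + 1) =
      embW k (reflect P.natDegree P) := by
    have hy : (yv : LSer (RatFunc k)) ^ P.natDegree ≠ 0 := pow_ne_zero _ B_yv_ne
    apply mul_right_cancel₀ hy
    rw [e1, ← hmul, ← e2, hd, add_assoc, pow_add]
    have h5 : LSer.C (polR (X : k[X]))⁻¹ ^ (d + 1) * (yv : LSer (RatFunc k)) ^ (d + 1) = 1 := by
      rw [← mul_pow, mul_comm]
      have := B_yw (κ := k)
      unfold B_w at this
      rw [this, one_pow]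
    linear_combination (embW k (reflect Q.natDegree Q) * Emb k h * yv ^ Q.natDegree) * h5
  have hQm : embW k (reflect Q.natDegree Q) ∈ serSub (regAt (none : Option k)) :=
    emb_mem hO hx _
  have hPm : embW k (reflect P.natDegree P) ∈ serSub (regAt (none : Option k)) :=
    emb_mem hO hx _
  have e4 : (⟨embW k (reflect Q.natDegree Q), hQm⟩ : serSub (regAt (none : Option k))) *
      ⟨Emb k h, hr⟩ * ⟨LSer.C (polR (X : k[X]))⁻¹, hx⟩ ^ (d + 1) =
      ⟨embW k (reflect P.natDegree P), hPm⟩ := Subtype.ext e3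
  have e5 := congrArg (serRho ρ) e4
  rw [map_mul, map_pow, hc, map_zero, zero_pow (by omega), mul_zero] at e5
  have e6 : serRho ρ ⟨embW k (reflect P.natDegree P), hPm⟩ = P.leadingCoeff := by
    refine (key _).trans ?_
    rw [evk_zero, coeff_reflect, revAt_le (Nat.zero_le _), Nat.sub_zero]
    rfl
  rw [e6] at e5
  have hP0 : P ≠ 0 := by
    rintro h0
    rw [h0, natDegree_zero] at hdeg
    omega
  exact hP0 (leadingCoeff_eq_zero.1 e5.symm)

theorem reg_zero {h : RatFunc (LSer k)} (hr : SerIn (regAt (some 0)) (Emb k h)) :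
    h ∈ regAt (some (0 : LSer k)) := by
  obtain ⟨ρ, hρ1, hρ2⟩ := exists_residue (some 0 : Option k)
  have hO : ∀ c : k, polR (C c) ∈ regAt (some 0 : Option k) := polR_C_mem (some 0)
  have hx : LSer.C (polR (X : k[X])) ∈ serSub (regAt (some 0 : Option k)) :=
    C_mem_serSub (polR_mem_regFin _ _)
  have hc : serRho ρ ⟨LSer.C (polR (X : k[X])), hx⟩ = algebraMap k (LSer k) 0 := by
    have h1 := serRho_C ρ ⟨polR X, polR_mem_regFin (0 : k) X⟩
    have h2 : ρ ⟨polR X, polR_mem_regFin (0 : k) X⟩ = 0 := by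
      rw [hρ2]
      have := Dvan_pow (some 0 : Option k) 1
      rw [zpow_one] at this
      have e : unif (some (0 : k)) = polR X := by
        change polR (X - C 0) = _
        rw [C_0, sub_zero]
      rwa [e] at this
    rw [h2, map_zero] at h1
    rw [map_zero]
    exact h1
  have key := fun P => serRho_emb hO ρ hρ1 hx (0 : k) hc P
  have hmul : embY k h.denom * Emb k h = embY k h.num := by
    rw [← Emb_pol, ← Emb_pol, ← map_mul]
    congr 1
    rw [mul_comm]
    conv_lhs =>
      lhs
      rw [← RatFunc.num_div_denom h]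
    exact div_mul_cancel₀ _ (Dne (κ := LSer k) h.denom_ne_zero)
  refine ⟨h.num, h.denom, ?_, ?_⟩
  · intro h0
    have hQm : embY k h.denom ∈ serSub (regAt (some 0 : Option k)) := emb_mem hO hx _
    have hPm : embY k h.num ∈ serSub (regAt (some 0 : Option k)) := emb_mem hO hx _
    have e4 : (⟨embY k h.denom, hQm⟩ : serSub (regAt (some 0 : Option k))) * ⟨Emb k h, hr⟩ =
        ⟨embY k h.num, hPm⟩ := Subtype.ext hmul
    have e5 := congrArg (serRho ρ) e4
    have e6 : serRho ρ ⟨embY k h.num, hPm⟩ = h.num.coeff 0 := (key _).trans (evk_zero _)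
    have e7 : serRho ρ ⟨embY k h.denom, hQm⟩ = h.denom.coeff 0 := (key _).trans (evk_zero _)
    rw [map_mul, e6, e7, coeff_zero_eq_eval_zero, h0, zero_mul, coeff_zero_eq_eval_zero] at e5
    obtain ⟨a, b, hab⟩ := RatFunc.isCoprime_num_denom h
    have := congrArg (Polynomial.eval 0) hab
    rw [eval_add, eval_mul, eval_mul, h0, ← e5, mul_zero, mul_zero, add_zero, eval_one] at this
    exact zero_ne_one this
  · conv_lhs =>
      lhs
      rw [← RatFunc.num_div_denom h]
    exact div_mul_cancel₀ _ (Dne (κ := LSer k) h.denom_ne_zero)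

theorem Emb_unif_none : Emb k (unif none) = LSer.C (unif none) := by
  change Emb k (algebraMap (LSer k)[X] (RatFunc (LSer k)) X)⁻¹ = LSer.C (polR X)⁻¹
  rw [map_inv₀, RatFunc.algebraMap_X, Emb_X, map_inv₀]

theorem Emb_unif_zero : Emb k (unif (some 0)) = LSer.C (unif (some 0)) := by
  change Emb k (algebraMap (LSer k)[X] (RatFunc (LSer k)) (X - C 0)) = LSer.C (polR (X - C 0))
  rw [C_0, sub_zero, C_0, sub_zero, RatFunc.algebraMap_X, Emb_X]

theorem van_none {h : RatFunc (LSer k)} {M : ℕ} (hr : ∀ i, Van none M ((Emb k h).coeff i)) :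
    Van (none : Option (LSer k)) M h := by
  apply reg_none
  intro i
  have h1 : Emb k (h * unif none ^ (-(M : ℤ))) = LSer.C (unif none ^ (-(M : ℤ))) * Emb k h := by
    rw [map_mul, map_zpow₀, map_zpow₀, Emb_unif_none, mul_comm]
  rw [h1, LSer.coeff_C_mul, mul_comm]
  exact hr i

theorem van_zero {h : RatFunc (LSer k)} {M : ℕ} (hr : ∀ i, Van (some 0) M ((Emb k h).coeff i)) :
    Van (some (0 : LSer k)) M h := by
  apply reg_zero
  intro i
  have h1 : Emb k (h * unif (some 0) ^ (-(M : ℤ))) =
      LSer.C (unif (some 0) ^ (-(M : ℤ))) * Emb k h := by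
    rw [map_mul, map_zpow₀, map_zpow₀, Emb_unif_zero, mul_comm]
  rw [h1, LSer.coeff_C_mul, mul_comm]
  exact hr i

/-- A function which vanishes at infinity as a quotient of polynomials. -/
theorem van_none_frac {K : Type u} [Field K] {h : RatFunc K} (hv : Van none 1 h) :
    ∃ P Q : K[X], Q ≠ 0 ∧ h = algebraMap _ _ P / algebraMap _ _ Q ∧
      (P = 0 ∨ P.natDegree < Q.natDegree) := by
  obtain ⟨p, q, hq, hd, e⟩ := hv
  have hX : polR (κ := K) X ≠ 0 := Dne X_ne_zero
  have hq' : polR q ≠ 0 := Dne hq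
  have e' : h * polR X * polR q = polR p := by
    rw [← e]
    change _ = h * ((polR X)⁻¹) ^ (-(1 : ℤ)) * polR q
    rw [zpow_neg, zpow_one, inv_inv]
  refine ⟨p, X * q, mul_ne_zero X_ne_zero hq, ?_, ?_⟩
  · change h = polR p / polR (X * q)
    rw [eq_div_iff (Dne (mul_ne_zero X_ne_zero hq)), map_mul, ← mul_assoc]
    exact e'
  · right
    rw [natDegree_mul X_ne_zero hq, natDegree_X]
    omega

/-- A function which vanishes at zero as a quotient of polynomials. -/
theorem van_zero_frac {K : Type u} [Field K] {h : RatFunc K} {M : ℕ}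
    (hv : Van (some (0 : K)) M h) :
    ∃ (P Q : K[X]) (m : ℕ), Q.coeff m ≠ 0 ∧ h = algebraMap _ _ P / algebraMap _ _ Q ∧
      X ^ (m + M) ∣ P := by
  obtain ⟨p, q, hq, e⟩ := hv
  have hX : polR (κ := K) X ≠ 0 := Dne X_ne_zero
  have hq0 : q ≠ 0 := by
    rintro rfl
    exact hq eval_zero
  have e' : h * polR q = polR (X ^ M * p) := by
    have e2 : h * (polR X) ^ (-(M : ℤ)) * polR q = polR p := by
      rw [← e]
      change _ = h * (polR (X - C 0)) ^ (-(M : ℤ)) * polR q
      rw [C_0, sub_zero]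
    rw [map_mul, ← e2, map_pow, zpow_neg, zpow_natCast]
    field_simp
  refine ⟨X ^ M * p, q, 0, ?_, ?_, ?_⟩
  · rwa [coeff_zero_eq_eval_zero]
  · change h = polR _ / polR _
    rw [eq_div_iff (Dne hq0)]
    exact e'
  · rw [zero_add]
    exact dvd_mul_right _ _

end Run7.h99
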