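import Pool.Agent.Run7.h99.InvRef
import Pool.Agent.Run7.h99.Emb

/-! # Algebraicity of the averaged functions -/

set_option autoImplicit false

open AlgebraicGeometry CategoryTheory Polynomial Pool.Agent.H19VF

universe u

namespace Run7.h99

section fr

variable {k : Type u} [Field k]

/-- The fractions of the Laurent series with coefficients in `O`. -/
noncomputable def frS (O : Subring (RatFunc k)) : Subring (LSer (RatFunc k)) where
  carrier := {α | ∃ β : LSer (RatFunc k), β ≠ 0 ∧ β ∈ serSub O ∧ β * α ∈ serSub O}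
  mul_mem' := by
    rintro a b ⟨β, h1, h2, h3⟩ ⟨β', h1', h2', h3'⟩
    refine ⟨β * β', mul_ne_zero h1 h1', (serSub O).mul_mem h2 h2', ?_⟩
    have := (serSub O).mul_mem h3 h3'
    rwa [mul_mul_mul_comm] at this
  one_mem' := ⟨1, one_ne_zero, (serSub O).one_mem, by
    rw [mul_one]; exact (serSub O).one_mem⟩
  add_mem' := by
    rintro a b ⟨β, h1, h2, h3⟩ ⟨β', h1', h2', h3'⟩
    refine ⟨β * β', mul_ne_zero h1 h1', (serSub O).mul_mem h2 h2', ?_⟩
    have e : β * β' * (a + b) = β' * (β * a) + β * (β' * b) := by ring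
    rw [e]
    exact (serSub O).add_mem ((serSub O).mul_mem h2' h3) ((serSub O).mul_mem h2 h3')
  zero_mem' := ⟨1, one_ne_zero, (serSub O).one_mem, by
    rw [mul_zero]; exact (serSub O).zero_mem⟩
  neg_mem' := by
    rintro a ⟨β, h1, h2, h3⟩
    refine ⟨β, h1, h2, ?_⟩
    rw [mul_neg]
    exact (serSub O).neg_mem h3

theorem serSub_le_frS (O : Subring (RatFunc k)) : serSub O ≤ frS O := fun a ha =>
  ⟨1, one_ne_zero, (serSub O).one_mem, by rwa [one_mul]⟩

theorem mem_frS_of {O : Subring (RatFunc k)} {a b c : LSer (RatFunc k)} (h : a * b = c)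
    (hb : b ≠ 0) (hb' : b ∈ serSub O) (hc : c ∈ serSub O) : a ∈ frS O :=
  ⟨b, hb, hb', by rw [mul_comm, h]; exact hc⟩

theorem ofPS_mem {O : Subring (RatFunc k)} {f : PowerSeries (RatFunc k)}
    (h : ∀ i, PowerSeries.coeff i f ∈ O) : LSer.ofPS f ∈ serSub O := by
  intro n
  rw [LSer.coeff_ofPS]
  split_ifs
  · exact h _
  · exact O.zero_mem

variable {F : Type} [Field F] [Fintype F] [Algebra F k] {B : Type u} [CommRing B] [Algebra k B]

theorem algebraMap_F_ofPS_mem {O : Subring (RatFunc k)} (hO : ∀ a : k, algebraMap k (RatFunc k) a ∈ O)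
    (γ : F) : LSer.ofPS (algebraMap F (PowerSeries (RatFunc k)) γ) ∈ serSub O := by
  apply ofPS_mem
  intro i
  rw [PowerSeries.algebraMap_apply, PowerSeries.coeff_C]
  split_ifs
  · rw [IsScalarTower.algebraMap_apply F k (RatFunc k)]
    exact hO _
  · exact O.zero_mem

theorem NmA_mem (η : F → B →ₐ[k] B) (y : PowerSeries (RatFunc k))
    (Φ : B →ₐ[k] PowerSeries (RatFunc k)) (T : Subring (LSer (RatFunc k)))
    (h1 : ∀ b, LSer.ofPS (Φ b) ∈ T) (h2 : LSer.ofPS y ∈ T)
    (h3 : ∀ γ : F, LSer.ofPS (algebraMap F (PowerSeries (RatFunc k)) γ) ∈ T) (b : B) :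
    LSer.ofPS (NmA η y Φ b) ∈ T := by
  rw [NmA_eq, map_sum]
  refine T.sum_mem fun γ _ => ?_
  rw [map_mul, map_sub, map_one, map_pow, map_neg, map_add]
  exact T.mul_mem (h1 _) (T.sub_mem T.one_mem (T.pow_mem (T.neg_mem (T.add_mem h2 (h3 γ))) _))

/-- Comparison of the averaged functions on two charts. -/
theorem NmA_compare {B' : Type u} [CommRing B'] [Algebra k B'] (η : F → B →ₐ[k] B)
    (η' : F → B' →ₐ[k] B') (y : PowerSeries (RatFunc k)) (Φ : B →ₐ[k] PowerSeries (RatFunc k))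
    (Φ' : B' →ₐ[k] PowerSeries (RatFunc k)) (b : B) (b' : B') (g : LSer (RatFunc k))
    (h : ∀ γ, LSer.ofPS (Φ (η γ b)) * g = LSer.ofPS (Φ' (η' γ b'))) :
    LSer.ofPS (NmA η y Φ b) * g = LSer.ofPS (NmA η' y Φ' b') := by
  rw [NmA_eq, NmA_eq, map_sum, map_sum, Finset.sum_mul]
  refine Finset.sum_congr rfl fun γ _ => ?_
  rw [map_mul, map_mul, mul_right_comm, h]

/-- The averaged function of an invariant function. -/
theorem NmA_inv (η : F → B →ₐ[k] B) (y : PowerSeries (RatFunc k))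
    (Φ : B →ₐ[k] PowerSeries (RatFunc k)) (G : B) (hG : ∀ γ, η γ G = G) : NmA η y Φ G = Φ G := by
  rw [NmA_eq, ← NmA_triv (F := F) (fun _ => AlgHom.id k B) (fun _ _ => rfl) y Φ G, NmA_eq]
  refine Finset.sum_congr rfl fun γ _ => ?_
  rw [hG]
  rfl

end fr

end Run7.h99
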