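import Pool.Agent.Run7.h99.AlgN

/-! # Algebraicity of the averaged functions, part 2 -/

set_option autoImplicit false

open AlgebraicGeometry CategoryTheory Polynomial Pool.Agent.H19VF

universe u

namespace Run7.h99

/-- The data of the formal deformation. -/
structure FD {F : Type} [Field F] [Fintype F] {k : Type u} [Field k] [Algebra F k]
    {V : Scheme.{u}} {π : V ⟶ Spec (.of k)} (A : Act F π) where
  Wa : Chart π
  Wb : Chart π
  ηa : F → Wa.B →ₐ[k] Wa.B
  ηb : F → Wb.B →ₐ[k] Wb.B
  νa : Wa.B →ₐ[k] k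
  νb : Wb.B →ₐ[k] k
  S : Finset k
  y : PowerSeries (RatFunc k)
  θa : Wa.B →ₐ[k] PowerSeries (RatFunc k)
  θb : Wb.B →ₐ[k] PowerSeries (RatFunc k)
  hS : (0 : k) ∈ S
  acta : IsAct A Wa ηa
  actb : IsAct A Wb ηb
  fixa : ∀ γ b, νa (ηa γ b) = νa b
  fixb : ∀ γ b, νb (ηb γ b) = νb b
  same : Wa.pt.map θa = Wb.pt.map θb
  hy : y ^ Fintype.card F - y =
        PowerSeries.X ^ Fintype.card F * PowerSeries.C (cR k (Fintype.card F))
  hyc : ∀ i, PowerSeries.coeff i y ∈ regOff {(0 : k)}
  hθa : ∀ b i, PowerSeries.coeff i (θa b) ∈ regOff S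
  vana : ∀ b i, Van none (Fintype.card F)
        (PowerSeries.coeff i (NmA ηa y θa b - algebraMap k _ (νa b)))
  vanb : ∀ b i, Van (some 0) (Fintype.card F)
        (PowerSeries.coeff i (NmA ηb y θb b - algebraMap k _ (νb b)))
  loc : ∀ s ∈ S, s ≠ 0 → ∃ (W : Chart π) (θ : W.B →ₐ[k] PowerSeries (RatFunc k)),
        W.pt.map θ = Wa.pt.map θa ∧ ∀ b i, PowerSeries.coeff i (θ b) ∈ regAt (some s)

namespace FD

variable {F : Type} [Field F] [Fintype F] {k : Type u} [Field k] [Algebra F k]
    {V : Scheme.{u}} {π : V ⟶ Spec (.of k)} {A : Act F π} (D : FD A)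

/-- the point of the first chart over the Laurent series -/
noncomputable def φa : D.Wa.B →ₐ[k] LSer (RatFunc k) := (LSer.ofPSa k).comp D.θa

/-- the point of the second chart over the Laurent series -/
noncomputable def φb : D.Wb.B →ₐ[k] LSer (RatFunc k) := (LSer.ofPSa k).comp D.θb

theorem φa_apply (b : D.Wa.B) : D.φa b = LSer.ofPS (D.θa b) := rfl

theorem φb_apply (b : D.Wb.B) : D.φb b = LSer.ofPS (D.θb b) := rfl

theorem same' : D.Wa.pt.map D.φa = D.Wb.pt.map D.φb := by
  unfold φa φb
  rw [← Pt.map_map, ← Pt.map_map, D.same]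

/-- the averaged function on the first chart -/
noncomputable def Na (b : D.Wa.B) : LSer (RatFunc k) := LSer.ofPS (NmA D.ηa D.y D.θa b)

/-- the averaged function on the second chart -/
noncomputable def Nb (b : D.Wb.B) : LSer (RatFunc k) := LSer.ofPS (NmA D.ηb D.y D.θb b)

theorem Na_mem (b : D.Wa.B) : D.Na b ∈ serSub (regAt none) := by
  apply ofPS_mem
  intro i
  have h1 := van_zero_iff.1 ((D.vana b i).mono (m' := 0) (by positivity))
  rw [map_sub, PowerSeries.algebraMap_apply, PowerSeries.coeff_C] at h1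
  have h2 := (regAt none).add_mem h1 (y := if i = 0 then algebraMap k (RatFunc k) (D.νa b) else 0)
    (by
      split_ifs
      · exact I_k_mem none _
      · exact Subring.zero_mem _)
  rwa [sub_add_cancel] at h2

theorem Nb_mem (b : D.Wb.B) : D.Nb b ∈ serSub (regAt (some 0)) := by
  apply ofPS_mem
  intro i
  have h1 := van_zero_iff.1 ((D.vanb b i).mono (m' := 0) (by positivity))
  rw [map_sub, PowerSeries.algebraMap_apply, PowerSeries.coeff_C] at h1
  have h2 := (regAt (some 0)).add_mem h1
    (y := if i = 0 then algebraMap k (RatFunc k) (D.νb b) else 0) (by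
      split_ifs
      · exact I_k_mem (some 0) _
      · exact Subring.zero_mem _)
  rwa [sub_add_cancel] at h2

/-- The averaged functions on the first chart are algebraic. -/
theorem alg_a (b : D.Wa.B) : ∃ h : RatFunc (LSer k), Emb k h = D.Na b := by
  have hreg : SerIn (regOff D.S) (D.Na b) := by
    apply NmA_mem D.ηa D.y D.θa (serSub (regOff D.S))
    · intro b
      exact ofPS_mem (D.hθa b)
    · exact ofPS_mem fun i => DregOff_mono (Finset.singleton_subset_iff.2 D.hS) (D.hyc i)
    · intro γ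
      exact algebraMap_F_ofPS_mem (I_k_mem' D.S) γ
  obtain ⟨P, Q, hQ, h⟩ := algebraicity D.S (D.Na b) hreg (by
    intro s hs
    rcases s with _ | s
    · refine ⟨1, one_ne_zero, (serSub (regAt none)).one_mem, ?_⟩
      rw [one_mul]
      exact D.Na_mem b
    · by_cases hs0 : s = 0
      · subst hs0
        obtain ⟨G, hG1, hG2, hG3⟩ := inv_refine A D.Wa D.Wb D.ηa D.ηb D.acta D.actb D.φa D.φb
          D.same'
        obtain ⟨b', n, hb'⟩ := hG3 b
        have e1 : D.Na b * D.φb G ^ n = D.Nb b' :=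
          NmA_compare D.ηa D.ηb D.y D.θa D.θb b b' _ hb'
        have e2 : D.φb G = D.Nb G := by
          unfold Nb
          rw [NmA_inv D.ηb D.y D.θb G hG1]
          rfl
        refine ⟨D.φb G ^ n, pow_ne_zero _ hG2, ?_, ?_⟩
        · rw [e2]
          exact (serSub (regAt (some 0))).pow_mem (D.Nb_mem G) n
        · rw [mul_comm, e1]
          exact D.Nb_mem b'
      · obtain ⟨W, θ, hθ, hreg'⟩ := D.loc s (hs s rfl) hs0
        have hT : D.Na b ∈ frS (regAt (some s)) := by
          apply NmA_mem D.ηa D.y D.θa (frS (regAt (some s)))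
          · intro b
            have hpt : W.pt.map ((LSer.ofPSa k).comp θ) = D.Wa.pt.map D.φa := by
              unfold φa
              rw [← Pt.map_map, ← Pt.map_map, hθ]
            obtain ⟨U, α, α', ψ, h1, h2, h3, h4, ⟨g, hg⟩, -⟩ := exists_refine W D.Wa
              ((LSer.ofPSa k).comp θ) D.φa hpt
            let _ := α.toRingHom.toAlgebra
            obtain ⟨n, a, hna⟩ := IsLocalization.Away.surj (S := U.B) g (α' b)
            have h5 := congrArg ψ hna
            rw [map_mul] at h5
            have h6 : ψ (α' b) = LSer.ofPS (D.θa b) :=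
              congrArg (fun e : D.Wa.B →ₐ[k] LSer (RatFunc k) => e b) h4
            have h7 : ∀ x, ψ (algebraMap W.B U.B x) = LSer.ofPS (θ x) := fun x =>
              congrArg (fun e : W.B →ₐ[k] LSer (RatFunc k) => e x) h3
            rw [h6, map_pow, h7, h7] at h5
            have hu : IsUnit (ψ (algebraMap W.B U.B g)) :=
              (IsLocalization.Away.algebraMap_isUnit (S := U.B) g).map ψ
            rw [h7] at hu
            exact mem_frS_of h5 (pow_ne_zero _ hu.ne_zero)
              ((serSub _).pow_mem (ofPS_mem (hreg' g)) n) (ofPS_mem (hreg' a))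
          · exact serSub_le_frS _ (ofPS_mem fun i => regOff_zero_le_regAt hs0 (D.hyc i))
          · intro γ
            exact serSub_le_frS _ (algebraMap_F_ofPS_mem (I_k_mem (some s)) γ)
        exact hT)
  exact exists_Emb hQ h

/-- The averaged functions on the second chart are algebraic. -/
theorem alg_b (b : D.Wb.B) : ∃ h : RatFunc (LSer k), Emb k h = D.Nb b := by
  obtain ⟨G, hG1, hG2, hG3⟩ := inv_refine A D.Wb D.Wa D.ηb D.ηa D.actb D.acta D.φb D.φa
    D.same'.symm
  obtain ⟨b', n, hb'⟩ := hG3 b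
  have e1 : D.Nb b * D.φa G ^ n = D.Na b' :=
    NmA_compare D.ηb D.ηa D.y D.θb D.θa b b' _ hb'
  have e2 : D.φa G = D.Na G := by
    unfold Na
    rw [NmA_inv D.ηa D.y D.θa G hG1]
    rfl
  obtain ⟨h1, h1'⟩ := D.alg_a b'
  obtain ⟨h2, h2'⟩ := D.alg_a G
  refine ⟨h1 / h2 ^ n, ?_⟩
  rw [map_div₀, map_pow, h1', h2', ← e1, ← e2, mul_div_cancel_right₀]
  exact pow_ne_zero _ hG2

end FD

end Run7.h99
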