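import Pool.Agent.Run7.h99.ASNorm

/-! # Interpolation at the points of a translate of a finite field -/

set_option autoImplicit false

open Polynomial

namespace Run7.h99

section interp

variable {F : Type*} [Field F] [Fintype F] {R : Type*} [CommRing R] [Algebra F R]

/-- The polynomial `1 - (X - x) ^ (q - 1)`. -/
noncomputable def ell (F : Type*) [Fintype F] {R : Type*} [CommRing R] (x : R) : R[X] :=
  1 - (X - C x) ^ (Fintype.card F - 1)

theorem ell_eval (x a : R) : (ell F x).eval a = 1 - (a - x) ^ (Fintype.card F - 1) := by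
  unfold ell
  simp

theorem ell_eval_ite [DecidableEq F] (x : R) (γ δ : F) :
    (ell F (x + algebraMap F R γ)).eval (x + algebraMap F R δ) = if γ = δ then 1 else 0 := by
  rw [ell_eval, add_sub_add_left_eq_sub, ← map_sub, ← map_pow]
  split_ifs with h
  · rw [h, sub_self, zero_pow, map_zero, sub_zero]
    have := Fintype.one_lt_card (α := F)
    omega
  · rw [FiniteField.pow_card_sub_one_eq_one _ (sub_ne_zero.2 (Ne.symm h)), map_one, sub_self]

theorem ell_natDegree (x : R) : (ell F x).natDegree < Fintype.card F := by
  have h1 : 1 < Fintype.card F := Fintype.one_lt_card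
  unfold ell
  refine lt_of_le_of_lt (natDegree_sub_le _ _) (max_lt ?_ ?_)
  · rw [natDegree_one]; omega
  · refine lt_of_le_of_lt (natDegree_pow_le) ?_
    have := natDegree_X_sub_C_le x
    nlinarith [Nat.sub_add_cancel (le_of_lt h1)]

/-- A polynomial of degree less than `q` is determined by its values at `x + F`. -/
theorem interp_ext [IsDomain R] [FaithfulSMul F R] (x : R) {P Q : R[X]} (hP : P.natDegree < Fintype.card F)
    (hQ : Q.natDegree < Fintype.card F)
    (h : ∀ γ : F, P.eval (x + algebraMap F R γ) = Q.eval (x + algebraMap F R γ)) : P = Q := by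
  classical
  have hinj : Function.Injective fun γ : F => x + algebraMap F R γ := fun a b hab =>
    (FaithfulSMul.algebraMap_injective F R) (add_left_cancel hab)
  have hcard : (Finset.univ.image fun γ : F => x + algebraMap F R γ).card = Fintype.card F := by
    rw [Finset.card_image_of_injective _ hinj, Finset.card_univ]
  refine Polynomial.eq_of_degree_sub_lt_of_eval_finset_eq
    (Finset.univ.image fun γ : F => x + algebraMap F R γ) ?_ ?_
  · rw [hcard]
    refine lt_of_le_of_lt (degree_sub_le _ _) (max_lt ?_ ?_)
    · exact degree_le_natDegree.trans_lt (by exact_mod_cast hP)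
    · exact degree_le_natDegree.trans_lt (by exact_mod_cast hQ)
  · intro y hy
    rw [Finset.mem_image] at hy
    obtain ⟨γ, _, rfl⟩ := hy
    exact h γ

/-- The interpolation polynomial with given values. -/
noncomputable def ipol (x : R) (f : F → R) : R[X] :=
  ∑ γ : F, C (f γ) * ell F (x + algebraMap F R γ)

theorem ipol_natDegree (x : R) (f : F → R) : (ipol x f).natDegree < Fintype.card F := by
  have h1 : 1 < Fintype.card F := Fintype.one_lt_card
  unfold ipol
  refine lt_of_le_of_lt (natDegree_sum_le_of_forall_le (n := Fintype.card F - 1) _ _ ?_) (by omega)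
  intro γ _
  refine (natDegree_C_mul_le _ _).trans ?_
  have := ell_natDegree (F := F) (x + algebraMap F R γ)
  omega

theorem ipol_eval (x : R) (f : F → R) (δ : F) : (ipol x f).eval (x + algebraMap F R δ) = f δ := by
  classical
  unfold ipol
  rw [eval_finsetSum, Finset.sum_eq_single δ]
  · rw [eval_mul, eval_C, ell_eval_ite, if_pos rfl, mul_one]
  · intro γ _ h
    rw [eval_mul, eval_C, ell_eval_ite, if_neg h, mul_zero]
  · intro h
    exact absurd (Finset.mem_univ _) h

theorem eq_ipol [IsDomain R] [FaithfulSMul F R] (x : R) {P : R[X]} (hP : P.natDegree < Fintype.card F) :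
    P = ipol x fun γ : F => P.eval (x + algebraMap F R γ) :=
  interp_ext (F := F) x hP (ipol_natDegree x _) fun γ =>
    (ipol_eval x (fun γ : F => P.eval (x + algebraMap F R γ)) γ).symm

end interp

section main

variable {F : Type*} [Field F] [Fintype F] {R : Type*} [CommRing R] [Algebra F R]
  {B : Type*} [CommRing B] (θ : B →+* R) (η : F → B →+* B) (y : R)

/-- The polynomial with the values `θ (η γ b)` at `y + γ`. -/
noncomputable def Th (b : B) : R[X] := ipol y fun γ : F => θ (η γ b)

theorem Th_natDegree (b : B) : (Th θ η y b).natDegree < Fintype.card F := ipol_natDegree _ _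

theorem Th_eval (b : B) (γ : F) : (Th θ η y b).eval (y + algebraMap F R γ) = θ (η γ b) :=
  ipol_eval _ _ _

/-- The value at zero. -/
noncomputable def Nm (b : B) : R := (Th θ η y b).eval 0

theorem Nm_eq (b : B) : Nm θ η y b = ∑ γ : F, θ (η γ b) *
    (1 - (-(y + algebraMap F R γ)) ^ (Fintype.card F - 1)) := by
  unfold Nm Th ipol
  rw [eval_finsetSum]
  refine Finset.sum_congr rfl fun γ _ => ?_
  rw [eval_mul, eval_C, ell_eval, zero_sub]

theorem Th_add (b b' : B) : Th θ η y (b + b') = Th θ η y b + Th θ η y b' := by
  unfold Th ipol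
  rw [← Finset.sum_add_distrib]
  refine Finset.sum_congr rfl fun γ _ => ?_
  simp only [map_add, add_mul]

theorem Nm_add (b b' : B) : Nm θ η y (b + b') = Nm θ η y b + Nm θ η y b' := by
  unfold Nm
  rw [Th_add, eval_add]

variable (hη : ∀ γ δ b, η (γ + δ) b = η γ (η δ b))

include hη in
theorem Nm_eta (b : B) (δ : F) : Nm θ η y (η δ b) = (Th θ η y b).eval (algebraMap F R δ) := by
  unfold Nm Th ipol
  rw [eval_finsetSum, eval_finsetSum]
  rw [← Equiv.sum_comp (Equiv.addRight (-δ))]
  refine Finset.sum_congr rfl fun γ _ => ?_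
  simp only [eval_mul, eval_C, ell_eval, Equiv.coe_addRight, ← hη, neg_add_cancel_right, map_add,
    map_neg]
  congr 3
  ring

include hη in
theorem Th_eq [IsDomain R] [FaithfulSMul F R] (b : B) :
    Th θ η y b = ipol 0 fun γ : F => Nm θ η y (η γ b) := by
  conv_lhs => rw [eq_ipol (F := F) 0 (Th_natDegree θ η y b)]
  congr 1
  funext γ
  rw [Nm_eta θ η y hη, zero_add]

theorem Nm_mul [IsDomain R] [FaithfulSMul F R] (p : ℕ) [hp : Fact p.Prime] [CharP R p] (r : ℕ)
    (hq : Fintype.card F = p ^ r) (b b' : B) :
    Nm θ η y (b * b') = Nm θ η y b * Nm θ η y b' +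
      (y ^ Fintype.card F - y) * (Th θ η y b * Th θ η y b').coeff (Fintype.card F) := by
  have h1 : 1 < Fintype.card F := Fintype.one_lt_card
  set q := Fintype.card F with hqdef
  set a := y ^ q - y with ha
  have hm := asP_monic h1 a
  set P := Th θ η y b * Th θ η y b' with hPdef
  have hroot : ∀ γ : F, (asP q a).eval (y + algebraMap F R γ) = 0 := by
    intro γ
    unfold asP
    rw [eval_sub, eval_pow, eval_add, eval_X, eval_C, ha]
    have h2 : (y + algebraMap F R γ) ^ q = y ^ q + algebraMap F R γ := by
      rw [hq, add_pow_char_pow, ← hq, ← map_pow, hqdef, FiniteField.pow_card]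
    rw [h2]
    ring
  have hmod : P %ₘ asP q a = Th θ η y (b * b') := by
    apply interp_ext (F := F) y
    · have := natDegree_modByMonic_lt P hm (by
        intro h
        have := asP_natDegree (R := R) h1 a
        rw [h, natDegree_one] at this
        omega)
      rwa [asP_natDegree h1] at this
    · exact Th_natDegree _ _ _ _
    · intro γ
      rw [Th_eval]
      have h3 := congrArg (Polynomial.eval (y + algebraMap F R γ)) (modByMonic_add_div P (asP q a))
      rw [eval_add, eval_mul, hroot, zero_mul, add_zero] at h3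
      rw [h3, hPdef, eval_mul, Th_eval, Th_eval, map_mul, map_mul]
  have hdiv := modByMonic_add_div P (asP q a)
  rw [hmod] at hdiv
  set Q := P /ₘ asP q a with hQ
  have hQdeg : Q.natDegree ≤ q - 2 := by
    rw [hQ, natDegree_divByMonic _ hm, asP_natDegree h1]
    have h4 : P.natDegree ≤ (q - 1) + (q - 1) := by
      refine natDegree_mul_le.trans (add_le_add ?_ ?_)
      · have := Th_natDegree θ η y b
        omega
      · have := Th_natDegree θ η y b'
        omega
    omega
  have h0 := congrArg (Polynomial.eval 0) hdiv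
  rw [eval_add, eval_mul, hPdef, eval_mul] at h0
  have h5 : (asP q a).eval 0 = -a := by
    unfold asP
    rw [eval_sub, eval_pow, eval_add, eval_X, eval_C, zero_pow (by omega)]
    ring
  rw [h5] at h0
  have hcq := congrArg (fun f : R[X] => f.coeff q) hdiv
  simp only [coeff_add] at hcq
  rw [coeff_eq_zero_of_natDegree_lt (Th_natDegree _ _ _ _), zero_add] at hcq
  have h6 : (asP q a * Q).coeff q = Q.eval 0 := by
    unfold asP
    rw [sub_mul, add_mul, coeff_sub, coeff_add, coeff_C_mul]
    have e1 : (X ^ q * Q).coeff q = Q.coeff 0 := by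
      have := coeff_X_pow_mul Q q 0
      rwa [zero_add] at this
    have e2 : (X * Q).coeff q = 0 := by
      obtain ⟨m, hm⟩ := Nat.exists_eq_succ_of_ne_zero (show q ≠ 0 by omega)
      rw [hm, Nat.succ_eq_add_one, coeff_X_mul]
      apply coeff_eq_zero_of_natDegree_lt
      omega
    have e3 : Q.coeff q = 0 := coeff_eq_zero_of_natDegree_lt (by omega)
    rw [e1, e2, e3, mul_zero, add_zero, sub_zero, coeff_zero_eq_eval_zero]
  rw [h6] at hcq
  rw [← hcq]
  unfold Nm
  linear_combination h0

end main

end Run7.h99
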