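import Pool.Agent.H19VF.I_Deform
import Pool.Agent.Run7.h99.Interp

/-! # Causality of the averaging operator -/

set_option autoImplicit false

open Polynomial Pool.Agent.H19VF

universe u

namespace Run7.h99

variable {k : Type u} [Field k] {n : ℕ} {B L : Type u} [CommRing B] [Algebra k B] [Field L]
  [Algebra k L] {F : Type*} [Field F] [Fintype F] [Algebra F L]

/-- The lift with given coordinates. -/
noncomputable def lft (z : Fin n → B) (hz : IsEtaleCoord k z) (f : B →ₐ[k] L)
    (d : Fin n → PowerSeries L) : B →ₐ[k] PowerSeries L := (I_lift z hz f d).choose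

variable (z : Fin n → B) (hz : IsEtaleCoord k z) (f : B →ₐ[k] L)

theorem lft_const (d : Fin n → PowerSeries L) (b : B) :
    PowerSeries.constantCoeff (lft z hz f d b) = f b := (I_lift z hz f d).choose_spec.1 b

theorem lft_z (d : Fin n → PowerSeries L) (j : Fin n) :
    lft z hz f d (z j) = PowerSeries.C (f (z j)) + PowerSeries.X * d j :=
  (I_lift z hz f d).choose_spec.2 j

theorem lft_cong (d d' : Fin n → PowerSeries L) (m : ℕ)
    (h : ∀ j, (PowerSeries.X : PowerSeries L) ^ m ∣ d j - d' j) (b : B) :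
    (PowerSeries.X : PowerSeries L) ^ (m + 1) ∣ lft z hz f d b - lft z hz f d' b := by
  apply etale_cong z hz
  · intro b
    rw [lft_const, lft_const]
  · intro j
    rw [lft_z, lft_z, add_sub_add_left_eq_sub, ← mul_sub, pow_succ']
    exact mul_dvd_mul_left _ (h j)

theorem lft_unique (d : Fin n → PowerSeries L) (Φ : B →ₐ[k] PowerSeries L)
    (h0 : ∀ b, PowerSeries.constantCoeff (Φ b) = f b)
    (h1 : ∀ j, Φ (z j) = PowerSeries.C (f (z j)) + PowerSeries.X * d j) : Φ = lft z hz f d := by
  apply etale_unique z hz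
  · intro b
    rw [h0, lft_const]
  · intro j
    rw [h1, lft_z]

variable (η : F → B →ₐ[k] B) (y : PowerSeries L) (hy : PowerSeries.X ∣ y)

/-- The averaged function `Nm` attached to the lift. -/
noncomputable def NmA (Φ : B →ₐ[k] PowerSeries L) (b : B) : PowerSeries L :=
  Nm Φ.toRingHom (fun γ => (η γ).toRingHom) y b

theorem NmA_eq (Φ : B →ₐ[k] PowerSeries L) (b : B) : NmA η y Φ b = ∑ γ : F, Φ (η γ b) *
    (1 - (-(y + algebraMap F (PowerSeries L) γ)) ^ (Fintype.card F - 1)) := Nm_eq _ _ _ _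

include hy in
theorem weight_ne {γ : F} (hγ : γ ≠ 0) : (PowerSeries.X : PowerSeries L) ∣
    1 - (-(y + algebraMap F (PowerSeries L) γ)) ^ (Fintype.card F - 1) := by
  rw [PowerSeries.X_dvd_iff, map_sub, map_one, map_pow, map_neg, map_add,
    PowerSeries.X_dvd_iff.1 hy, zero_add, PowerSeries.algebraMap_apply,
    PowerSeries.constantCoeff_C, ← map_neg, ← map_pow,
    FiniteField.pow_card_sub_one_eq_one _ (neg_ne_zero.2 hγ), map_one, sub_self]

include hy in
theorem weight_zero : (PowerSeries.X : PowerSeries L) ∣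
    1 - (-(y + algebraMap F (PowerSeries L) 0)) ^ (Fintype.card F - 1) - 1 := by
  have h1 : 1 < Fintype.card F := Fintype.one_lt_card
  rw [map_zero, add_zero, sub_sub_cancel_left, dvd_neg]
  exact (dvd_neg.2 hy).trans (dvd_pow_self _ (by omega))

include hy in
/-- The averaged function has the same constant term. -/
theorem NmA_const (hη0 : ∀ b, η 0 b = b) (Φ : B →ₐ[k] PowerSeries L) (b : B) :
    PowerSeries.constantCoeff (NmA η y Φ b) = PowerSeries.constantCoeff (Φ b) := by
  rw [NmA_eq, map_sum, Finset.sum_eq_single 0]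
  · rw [map_mul, hη0]
    have h := PowerSeries.X_dvd_iff.1 (weight_zero (F := F) y hy)
    rw [map_sub, map_one, sub_eq_zero] at h
    rw [h, mul_one]
  · intro γ _ hγ
    rw [map_mul, PowerSeries.X_dvd_iff.1 (weight_ne y hy hγ), mul_zero]
  · intro h
    exact absurd (Finset.mem_univ _) h

include hy in
theorem NmA_cong (hη0 : ∀ b, η 0 b = b) (Φ Φ' : B →ₐ[k] PowerSeries L) (m : ℕ)
    (h : ∀ b, (PowerSeries.X : PowerSeries L) ^ m ∣ Φ b - Φ' b) (b : B) :
    (PowerSeries.X : PowerSeries L) ^ (m + 1) ∣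
      (NmA η y Φ b - NmA η y Φ' b) - (Φ b - Φ' b) := by
  classical
  have e : (NmA η y Φ b - NmA η y Φ' b) - (Φ b - Φ' b) = ∑ γ : F, (Φ (η γ b) - Φ' (η γ b)) *
      ((1 - (-(y + algebraMap F (PowerSeries L) γ)) ^ (Fintype.card F - 1)) -
        if γ = 0 then 1 else 0) := by
    rw [NmA_eq, NmA_eq, ← Finset.sum_sub_distrib]
    have e2 : Φ b - Φ' b = ∑ γ : F, (Φ (η γ b) - Φ' (η γ b)) * if γ = 0 then 1 else 0 := by
      rw [Finset.sum_eq_single 0]
      · rw [if_pos rfl, mul_one, hη0]
      · intro γ _ hγ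
        rw [if_neg hγ, mul_zero]
      · intro h
        exact absurd (Finset.mem_univ _) h
    rw [e2, ← Finset.sum_sub_distrib]
    refine Finset.sum_congr rfl fun γ _ => ?_
    ring
  rw [e]
  apply Finset.dvd_sum
  intro γ _
  rw [pow_succ]
  apply mul_dvd_mul (h _)
  split_ifs with hγ
  · rw [hγ]
    exact weight_zero y hy
  · rw [sub_zero]
    exact weight_ne y hy hγ

/-- The operator of the coefficients of the averaged coordinates. -/
noncomputable def UU (d : Fin n → PowerSeries L) (j : Fin n) : PowerSeries L :=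
  PowerSeries.mk fun i => PowerSeries.coeff (i + 1) (NmA η y (lft z hz f d) (z j))

include hy in
theorem UU_causal (hη0 : ∀ b, η 0 b = b) (d d' : Fin n → PowerSeries L) (m : ℕ)
    (h : ∀ j, (PowerSeries.X : PowerSeries L) ^ m ∣ d j - d' j) (i : ℕ) (hi : i ≤ m) (j : Fin n) :
    PowerSeries.coeff i (UU z hz f η y d j) - PowerSeries.coeff i (d j) =
      PowerSeries.coeff i (UU z hz f η y d' j) - PowerSeries.coeff i (d' j) := by
  have h1 := NmA_cong η y hy hη0 (lft z hz f d) (lft z hz f d') (m + 1)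
    (lft_cong z hz f d d' m h) (z j)
  have h2 := PowerSeries.X_pow_dvd_iff.1 h1 (i + 1) (by omega)
  rw [lft_z, lft_z, add_sub_add_left_eq_sub, ← mul_sub, map_sub, map_sub,
    PowerSeries.coeff_succ_X_mul, map_sub] at h2
  unfold UU
  rw [PowerSeries.coeff_mk, PowerSeries.coeff_mk]
  linear_combination h2

end Run7.h99
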