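import Pool.Agent.H19VF.I_Deform

/-! # A nonlinear Cousin problem -/

set_option autoImplicit false

open AlgebraicGeometry CategoryTheory Polynomial Pool.Agent.H19VF

universe u

namespace Run7.h99

variable {k : Type u} [Field k] {V : Scheme.{u}} {π : V ⟶ Spec (.of k)}
  {n : ℕ} {κ : Type u} [Field κ] [Algebra k κ]

/-- The solution of a strictly causal perturbation of the Cousin problem of the sections. -/
theorem newton_cousin (D : LocData π n κ) (N : ℤ) (ξ : Fin n → Sec D)
    (hN : ∀ i b, Van none N (((ξ i).δ none b).snd))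
    (hdet : (Matrix.of fun i j => ((ξ i).δ1 (D.W1.z j)).snd).det ≠ 0)
    (nn : Option κ → ℕ) (hnn : (∑ s ∈ D.S, (nn (some s) : ℤ)) + nn none ≤ N + 1)
    (E : Option κ → (Fin n → PowerSeries (RatFunc κ)) → Fin n → PowerSeries (RatFunc κ))
    (J : Option κ → Matrix (Fin n) (Fin n) (RatFunc κ))
    (hE : ∀ s, InS D.S s → ∀ (d d' : Fin n → PowerSeries (RatFunc κ)) (m : ℕ),
      (∀ j, (PowerSeries.X : PowerSeries (RatFunc κ)) ^ m ∣ d j - d' j) → ∀ i ≤ m,
      (fun j => PowerSeries.coeff i (E s d j)) - (J s).mulVec (fun j => PowerSeries.coeff i (d j)) =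
      (fun j => PowerSeries.coeff i (E s d' j)) -
        (J s).mulVec (fun j => PowerSeries.coeff i (d' j)))
    (hJ : ∀ s, InS D.S s → ∀ i, (fun j => ((ξ i).δ s ((D.W s).z j)).snd) =
      (J s).mulVec fun j => ((ξ i).δ1 (D.W1.z j)).snd) :
    ∃ ζ : Fin n → PowerSeries (RatFunc κ), (∀ j i, PowerSeries.coeff i (ζ j) ∈ regOff D.S) ∧
      ∀ s, InS D.S s → ∀ j i, Van s (nn s) (PowerSeries.coeff i (E s ζ j)) := by
  choose Cz hCz1 hCz2 using I_raw D N ξ hN hdet nn hnn
  let G : (Fin n → PowerSeries (RatFunc κ)) → ℕ → Option κ → Fin n → RatFunc κ :=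
    fun a i s => open Classical in if InS D.S s then
      -((fun j => PowerSeries.coeff i (E s a j)) - (J s).mulVec (fun j => PowerSeries.coeff i (a j)))
      else 0
  let NN : (Fin n → PowerSeries (RatFunc κ)) → Fin n → PowerSeries (RatFunc κ) := fun a j =>
    PowerSeries.mk fun i => ∑ l, Cz (G a i) l * ((ξ l).δ1 (D.W1.z j)).snd
  obtain ⟨ζ, hζ⟩ := fixed_point NN (by
    intro m a b hab j
    rw [PowerSeries.X_pow_dvd_iff]
    intro i hi
    have hG : G a i = G b i := by
      funext s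
      by_cases hs : InS D.S s
      · simp only [G, if_pos hs]
        congr 1
        exact hE s hs _ _ m hab i (by omega)
      · simp only [G, if_neg hs]
    rw [map_sub, sub_eq_zero]
    simp only [NN, PowerSeries.coeff_mk, hG])
  have hc : ∀ i j, PowerSeries.coeff i (ζ j) =
      ∑ l, Cz (G ζ i) l * ((ξ l).δ1 (D.W1.z j)).snd := by
    intro i j
    conv_lhs => rw [← hζ]
    simp only [NN, PowerSeries.coeff_mk]
  refine ⟨ζ, fun j i => ?_, fun s hs j i => ?_⟩
  · rw [hc]
    exact Subring.sum_mem _ fun l _ => Subring.mul_mem _ (hCz1 _ l) ((ξ l).r1 _)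
  · have h1 := hCz2 (G ζ i) s hs j
    have h2 : (J s).mulVec (fun j => PowerSeries.coeff i (ζ j)) =
        fun j => ∑ l, Cz (G ζ i) l * ((ξ l).δ s ((D.W s).z j)).snd := by
      have h3 : (fun j => PowerSeries.coeff i (ζ j)) =
          ∑ l, Cz (G ζ i) l • fun j => ((ξ l).δ1 (D.W1.z j)).snd := by
        funext j
        rw [hc i j, Finset.sum_apply]
        rfl
      rw [h3, Matrix.mulVec_sum]
      funext j
      rw [Finset.sum_apply]
      refine Finset.sum_congr rfl fun l _ => ?_
      rw [Matrix.mulVec_smul, ← hJ s hs l]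
      rfl
    have h4 : G ζ i s j = -(PowerSeries.coeff i (E s ζ j) -
        ∑ l, Cz (G ζ i) l * ((ξ l).δ s ((D.W s).z j)).snd) := by
      have h5 : G ζ i s j = -(PowerSeries.coeff i (E s ζ j) -
          (J s).mulVec (fun j => PowerSeries.coeff i (ζ j)) j) := by
        simp only [G, if_pos hs, Pi.neg_apply, Pi.sub_apply]
      rw [h5, congrFun h2 j]
    rw [h4] at h1
    rwa [sub_neg_eq_add, add_sub_cancel] at h1

end Run7.h99
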