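import Pool.Agent.Run7.h99.Local2
import Pool.Agent.Run7.h99.Cousin

/-! # The formal deformation -/

set_option autoImplicit false

open AlgebraicGeometry CategoryTheory Polynomial Pool.Agent.H19VF

universe u

namespace Run7.h99

section triv

variable {k : Type u} [Field k] {B L : Type u} [CommRing B] [Algebra k B] [Field L]
  [Algebra k L] {F : Type*} [Field F] [Fintype F] [Algebra F L]

/-- For the trivial action the average is the function itself. -/
theorem NmA_triv (η : F → B →ₐ[k] B) (hη : ∀ γ b, η γ b = b) (y : PowerSeries L)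
    (Φ : B →ₐ[k] PowerSeries L) (b : B) : NmA η y Φ b = Φ b := by
  have : FaithfulSMul F (PowerSeries L) := by
    rw [faithfulSMul_iff_algebraMap_injective]
    exact (algebraMap F (PowerSeries L)).injective
  have h : Th Φ.toRingHom (fun γ => (η γ).toRingHom) y b = C (Φ b) := by
    apply interp_ext (F := F) y
    · exact Th_natDegree _ _ _ _
    · rw [natDegree_C]
      exact Fintype.card_pos
    · intro γ
      rw [Th_eval, eval_C]
      change Φ (η γ b) = _
      rw [hη]
  change (Th Φ.toRingHom (fun γ => (η γ).toRingHom) y b).eval 0 = _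
  rw [h, eval_C]

end triv

variable {k : Type u} [Field k] {V : Scheme.{u}} {π : V ⟶ Spec (.of k)} {n : ℕ}
  {F : Type*} [Field F] [Fintype F] [Algebra F k]

/-- The formal deformation of the curve over the formal Artin-Schreier cover. -/
theorem formal_raw (D : LocData π n k) (N : ℤ) (ξ : Fin n → Sec D)
    (hN : ∀ i b, Van none N (((ξ i).δ none b).snd))
    (hdet : (Matrix.of fun i j => ((ξ i).δ1 (D.W1.z j)).snd).det ≠ 0)
    (nn : Option k → ℕ) (hnn : (∑ s ∈ D.S, (nn (some s) : ℤ)) + nn none ≤ N + 1)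
    (η : ∀ s, F → (D.W s).B →ₐ[k] (D.W s).B) (hη0 : ∀ s b, η s 0 b = b)
    (y : PowerSeries (RatFunc k)) (hyX : PowerSeries.X ∣ y) :
    ∃ (θ1 : D.W1.B →ₐ[k] PowerSeries (RatFunc k))
      (θ : ∀ s, (D.W s).B →ₐ[k] PowerSeries (RatFunc k)),
      (∀ b i, PowerSeries.coeff i (θ1 b) ∈ regOff D.S) ∧
      (∀ s, InS D.S s → (D.W s).pt.map (θ s) = D.W1.pt.map θ1) ∧
      (∀ s, InS D.S s → ∀ b, PowerSeries.constantCoeff (θ s b) = D.f s b) ∧
      (∀ s, InS D.S s → ∀ j i, 1 ≤ i →
        Van s (nn s) (PowerSeries.coeff i (NmA (η s) y (θ s) ((D.W s).z j)))) := by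
  classical
  have hT := fun s (hs : InS D.S s) => I_T D.W1 (D.W s) D.f1 (D.f s) (D.same s hs).symm
  choose T J hJu hcau hzero hsec hlift using hT
  let E : Option k → (Fin n → PowerSeries (RatFunc k)) → Fin n → PowerSeries (RatFunc k) :=
    fun s d => if hs : InS D.S s then UU (D.W s).z (D.W s).et (D.f s) (η s) y (T s hs d) else 0
  let JJ : Option k → Matrix (Fin n) (Fin n) (RatFunc k) :=
    fun s => if hs : InS D.S s then J s hs else 0
  obtain ⟨ζ, hζ1, hζ2⟩ := newton_cousin D N ξ hN hdet nn hnn E JJ (by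
    intro s hs d d' m h i hi
    simp only [E, JJ, dif_pos hs]
    have hT' : ∀ j, (PowerSeries.X : PowerSeries (RatFunc k)) ^ m ∣ T s hs d j - T s hs d' j := by
      intro j
      rw [PowerSeries.X_pow_dvd_iff]
      intro v hv
      have h1 := congrFun (hcau s hs d d' m h v hv.le) j
      have h2 : (fun j => PowerSeries.coeff v (d j)) = fun j => PowerSeries.coeff v (d' j) := by
        funext j
        have h3 := PowerSeries.X_pow_dvd_iff.1 (h j) v hv
        rw [map_sub, sub_eq_zero] at h3
        exact h3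
      rw [h2] at h1
      simp only [Pi.sub_apply, sub_left_inj] at h1
      rw [map_sub, h1, sub_self]
    have h1 := hcau s hs d d' m h i hi
    funext j
    have h2 := UU_causal (D.W s).z (D.W s).et (D.f s) (η s) y hyX (hη0 s) _ _ m hT' i hi j
    have h3 := congrFun h1 j
    simp only [Pi.sub_apply] at h3 ⊢
    linear_combination h2 + h3) (by
    intro s hs i
    simp only [JJ, dif_pos hs]
    exact hsec s hs ((ξ i).δ1) ((ξ i).δ s) ((ξ i).h1) ((ξ i).same s hs).symm)
  refine ⟨lft D.W1.z D.W1.et D.f1 ζ, fun s => if hs : InS D.S s then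
    lft (D.W s).z (D.W s).et (D.f s) (T s hs ζ) else lft (D.W s).z (D.W s).et (D.f s) 0,
    ?_, ?_, ?_, ?_⟩
  · apply I_reg D.W1.z D.W1.et (regOff D.S) (I_k_mem' D.S)
    · intro b
      rw [lft_const]
      exact D.hf1 b
    · intro j i
      rw [lft_z]
      cases i with
      | zero => simpa using D.hf1 _
      | succ i =>
        rw [map_add, PowerSeries.coeff_succ_X_mul, PowerSeries.coeff_C]
        simp only [Nat.add_eq_zero_iff, one_ne_zero, and_false, if_false, zero_add]
        exact hζ1 j i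
  · intro s hs
    simp only [dif_pos hs]
    obtain ⟨φ, φ', g1, g2, g3, g4, g5⟩ := hlift s hs ζ
    rw [← lft_unique D.W1.z D.W1.et D.f1 ζ φ g1 g3,
      ← lft_unique (D.W s).z (D.W s).et (D.f s) _ φ' g2 g4, g5]
  · intro s hs b
    simp only [dif_pos hs]
    exact lft_const _ _ _ _ _
  · intro s hs j i hi
    simp only [dif_pos hs]
    have h1 := hζ2 s hs j (i - 1)
    simp only [E, dif_pos hs, UU, PowerSeries.coeff_mk] at h1
    rwa [Nat.sub_add_cancel hi] at h1

/-- The formal deformation with all its regularity properties. -/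
theorem formal (D : LocData π n k) (hS : (0 : k) ∈ D.S) (N : ℤ)
    (hNF : 2 * (Fintype.card F : ℤ) ≤ N + 1) (ξ : Fin n → Sec D)
    (hN : ∀ i b, Van none N (((ξ i).δ none b).snd))
    (hdet : (Matrix.of fun i j => ((ξ i).δ1 (D.W1.z j)).snd).det ≠ 0)
    (η : ∀ s, F → (D.W s).B →ₐ[k] (D.W s).B) (hη0 : ∀ s b, η s 0 b = b)
    (hηa : ∀ s γ δ b, η s (γ + δ) b = η s γ (η s δ b))
    (ν : ∀ s, (D.W s).B →ₐ[k] k)
    (hsp : ∀ s, (s = none ∨ s = some 0) → (∀ γ b, ν s (η s γ b) = ν s b) ∧
      (∀ j, ν s ((D.W s).z j) = 0) ∧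
      ∀ b, Van s (Fintype.card F) (D.f s b - polR (C (ν s b))))
    (hord : ∀ s, ¬(s = none ∨ s = some 0) → ∀ γ b, η s γ b = b)
    (p : ℕ) [hp : Fact p.Prime] [CharP k p] (r : ℕ) (hq : Fintype.card F = p ^ r)
    (y : PowerSeries (RatFunc k)) (hyX : PowerSeries.X ∣ y)
    (hy : y ^ Fintype.card F - y =
      PowerSeries.X ^ Fintype.card F * PowerSeries.C (cR k (Fintype.card F))) :
    ∃ (θ1 : D.W1.B →ₐ[k] PowerSeries (RatFunc k))
      (θ : ∀ s, (D.W s).B →ₐ[k] PowerSeries (RatFunc k)),
      (∀ b i, PowerSeries.coeff i (θ1 b) ∈ regOff D.S) ∧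
      (∀ s, InS D.S s → (D.W s).pt.map (θ s) = D.W1.pt.map θ1) ∧
      (∀ s, (s = none ∨ s = some 0) → ∀ b i, Van s (Fintype.card F)
        (PowerSeries.coeff i (NmA (η s) y (θ s) b - algebraMap k _ (ν s b)))) ∧
      (∀ s, InS D.S s → ¬(s = none ∨ s = some 0) →
        ∀ b i, PowerSeries.coeff i (θ s b) ∈ regAt s) := by
  classical
  have hq1 : 1 < Fintype.card F := Fintype.one_lt_card
  let nn : Option k → ℕ := fun s => if s = none ∨ s = some 0 then Fintype.card F else 0
  have hnn : (∑ s ∈ D.S, (nn (some s) : ℤ)) + nn none ≤ N + 1 := by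
    have h1 : ∑ s ∈ D.S, (nn (some s) : ℤ) = Fintype.card F := by
      rw [Finset.sum_eq_single (0 : k)]
      · simp [nn]
      · intro b _ hb
        have h : ¬(some b = none ∨ some b = some (0 : k)) := by
          simp [hb]
        simp only [nn, if_neg h, Nat.cast_zero]
      · intro h
        exact absurd hS h
    have h2 : nn none = Fintype.card F := by simp [nn]
    rw [h1, h2]
    linarith
  have hspS : ∀ s, (s = none ∨ s = some (0 : k)) → InS D.S s := by
    rintro s (rfl | rfl) a ha
    · simp at ha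
    · rw [← Option.some.inj ha]
      exact hS
  obtain ⟨θ1, θ, h1, h2, h3, h4⟩ := formal_raw D N ξ hN hdet nn hnn η hη0 y hyX
  refine ⟨θ1, θ, h1, h2, ?_, ?_⟩
  · intro s hs b i
    have hs' := hspS s hs
    obtain ⟨g1, g2, g3⟩ := hsp s hs
    have hnn' : nn s = Fintype.card F := by simp only [nn, if_pos hs]
    have hc : Van s (-((Fintype.card F : ℕ) : ℤ)) (cR k (Fintype.card F)) := by
      rcases hs with rfl | rfl
      · exact cR_van_none k _ hq1
      · exact cR_van_zero k _ hq1
    have hf : ∀ b, Van s (Fintype.card F)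
        (PowerSeries.constantCoeff (θ s b) - polR (C (ν s b))) := by
      intro b
      rw [h3 s hs']
      exact g3 b
    cases i with
    | zero =>
      rw [map_sub, PowerSeries.algebraMap_apply, PowerSeries.coeff_zero_C,
        PowerSeries.coeff_zero_eq_constantCoeff_apply, NmA_const (η s) y hyX (hη0 s)]
      have e : algebraMap k (RatFunc k) (ν s b) = polR (C (ν s b)) := by
        rw [IsScalarTower.algebraMap_apply k k[X] (RatFunc k)]
        rfl
      rw [e]
      exact hf b
    | succ i =>
      rw [map_sub, PowerSeries.algebraMap_apply, PowerSeries.coeff_C, if_neg (by omega), sub_zero]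
      refine local_lemma (η s) (θ s) y (hηa s) (ν s) g1 s (Fintype.card F) (hη0 s) hyX hf p r hq
        (cR k (Fintype.card F)) hy hc (D.W s).z (D.W s).et ?_ (i + 1) (by omega) b
      intro j i' hi'
      have := h4 s hs' j i' hi'
      rwa [hnn'] at this
  · intro s hs hns b i
    have hnn' : nn s = 0 := by simp only [nn, if_neg hns]
    apply I_reg (D.W s).z (D.W s).et (regAt s) (I_k_mem s) (θ s)
    · intro b
      rw [h3 s hs]
      exact D.hf s hs b
    · intro j i
      cases i with
      | zero =>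
        rw [PowerSeries.coeff_zero_eq_constantCoeff_apply, h3 s hs]
        exact D.hf s hs _
      | succ i =>
        have := h4 s hs j (i + 1) (by omega)
        rw [NmA_triv (η s) (hord s hns), hnn'] at this
        exact van_zero_iff.1 this

end Run7.h99
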