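import Pool.Agent.Run7.h99.Data
import Pool.Agent.Run7.h99.Formal

/-! # The formal deformation, geometric form -/

set_option autoImplicit false

open AlgebraicGeometry CategoryTheory Polynomial Pool.Agent.H19VF

universe u

namespace Run7.h99

variable {F : Type} [AddCommGroup F] {k : Type u} [Field k] {V : Scheme.{u}}
  {π : V ⟶ Spec (.of k)}

/-- A homomorphism of a stable chart which describes the action. -/
def IsAct (A : Act F π) (W : Chart π) (η : F → W.B →ₐ[k] W.B) : Prop :=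
  ∀ γ, A.pt γ W.pt = W.pt.map (η γ)

theorem IsAct.zero {A : Act F π} {W : Chart π} {η : F → W.B →ₐ[k] W.B} (h : IsAct A W η)
    (b : W.B) : η 0 b = b := by
  have h1 : η 0 = AlgHom.id k _ := by
    apply W.map_injective
    rw [← h, A.pt_zero, Pt.map_id]
  rw [h1]
  rfl

theorem IsAct.add {A : Act F π} {W : Chart π} {η : F → W.B →ₐ[k] W.B} (h : IsAct A W η)
    (γ δ : F) (b : W.B) : η (γ + δ) b = η γ (η δ b) := by
  have h1 : η (γ + δ) = (η γ).comp (η δ) := by
    apply W.map_injective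
    rw [← h, ← Pt.map_map, ← h, A.pt_map, ← h, ← A.pt_add]
  rw [h1]
  rfl

theorem IsAct.pt {A : Act F π} {W : Chart π} {η : F → W.B →ₐ[k] W.B} (h : IsAct A W η)
    {ν : W.B →ₐ[k] k} (hfix : ∀ γ, A.pt γ (W.pt.map ν) = W.pt.map ν) (γ : F) (b : W.B) :
    ν (η γ b) = ν b := by
  have h1 : ν.comp (η γ) = ν := by
    apply W.map_injective
    rw [← Pt.map_map, ← h, A.pt_map, hfix]
  exact congrArg (fun e : W.B →ₐ[k] k => e b) h1

/-- The deformed curve, as a family of points with values in the power series over the rational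
functions. -/
theorem exists_formal {F : Type} [Field F] [Fintype F] {k : Type u} [Field k] [IsAlgClosed k]
    [Algebra F k] {V : Scheme.{u}} {π : V ⟶ Spec (.of k)} (p : ℕ) [Fact p.Prime] [CharP k p]
    (r : ℕ) (hq : Fintype.card F = p ^ r) (n : ℕ) [SmoothOfRelativeDimension n π] [IsSeparated π]
    (A : Act F π) (F0 : Crv π k) (hF0 : IsVeryFree F0) (z1 z2 : Pt π k)
    (h1 : F0.at none = z1) (h2 : F0.at (some 0) = z2) (hz1 : ∀ γ, A.pt γ z1 = z1)
    (hz2 : ∀ γ, A.pt γ z2 = z2) (U : V.Opens) (hU : Set.range z1.1 ⊆ U) :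
    ∃ (Wa Wb : Chart π) (ηa : F → Wa.B →ₐ[k] Wa.B) (ηb : F → Wb.B →ₐ[k] Wb.B)
      (νa : Wa.B →ₐ[k] k) (νb : Wb.B →ₐ[k] k) (S : Finset k) (y : PowerSeries (RatFunc k))
      (θa : Wa.B →ₐ[k] PowerSeries (RatFunc k)) (θb : Wb.B →ₐ[k] PowerSeries (RatFunc k)),
      (0 : k) ∈ S ∧ z1 = Wa.pt.map νa ∧ z2 = Wb.pt.map νb ∧ Set.range Wa.pt.1 ⊆ U ∧
      IsAct A Wa ηa ∧ IsAct A Wb ηb ∧ Wa.pt.map θa = Wb.pt.map θb ∧
      (y ^ Fintype.card F - y =
        PowerSeries.X ^ Fintype.card F * PowerSeries.C (cR k (Fintype.card F))) ∧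
      (∀ i, PowerSeries.coeff i y ∈ regOff {(0 : k)}) ∧
      (∀ b i, PowerSeries.coeff i (θa b) ∈ regOff S) ∧
      (∀ b i, Van none (Fintype.card F)
        (PowerSeries.coeff i (NmA ηa y θa b - algebraMap k _ (νa b)))) ∧
      (∀ b i, Van (some 0) (Fintype.card F)
        (PowerSeries.coeff i (NmA ηb y θb b - algebraMap k _ (νb b)))) ∧
      ∀ s ∈ S, s ≠ 0 → ∃ (W : Chart π) (θ : W.B →ₐ[k] PowerSeries (RatFunc k)),
        W.pt.map θ = Wa.pt.map θa ∧ ∀ b i, PowerSeries.coeff i (θ b) ∈ regAt (some s) := by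
  have hq1 : 1 < Fintype.card F := Fintype.one_lt_card
  obtain ⟨D, η, ν, ε, hD, hS, hε, hWU, hν1, hν2, hsp, hord⟩ := exists_data (n := n) A F0
    (2 * Fintype.card F) (by omega) z1 z2 h1 h2 hz1 hz2 U hU
  obtain ⟨ξ, hξ1, hξ2, -⟩ := exists_sections F0 hF0 D (2 * Fintype.card F) (by omega) hD hS
  obtain ⟨y, hy1, hy2, hy3⟩ := exists_y (regOff {(0 : k)}) (cR k (Fintype.card F))
    (cR_mem k _) (Fintype.card F) hq1
  have hact : ∀ s, (s = none ∨ s = some 0) → IsAct A (D.W s).toChart (η s) :=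
    fun s hs => (hsp s hs).1
  have hη0 : ∀ s b, η s 0 b = b := by
    intro s b
    by_cases hs : s = none ∨ s = some 0
    · exact (hact s hs).zero b
    · exact hord s hs 0 b
  have hηa : ∀ s γ δ b, η s (γ + δ) b = η s γ (η s δ b) := by
    intro s γ δ b
    by_cases hs : s = none ∨ s = some 0
    · exact (hact s hs).add γ δ b
    · rw [hord s hs, hord s hs, hord s hs]
  have hfix : ∀ s, (s = none ∨ s = some 0) → ∀ γ,
      A.pt γ ((D.W s).pt.map (ν s)) = (D.W s).pt.map (ν s) := by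
    intro s hs γ
    rcases hs with rfl | rfl
    · rw [← hν1, hz1]
    · rw [← hν2, hz2]
  obtain ⟨θ1, θ, g1, g2, g3, g4⟩ := formal D hS ((2 * Fintype.card F : ℕ) : ℤ)
    (by push_cast; omega) ξ hξ1 hξ2 η hη0 hηa ν
    (fun s hs => ⟨fun γ b => (hact s hs).pt (hfix s hs) γ b, (hsp s hs).2.1, fun b =>
      ((hsp s hs).2.2 b).mono (by push_cast; omega)⟩) hord p r hq y hy2 hy1
  have hinone : InS D.S none := fun a h => by simp at h
  have hi0 : InS D.S (some 0) := fun a h => by rw [← Option.some.inj h]; exact hS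
  have hθ : θ none = θ1.comp ε := by
    apply (D.W none).toChart.map_injective
    rw [g2 none hinone, ← Pt.map_map, ← hε]
  refine ⟨(D.W none).toChart, (D.W (some 0)).toChart, η none, η (some 0), ν none, ν (some 0), D.S,
    y, θ none, θ (some 0), hS, hν1, hν2, hWU, hact none (Or.inl rfl), hact _ (Or.inr rfl), ?_, hy1,
    hy3, ?_, g3 none (Or.inl rfl), g3 (some 0) (Or.inr rfl), ?_⟩
  · rw [g2 none hinone, g2 (some 0) hi0]
  · intro b i
    rw [hθ]
    exact g1 (ε b) i
  · intro s hs hs0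
    have his : InS D.S (some s) := fun a h => by rw [← Option.some.inj h]; exact hs
    refine ⟨(D.W (some s)).toChart, θ (some s), ?_, fun b i => g4 (some s) his ?_ b i⟩
    · rw [g2 none hinone, g2 (some s) his]
    · rintro (h | h)
      · simp at h
      · exact hs0 (Option.some.inj h)

end Run7.h99
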