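import Pool.Agent.Run7.h99.Final2
import Pool.Agent.Run7.h99.FormalGeo

/-! # The core theorem -/

set_option autoImplicit false

open AlgebraicGeometry CategoryTheory Polynomial Pool.Agent.H19VF

universe u

namespace Run7.h99

theorem chart_ft {k : Type u} [Field k] {V : Scheme.{u}} {π : V ⟶ Spec (.of k)}
    [LocallyOfFiniteType π] (W : Chart π) : Algebra.FiniteType k W.B := by
  have := W.imm
  have h1 : LocallyOfFiniteType (W.pt.1 ≫ π) := inferInstance
  rw [W.pt.2] at h1
  have h2 := (HasRingHomProperty.Spec_iff (P := @LocallyOfFiniteType)).mp h1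
  exact RingHom.finiteType_algebraMap.mp h2

/-- A maximal ideal of an algebra of finite type is the kernel of a homomorphism to the field. -/
theorem exists_ker_max {k : Type u} [Field k] [IsAlgClosed k] {B : Type u} [CommRing B]
    [Algebra k B] [Algebra.FiniteType k B] (M : Ideal B) [hM : M.IsMaximal] :
    ∃ μ : B →ₐ[k] k, ∀ b, μ b = 0 ↔ b ∈ M := by
  let _ : Field (B ⧸ M) := Ideal.Quotient.field M
  have h1 : Algebra.FiniteType k (B ⧸ M) := inferInstance
  have h2 : Module.Finite k (B ⧸ M) := finite_of_finite_type_of_isJacobsonRing k (B ⧸ M)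
  have h3 : Function.Bijective (algebraMap k (B ⧸ M)) :=
    IsAlgClosed.algebraMap_bijective_of_isIntegral
  let e : k ≃ₐ[k] (B ⧸ M) := AlgEquiv.ofBijective (Algebra.ofId k (B ⧸ M)) h3
  refine ⟨(e.symm : (B ⧸ M) →ₐ[k] k).comp (Ideal.Quotient.mkₐ k M), fun b => ?_⟩
  change e.symm (Ideal.Quotient.mk M b) = 0 ↔ b ∈ M
  rw [EmbeddingLike.map_eq_zero_iff, Ideal.Quotient.eq_zero_iff_mem]

theorem hiso_of {F : Type} [AddCommGroup F] {k : Type u} [Field k] [IsAlgClosed k] {V : Scheme.{u}}
    {π : V ⟶ Spec (.of k)} (A : Act F π) (W : Chart π) [Algebra.FiniteType k W.B]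
    (η : F → W.B →ₐ[k] W.B) (hA : IsAct A W η) (ν : W.B →ₐ[k] k)
    (h : ∀ μ : W.B →ₐ[k] k, (∀ γ, A.pt γ (W.pt.map μ) = W.pt.map μ) → μ = ν) (b : W.B)
    (hb : ν b = 0) : ∃ n, b ^ n ∈ Ideal.span {x | ∃ i b', x = η i b' - b'} := by
  set I := Ideal.span {x : W.B | ∃ i b', x = η i b' - b'} with hI
  have hJ : IsJacobsonRing W.B := isJacobsonRing_of_finiteType (A := k)
  change b ∈ I.radical
  rw [Ideal.radical_eq_jacobson, Ideal.jacobson, Ideal.mem_sInf]
  rintro M ⟨hIM, hM⟩
  obtain ⟨μ, hμ⟩ := exists_ker_max (k := k) M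
  have h1 : μ = ν := by
    apply h
    intro γ
    have h2 : μ.comp (η γ) = μ := by
      apply AlgHom.ext
      intro b'
      have h3 : η γ b' - b' ∈ M := hIM (Ideal.subset_span ⟨γ, b', rfl⟩)
      rw [← hμ, map_sub, sub_eq_zero] at h3
      exact h3
    rw [← A.pt_map, hA, Pt.map_map, h2]
  rw [← hμ, h1, hb]

/-- The core theorem: on a smooth separated scheme over an algebraically closed field of
characteristic `p`, two fixed points of an action of an elementary abelian `p`-group which lie on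
a very free rational curve are equal if the first one is isolated. -/
theorem core {F : Type} [Field F] [Fintype F] {k : Type u} [Field k] [IsAlgClosed k]
    [Algebra F k] {V : Scheme.{u}} {π : V ⟶ Spec (.of k)} (p : ℕ) [Fact p.Prime] [CharP k p]
    (r : ℕ) (hq : Fintype.card F = p ^ r) (n : ℕ) [SmoothOfRelativeDimension n π] [IsSeparated π]
    (A : Act F π) (F0 : Crv π k) (hF0 : IsVeryFree F0) (z1 z2 : Pt π k)
    (h1 : F0.at none = z1) (h2 : F0.at (some 0) = z2) (hz1 : ∀ γ, A.pt γ z1 = z1)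
    (hz2 : ∀ γ, A.pt γ z2 = z2) (U : V.Opens) (hU : Set.range z1.1 ⊆ U)
    (hiso : ∀ z' : Pt π k, Set.range z'.1 ⊆ U → (∀ γ, A.pt γ z' = z') → z' = z1) : z1 = z2 := by
  have hq1 : 1 < p ^ r := by
    rw [← hq]
    exact Fintype.one_lt_card
  obtain ⟨Wa, Wb, ηa, ηb, νa, νb, S, y, θa, θb, hS, e1, e2, hWU, acta, actb, same, hy, hyc, hθa,
    vana, vanb, loc⟩ := exists_formal p r hq n A F0 hF0 z1 z2 h1 h2 hz1 hz2 U hU
  let D : FD A :=
    { Wa := Wa
      Wb := Wb
      ηa := ηa
      ηb := ηb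
      νa := νa
      νb := νb
      S := S
      y := y
      θa := θa
      θb := θb
      hS := hS
      acta := acta
      actb := actb
      fixa := fun γ b => acta.pt (fun γ => by rw [← e1, hz1]) γ b
      fixb := fun γ b => actb.pt (fun γ => by rw [← e2, hz2]) γ b
      same := same
      hy := hy
      hyc := hyc
      hθa := hθa
      vana := vana
      vanb := vanb
      loc := loc }
  have hsm : Smooth π := SmoothOfRelativeDimension.smooth n π
  have hft : LocallyOfFiniteType π := inferInstance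
  have := chart_ft Wa
  have := chart_ft Wb
  have : Algebra.FiniteType k D.Wa.B := chart_ft Wa
  have : Algebra.FiniteType k D.Wb.B := chart_ft Wb
  have h3 := D.same_pt p r hq1 hq (hiso_of A Wa ηa acta νa (by
    intro μ hμ
    apply Wa.map_injective
    rw [← e1]
    refine hiso _ ?_ hμ
    refine Set.Subset.trans ?_ hWU
    rintro _ ⟨x, rfl⟩
    exact ⟨Spec.map (CommRingCat.ofHom μ.toRingHom) x, rfl⟩))
  rw [e1, e2]
  exact h3

end Run7.h99
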