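import Pool.Agent.Run7.h99.StChart
import Pool.Agent.H19VF.J2a_Sections

/-! # Chart data of a curve through two fixed points -/

set_option autoImplicit false

open AlgebraicGeometry CategoryTheory Polynomial Pool.Agent.H19VF

universe u

namespace Run7.h99

variable {F : Type} [AddCommGroup F] {k : Type u} [Field k] {V : Scheme.{u}}
  {π : V ⟶ Spec (.of k)}

theorem residue_isLocalHom (s : Option k) (ρ : regAt s →ₐ[k] k)
    (h2 : ∀ g : regAt s, ρ g = 0 ↔ Van s 1 (g : RatFunc k)) : IsLocalHom ρ.toRingHom := by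
  refine ⟨fun g hg => ?_⟩
  have hg' : ρ g ≠ 0 := hg.ne_zero
  have h3 : ¬ Van s 1 (g : RatFunc k) := fun h => hg' ((h2 g).2 h)
  have h4 := regAt_inv g.2 h3
  have h5 : (g : RatFunc k) ≠ 0 := by
    intro h0
    apply hg'
    have : g = 0 := Subtype.ext h0
    rw [this, map_zero]
  exact IsUnit.of_mul_eq_one (⟨_, h4⟩ : regAt s) (Subtype.ext (mul_inv_cancel₀ h5))

theorem J_gen_val {s : Option k} (hs : s = none ∨ s = some 0) : (J_gen s : RatFunc k) = unif s := by
  rcases hs with rfl | rfl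
  · rfl
  · change polR X = polR (X - C 0)
    rw [C_0, sub_zero]

/-- Points of the curve `f ∘ (y ↦ y ^ N)` at the points `0` and `∞`. -/
theorem pow_van {s : Option k} (hs : s = none ∨ s = some 0) (F0 : Crv π k) (N : ℕ) (hN : 1 ≤ N)
    (W : Chart π) (φ : W.B →ₐ[k] regAt s) (ν : W.B →ₐ[k] k)
    (h1 : J_pt (F0.pow N) s = W.pt.map φ) (h2 : (F0.pow N).at s = W.pt.map ν) (b : W.B) :
    Van s N ((φ b : RatFunc k) - polR (C (ν b))) := by
  set Q := regAt s ⧸ Ideal.span {J_gen s ^ N} with hQ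
  let quo : regAt s →ₐ[k] Q := Ideal.Quotient.mkₐ k _
  have hquo : quo (J_gen s ^ N) = 0 :=
    Ideal.Quotient.eq_zero_iff_mem.2 (Ideal.mem_span_singleton_self _)
  have hpar : J_par s X = J_gen s := Polynomial.aeval_X _
  have key : (J_pt (F0.pow N) s).map quo = ((F0.pow N).at s).map (Algebra.ofId k Q) := by
    have e : quo.comp ((J_par s).comp (powX k k N)) =
        (Algebra.ofId k Q).comp ((evk 0).comp (powX k k N)) := by
      apply Polynomial.algHom_ext
      have e1 : powX k k N X = X ^ N := Polynomial.aeval_X _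
      have e2 : evk (k := k) (R := k) 0 X = algebraMap k k 0 := Polynomial.aeval_X _
      have e3 : J_par s (X ^ N) = J_gen s ^ N := by rw [map_pow, hpar]
      have e4 : evk (k := k) (R := k) 0 (X ^ N) = 0 := by
        rw [map_pow, e2, map_zero, zero_pow (by omega)]
      rw [AlgHom.comp_apply, AlgHom.comp_apply, AlgHom.comp_apply, AlgHom.comp_apply, e1,
        e3, hquo, e4, map_zero]
    rcases hs with rfl | rfl
    · change ((F0.w.map (powX k k N)).map (J_par none)).map quo =
        ((F0.w.map (powX k k N)).map (evk 0)).map (Algebra.ofId k Q)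
      simp only [Pt.map_map]
      rw [← e]
    · change ((F0.y.map (powX k k N)).map (J_par (some 0))).map quo =
        ((F0.y.map (powX k k N)).map (evk 0)).map (Algebra.ofId k Q)
      simp only [Pt.map_map]
      rw [← e]
  rw [h1, h2, Pt.map_map, Pt.map_map] at key
  have h3 := congrArg (fun e => e b) (W.map_injective key)
  change quo (φ b) = algebraMap k Q (ν b) at h3
  have h4 : quo (φ b - algebraMap k (regAt s) (ν b)) = 0 := by
    rw [map_sub, AlgHom.commutes, h3, sub_self]
  rw [Ideal.Quotient.mkₐ_eq_mk, Ideal.Quotient.eq_zero_iff_mem,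
    Ideal.mem_span_singleton] at h4
  obtain ⟨g, hg⟩ := h4
  have h5 := congrArg (fun x : regAt s => (x : RatFunc k)) hg
  simp only [Subring.coe_mul, AddSubgroupClass.coe_sub, SubmonoidClass.coe_pow, J_gen_val hs,
    J_alg_apply] at h5
  rw [h5, ← zpow_natCast, mul_comm]
  exact Dvan_mul_reg (Dvan_pow s N) g.2

/-- Chart data of a curve through two fixed points, with stable charts at these two points. -/
theorem exists_data [IsAlgClosed k] {n : ℕ} [Finite F] [SmoothOfRelativeDimension n π]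
    [IsSeparated π] (A : Act F π) (F0 : Crv π k) (N : ℕ) (hN : 1 ≤ N) (z1 z2 : Pt π k)
    (h1 : F0.at none = z1) (h2 : F0.at (some 0) = z2) (hz1 : ∀ γ, A.pt γ z1 = z1)
    (hz2 : ∀ γ, A.pt γ z2 = z2) (U : V.Opens) (hU : Set.range z1.1 ⊆ U) :
    ∃ (D : LocData π n k) (η : ∀ s, F → (D.W s).B →ₐ[k] (D.W s).B)
      (ν : ∀ s, (D.W s).B →ₐ[k] k) (ε : (D.W none).B →ₐ[k] D.W1.B),
      D.Of (F0.pow N) ∧ (0 : k) ∈ D.S ∧ D.W1.pt = (D.W none).pt.map ε ∧
      Set.range (D.W none).pt.1 ⊆ U ∧ z1 = (D.W none).pt.map (ν none) ∧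
      z2 = (D.W (some 0)).pt.map (ν (some 0)) ∧
      (∀ s, (s = none ∨ s = some 0) → (∀ γ, A.pt γ (D.W s).pt = (D.W s).pt.map (η s γ)) ∧
        (∀ j, ν s ((D.W s).z j) = 0) ∧ ∀ b, Van s N (D.f s b - polR (C (ν s b)))) ∧
      (∀ s, ¬(s = none ∨ s = some 0) → ∀ γ b, η s γ b = b) := by
  have hsm : Smooth π := SmoothOfRelativeDimension.smooth n π
  have hlft : LocallyOfFiniteType π := inferInstance
  have hat0 : (F0.pow N).at none = z1 := by rw [Crv.pow_at_none F0 N hN, h1]
  have hat1 : (F0.pow N).at (some 0) = z2 := by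
    rw [Crv.pow_at_some, zero_pow (by omega), h2]
  have hloc : ∀ s : Option k, ∃ (W : EChart π n) (φ : W.B →ₐ[k] regAt s) (ν : W.B →ₐ[k] k)
      (η : F → W.B →ₐ[k] W.B),
      J_pt (F0.pow N) s = W.pt.map φ ∧ (F0.pow N).at s = W.pt.map ν ∧
        (∀ b, Van s 1 ((φ b : RatFunc k) - polR (C (ν b)))) ∧ (∀ j, ν (W.z j) = 0) ∧
        ((s = none ∨ s = some 0) → ∀ γ, A.pt γ W.pt = W.pt.map (η γ)) ∧
        (¬(s = none ∨ s = some 0) → ∀ γ b, η γ b = b) ∧
        (s = none → Set.range W.pt.1 ⊆ U) := by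
    intro s
    have := J_isLocal s
    obtain ⟨ρ, hρ⟩ := J_exists_residue s
    have hvan : ∀ (W : EChart π n) (φ : W.B →ₐ[k] regAt s) (b : W.B),
        Van s 1 ((φ b : RatFunc k) - polR (C (ρ (φ b)))) := by
      intro W φ b
      have h3 := (hρ (φ b - algebraMap k (regAt s) (ρ (φ b)))).1 (by
        rw [map_sub, AlgHom.commutes]
        exact sub_self _)
      exact h3
    by_cases hs : s = none ∨ s = some 0
    · have hfix : ∀ γ, A.pt γ ((F0.pow N).at s) = (F0.pow N).at s := by
        rcases hs with rfl | rfl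
        · rw [hat0]; exact hz1
        · rw [hat1]; exact hz2
      obtain ⟨U', hU', hU''⟩ : ∃ U' : V.Opens, Set.range ((F0.pow N).at s).1 ⊆ U' ∧
          (s = none → U' ≤ U) := by
        rcases hs with rfl | rfl
        · refine ⟨U, ?_, fun _ => le_rfl⟩
          rw [hat0]
          exact hU
        · exact ⟨⊤, fun _ _ => trivial, fun h => by simp at h⟩
      obtain ⟨W, η, ν, g1, g2, g3, g4⟩ := exists_stable (n := n) A ((F0.pow N).at s) hfix U' hU'
      obtain ⟨φ, g5, g6⟩ := W.toChart.factor_local ρ (residue_isLocalHom s ρ hρ)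
        (J_pt (F0.pow N) s) ν (by rw [J_pt_res _ s ρ hρ, g2])
      refine ⟨W, φ, ν, η, g5, g2, ?_, g4, fun _ => g3, fun h => absurd hs h,
        fun h v hv => hU'' h (g1 hv)⟩
      intro b
      rw [← g6]
      exact hvan W φ b
    · obtain ⟨W, φ, hφ⟩ := exists_echart n (J_pt (F0.pow N) s)
      refine ⟨J_cent W (fun j => ρ (φ (W.z j))), φ, ρ.comp φ, fun _ => AlgHom.id k _, hφ, ?_, ?_, ?_,
        fun h => absurd h hs, fun _ _ _ => rfl, fun h => absurd (Or.inl h) hs⟩
      · rw [← J_pt_res (F0.pow N) s ρ hρ, hφ, Pt.map_map]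
        rfl
      · intro b
        exact hvan W φ b
      · intro j
        change ρ (φ (W.z j - algebraMap k W.B (ρ (φ (W.z j))))) = 0
        rw [map_sub, map_sub, AlgHom.commutes, AlgHom.commutes]
        exact sub_self _
  choose W φ ν η hφ hν hvan hz hη hη' hWU using hloc
  have hFT := (W none).toChart.finiteType
  have hf1 : (F0.pow N).y.map (ratY k) = (W none).pt.map ((J_sub none).comp (φ none)) := by
    rw [← J_pt_sub (F0.pow N) none, hφ none, Pt.map_map]
  obtain ⟨S, hS, hf1'⟩ := J_exists_chart (F0.pow N) {0} (W none).toChart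
    ((J_sub none).comp (φ none)) hf1
  refine ⟨{ S := S, W1 := W none, f1 := (J_sub none).comp (φ none), hf1 := hf1', W := W,
            f := fun s => (J_sub s).comp (φ s),
            hf := fun s _ b => (φ s b).2, same := fun s _ => ?_ }, η, ν, AlgHom.id k _, ?_, ?_, ?_,
            ?_, ?_, ?_, ?_, ?_⟩
  · rw [← hf1, ← J_pt_sub (F0.pow N) s, hφ s, Pt.map_map]
  · refine ⟨hf1, ?_, ?_⟩
    · rw [← J_glue]
      exact hf1
    · intro s _
      exact ⟨ν s, hν s, hvan s, hz s⟩
  · exact hS (Finset.mem_singleton_self 0)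
  · rw [Pt.map_id]
  · exact hWU none rfl
  · rw [← hat0]
    exact hν none
  · rw [← hat1]
    exact hν (some 0)
  · intro s hs
    refine ⟨hη s hs, hz s, fun b => ?_⟩
    exact pow_van hs F0 N hN (W s).toChart (φ s) (ν s) (hφ s) (hν s) b
  · intro s hs
    exact hη' s hs

end Run7.h99
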