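import Pool.Agent.Run7.h99.PathB

/-! # Large and small radii -/

set_option autoImplicit false

open Polynomial

namespace Run7.h99

section large

variable {K : Type*} [Field K] {Γ : Type*} [LinearOrderedCommGroupWithZero Γ] (v : Valuation K Γ)

theorem exists_bound {ι : Type*} (s : Finset ι) (Q : ι → Γ → Prop)
    (h : ∀ i ∈ s, ∃ c : Γ, ∀ ρ, c < ρ → Q i ρ) : ∃ c : Γ, ∀ ρ, c < ρ → ∀ i ∈ s, Q i ρ := by
  classical
  induction s using Finset.induction_on with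
  | empty => exact ⟨0, fun _ _ i hi => absurd hi (Finset.notMem_empty i)⟩
  | insert a s ha ih =>
    obtain ⟨c, hc⟩ := ih fun i hi => h i (Finset.mem_insert_of_mem hi)
    obtain ⟨d, hd⟩ := h a (Finset.mem_insert_self a s)
    refine ⟨max c d, fun ρ hρ i hi => ?_⟩
    rcases Finset.mem_insert.1 hi with rfl | hi
    · exact hd ρ ((le_max_right _ _).trans_lt hρ)
    · exact hc ρ ((le_max_left _ _).trans_lt hρ) i hi

theorem gn_large {F G : K[X]} (h : F.natDegree < G.natDegree) :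
    ∃ c : Γ, ∀ ρ, c < ρ → gn v ρ F < gn v ρ G := by
  have hG : G ≠ 0 := by
    rintro rfl
    rw [natDegree_zero] at h
    omega
  have hb : 0 < v G.leadingCoeff := by
    rw [zero_lt_iff, Ne, map_eq_zero, leadingCoeff_eq_zero]
    exact hG
  refine ⟨max 1 (gn v 1 F / v G.leadingCoeff), fun ρ hρ => ?_⟩
  have h1 : 1 < ρ := (le_max_left _ _).trans_lt hρ
  have h2 : gn v 1 F < ρ * v G.leadingCoeff := by
    rw [← div_lt_iff₀ hb]
    exact (le_max_right _ _).trans_lt hρ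
  have h0 : 0 < ρ := zero_lt_one.trans h1
  have hG' : v G.leadingCoeff * ρ ^ G.natDegree ≤ gn v ρ G := le_gn v ρ G G.natDegree
  refine lt_of_lt_of_le ?_ hG'
  apply gn_lt
  · exact mul_pos hb (pow_pos h0 _)
  · intro n
    by_cases hn : n ≤ F.natDegree
    · have h3 : v (F.coeff n) ≤ gn v 1 F := by
        have := le_gn v 1 F n
        rwa [one_pow, mul_one] at this
      obtain ⟨d, hd⟩ := Nat.exists_eq_add_of_lt (lt_of_le_of_lt hn h)
      calc v (F.coeff n) * ρ ^ n ≤ gn v 1 F * ρ ^ n := mul_le_mul_left h3 _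
        _ ≤ gn v 1 F * ρ ^ (n + d) :=
            mul_le_mul_right (pow_le_pow_right₀ h1.le (Nat.le_add_right _ _)) _
        _ < (ρ * v G.leadingCoeff) * ρ ^ (n + d) := mul_lt_mul_of_pos_right h2 (pow_pos h0 _)
        _ = v G.leadingCoeff * ρ ^ G.natDegree := by
            rw [hd, pow_succ, mul_comm ρ, mul_assoc, mul_comm ρ]
    · rw [coeff_eq_zero_of_natDegree_lt (by omega), map_zero, zero_mul]
      exact mul_pos hb (pow_pos h0 _)

theorem gn_small {F G : K[X]} {m : ℕ} (hF : X ^ (m + 1) ∣ F) (hG : G.coeff m ≠ 0) :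
    ∃ c : Γ, ∀ ρ, c < ρ → gn v ρ⁻¹ F < gn v ρ⁻¹ G := by
  have hb : 0 < v (G.coeff m) := by
    rw [zero_lt_iff, Ne, map_eq_zero]
    exact hG
  refine ⟨max 1 (gn v 1 F / v (G.coeff m)), fun ρ hρ => ?_⟩
  have h1 : 1 < ρ := (le_max_left _ _).trans_lt hρ
  have h2 : gn v 1 F < ρ * v (G.coeff m) := by
    rw [← div_lt_iff₀ hb]
    exact (le_max_right _ _).trans_lt hρ
  have h0 : 0 < ρ := zero_lt_one.trans h1
  have h0' : 0 < ρ⁻¹ := inv_pos_of_pos h0
  have h1' : ρ⁻¹ ≤ 1 := (inv_le_one₀ h0).2 h1.le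
  refine lt_of_lt_of_le ?_ (le_gn v ρ⁻¹ G m)
  apply gn_lt
  · exact mul_pos hb (pow_pos h0' _)
  · intro n
    by_cases hn : n < m + 1
    · rw [X_pow_dvd_iff.1 hF n hn, map_zero, zero_mul]
      exact mul_pos hb (pow_pos h0' _)
    · have h3 : v (F.coeff n) ≤ gn v 1 F := by
        have := le_gn v 1 F n
        rwa [one_pow, mul_one] at this
      calc v (F.coeff n) * ρ⁻¹ ^ n ≤ gn v 1 F * ρ⁻¹ ^ n := mul_le_mul_left h3 _
        _ ≤ gn v 1 F * ρ⁻¹ ^ (m + 1) :=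
            mul_le_mul_right (pow_le_pow_of_le_one zero_le h1' (by omega)) _
        _ < (ρ * v (G.coeff m)) * ρ⁻¹ ^ (m + 1) := mul_lt_mul_of_pos_right h2 (pow_pos h0' _)
        _ = v (G.coeff m) * ρ⁻¹ ^ m := by
            rw [pow_succ, mul_comm ρ, mul_assoc, mul_comm (ρ⁻¹ ^ m), ← mul_assoc ρ,
              mul_inv_cancel₀ h0.ne', one_mul]

end large

section wr

variable {K : Type*} [Field K] (p : ℕ) [hp : Fact p.Prime] [CharP K p]
  (r : ℕ) (hq : 1 < p ^ r)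
  {Γ : Type*} [LinearOrderedCommGroupWithZero Γ] (v : Valuation K Γ) {t : K} (ht : t ≠ 0)

theorem gr_mul_mu' {q : ℕ} (hq : 0 < q) {ρ : Γ} (hρ : ρ ≠ 0) (hc : ρ ^ q ≠ 0) (F G : K[X])
    (i : ℕ) : gr v hc (algebraMap _ _ F / algebraMap _ _ G) * mu v t q ρ ^ i =
      gn v ρ (expand K q F * (C t * (X ^ q + 1)) ^ i) /
        gn v ρ (expand K q G * (X ^ (q - 1)) ^ i) := by
  have h1 : gv v hρ (expand K q F * (C t * (X ^ q + 1)) ^ i) =
      gn v (ρ ^ q) F * (v t * max (ρ ^ q) 1) ^ i := by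
    rw [map_mul, map_pow, map_mul, gv_apply, gv_apply, gv_apply, gn_expand v q hq, gn_C,
      gn_X_pow_add_one v q hq]
  have h2 : gv v hρ (expand K q G * (X ^ (q - 1)) ^ i) =
      gn v (ρ ^ q) G * (ρ ^ (q - 1)) ^ i := by
    rw [map_mul, map_pow, map_pow, gv_apply, gv_apply, gn_expand v q hq, gn_X]
  rw [← gv_apply v hρ, ← gv_apply v hρ, h1, h2]
  unfold mu
  rw [map_div₀, gr_pol, gr_pol, div_pow, div_mul_div_comm]

include ht in
theorem wr_large {P : (RatFunc K)[X]} (hP : P.natDegree < p ^ r)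
    (h : ∀ i, ∃ F G : K[X], G ≠ 0 ∧ P.coeff i = algebraMap _ _ F / algebraMap _ _ G ∧
      (F = 0 ∨ F.natDegree < G.natDegree)) :
    ∃ c : Γ, ∀ (ρ : Γ) (hρ : ρ ≠ 0), c < ρ →
      wr p r hq v hρ (AdjoinRoot.mk (asP (p ^ r) (AR (p ^ r) t)) P) < 1 := by
  have hq0 : 0 < p ^ r := by omega
  have key : ∀ i ∈ Finset.range (p ^ r), ∃ c : Γ, ∀ ρ, c < ρ → ∀ hρ : ρ ≠ 0,
      gr v (pow_ne_zero (p ^ r) hρ) (P.coeff i) * mu v t (p ^ r) ρ ^ i < 1 := by
    intro i hi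
    rw [Finset.mem_range] at hi
    obtain ⟨F, G, hG, e, h1⟩ := h i
    by_cases hF0 : F = 0
    · refine ⟨0, fun ρ _ hρ => ?_⟩
      rw [e, hF0, map_zero, zero_div, map_zero, zero_mul]
      exact zero_lt_one
    have hlt := h1.resolve_left hF0
    have hX1 : (X ^ (p ^ r) + 1 : K[X]) ≠ 0 := by
      intro h
      have := congrArg natDegree h
      rw [← C_1, natDegree_X_pow_add_C, natDegree_zero] at this
      omega
    have hCX : C t * (X ^ (p ^ r) + 1) ≠ 0 := mul_ne_zero (C_ne_zero.2 ht) hX1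
    have hdeg : (C t * (X ^ (p ^ r) + 1)).natDegree = p ^ r := by
      rw [natDegree_C_mul ht, ← C_1, natDegree_X_pow_add_C]
    have hG' : expand K (p ^ r) G ≠ 0 := (expand_ne_zero hq0).2 hG
    have hF' : expand K (p ^ r) F ≠ 0 := (expand_ne_zero hq0).2 hF0
    have hdeg2 : (expand K (p ^ r) F * (C t * (X ^ (p ^ r) + 1)) ^ i).natDegree <
        (expand K (p ^ r) G * (X ^ (p ^ r - 1)) ^ i).natDegree := by
      rw [natDegree_mul hF' (pow_ne_zero _ hCX), natDegree_pow, hdeg, natDegree_expand,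
        natDegree_mul hG' (pow_ne_zero _ (pow_ne_zero _ X_ne_zero)), natDegree_pow,
        natDegree_X_pow, natDegree_expand]
      have e2 : i * p ^ r = i * (p ^ r - 1) + i := by
        conv_lhs => rw [← Nat.sub_add_cancel (Nat.one_le_of_lt hq), Nat.mul_add, Nat.mul_one]
      have e3 : F.natDegree * p ^ r + p ^ r ≤ G.natDegree * p ^ r := by
        calc _ = (F.natDegree + 1) * p ^ r := by ring
          _ ≤ _ := Nat.mul_le_mul_right _ hlt
      omega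
    obtain ⟨c, hc⟩ := gn_large v hdeg2
    refine ⟨c, fun ρ hρ hρ0 => ?_⟩
    rw [e, gr_mul_mu' v hq0 hρ0, div_lt_one₀]
    · exact hc ρ hρ
    · refine zero_lt_iff.2 (gn_ne_zero v hρ0 ?_)
      exact mul_ne_zero hG' (pow_ne_zero _ (pow_ne_zero _ X_ne_zero))
  obtain ⟨c, hc⟩ := exists_bound _ _ key
  exact ⟨c, fun ρ hρ0 hρ => (wr_lt_one_iff p r hq v hρ0 hP).2 fun i hi => hc ρ hρ i hi hρ0⟩

theorem wr_small {P : (RatFunc K)[X]} (hP : P.natDegree < p ^ r)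
    (h : ∀ i, ∃ (F G : K[X]) (m : ℕ), G.coeff m ≠ 0 ∧
      P.coeff i = algebraMap _ _ F / algebraMap _ _ G ∧ X ^ (m + p ^ r) ∣ F) :
    ∃ c : Γ, ∀ (ρ : Γ) (hρ : ρ⁻¹ ≠ 0), c < ρ →
      wr p r hq v hρ (AdjoinRoot.mk (asP (p ^ r) (AR (p ^ r) t)) P) < 1 := by
  have hq0 : 0 < p ^ r := by omega
  have key : ∀ i ∈ Finset.range (p ^ r), ∃ c : Γ, ∀ ρ, c < ρ → ∀ hρ : ρ⁻¹ ≠ 0,
      gr v (pow_ne_zero (p ^ r) hρ) (P.coeff i) * mu v t (p ^ r) ρ⁻¹ ^ i < 1 := by
    intro i hi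
    rw [Finset.mem_range] at hi
    obtain ⟨F, G, m, hG, e, h1⟩ := h i
    have hG0 : G ≠ 0 := by
      rintro rfl
      exact hG (coeff_zero m)
    have hG' : expand K (p ^ r) G ≠ 0 := (expand_ne_zero hq0).2 hG0
    have hF1 : X ^ (p ^ r * m + (p ^ r - 1) * i + 1) ∣
        expand K (p ^ r) F * (C t * (X ^ (p ^ r) + 1)) ^ i := by
      apply Dvd.dvd.mul_right
      have h2 : X ^ (p ^ r * (m + p ^ r)) ∣ expand K (p ^ r) F := by
        have := map_dvd (expand K (p ^ r)) h1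
        rwa [map_pow, expand_X, ← pow_mul] at this
      refine (pow_dvd_pow X ?_).trans h2
      have e4 : (p ^ r - 1) * i + 1 ≤ p ^ r * p ^ r := by
        have : (p ^ r - 1) * i ≤ (p ^ r - 1) * p ^ r := Nat.mul_le_mul_left _ hi.le
        have e5 : p ^ r * p ^ r = (p ^ r - 1) * p ^ r + p ^ r := by
          conv_lhs => rw [← Nat.sub_add_cancel (Nat.one_le_of_lt hq), Nat.add_mul, Nat.one_mul]
          rw [Nat.sub_add_cancel (Nat.one_le_of_lt hq)]
        omega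
      rw [Nat.mul_add]
      omega
    have hG1 : (expand K (p ^ r) G * (X ^ (p ^ r - 1)) ^ i).coeff
        (p ^ r * m + (p ^ r - 1) * i) ≠ 0 := by
      rw [← pow_mul, coeff_mul_X_pow, coeff_expand hq0, if_pos (dvd_mul_right _ _),
        Nat.mul_div_cancel_left _ hq0]
      exact hG
    obtain ⟨c, hc⟩ := gn_small v hF1 hG1
    refine ⟨c, fun ρ hρ hρ0 => ?_⟩
    rw [e, gr_mul_mu' v hq0 hρ0, div_lt_one₀]
    · exact hc ρ hρ
    · refine zero_lt_iff.2 (gn_ne_zero v hρ0 ?_)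
      exact mul_ne_zero hG' (pow_ne_zero _ (pow_ne_zero _ X_ne_zero))
  obtain ⟨c, hc⟩ := exists_bound _ _ key
  exact ⟨c, fun ρ hρ0 hρ => (wr_lt_one_iff p r hq v hρ0 hP).2 fun i hi => hc ρ hρ i hi hρ0⟩

end wr

end Run7.h99
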