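import Mathlib

/-! # Existence of a valuation -/

set_option autoImplicit false

open Polynomial

universe u

namespace Run7.h99

theorem mem_range_of_isIntegral {k K : Type*} [Field k] [IsAlgClosed k] [Field K] [Algebra k K]
    {x : K} (hx : IsIntegral k x) : x ∈ (algebraMap k K).range := by
  have h1 : (minpoly k x).degree = 1 :=
    IsAlgClosed.degree_eq_one_of_irreducible k (minpoly.irreducible hx)
  exact minpoly.mem_range_of_degree_eq_one k x h1

theorem exists_val {k K : Type*} [Field k] [IsAlgClosed k] [Field K] [Algebra k K] {t : K}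
    (ht : t ∉ (algebraMap k K).range) : ∃ V : ValuationSubring K,
      (∀ a : k, V.valuation (algebraMap k K a) ≤ 1) ∧ 1 < V.valuation t := by
  let R : Subring K := (algebraMap k K).range
  have hR : IsIntegrallyClosedIn R K := by
    rw [Subring.isIntegrallyClosedIn_iff]
    intro x hx
    apply mem_range_of_isIntegral
    let _ : Algebra k R := (algebraMap k K).rangeRestrict.toAlgebra
    have : IsScalarTower k R K := IsScalarTower.of_algebraMap_eq fun _ => rfl
    have : Algebra.IsIntegral k R :=
      Algebra.isIntegral_of_surjective (algebraMap k K).rangeRestrict_surjective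
    exact isIntegral_trans x hx
  obtain ⟨V, h1, h2⟩ := Subring.exists_le_valuationSubring_of_isIntegrallyClosedIn (R := R) ht
  refine ⟨V, fun a => ?_, ?_⟩
  · rw [ValuationSubring.valuation_le_one_iff]
    exact h1 ⟨a, rfl⟩
  · rw [← not_le, ValuationSubring.valuation_le_one_iff]
    exact h2

theorem val_div {K : Type*} [Field K] [IsAlgClosed K] (V : ValuationSubring K)
    (x : V.ValueGroup) (n : ℕ) (hn : 0 < n) : ∃ y, y ^ n = x := by
  obtain ⟨a, rfl⟩ := V.valuation_surjective x
  obtain ⟨b, hb⟩ := IsAlgClosed.exists_pow_nat_eq a hn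
  exact ⟨V.valuation b, by rw [← map_pow, hb]⟩

end Run7.h99
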