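import Pool.Agent.Run7.h99.LiftK2
import Pool.Agent.Run7.h99.Large
import Pool.Agent.Run7.h99.Val

/-! # The final contradiction -/

set_option autoImplicit false

open AlgebraicGeometry CategoryTheory Polynomial Pool.Agent.H19VF

universe u

namespace Run7.h99

section bc

variable {K K' : Type u} [Field K] [Field K'] [Algebra K K']

theorem rbase_AR (q : ℕ) (t : K) : rbase K K' (AR q t) = AR q (algebraMap K K' t) := by
  have hX : rbase K K' RatFunc.X = RatFunc.X := by
    have := rbase_polR (k := K) (κ := K') X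
    rw [Polynomial.map_X] at this
    change rbase K K' (algebraMap K[X] (RatFunc K) X) = algebraMap K'[X] (RatFunc K') X at this
    rwa [RatFunc.algebraMap_X, RatFunc.algebraMap_X] at this
  have hC : rbase K K' (RatFunc.C t) = RatFunc.C (algebraMap K K' t) := by
    have := rbase_polR (k := K) (κ := K') (C t)
    rw [Polynomial.map_C] at this
    change rbase K K' (algebraMap K[X] (RatFunc K) (C t)) =
      algebraMap K'[X] (RatFunc K') (C (algebraMap K K' t)) at this
    rwa [RatFunc.algebraMap_C, RatFunc.algebraMap_C] at this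
  unfold AR eR
  rw [map_mul, map_pow, map_div₀, map_mul, map_add, map_one, hX, hC]

theorem bc_root (q : ℕ) (t : K) : eval₂ ((AdjoinRoot.of (asP q (AR q (algebraMap K K' t)))).comp
    (rbase K K').toRingHom) (AdjoinRoot.root _) (asP q (AR q t)) = 0 := by
  have h := as_root q (AR q (algebraMap K K' t))
  unfold asP at h ⊢
  rw [eval₂_sub, eval₂_pow, eval₂_add, eval₂_X, eval₂_C]
  have e : (AdjoinRoot.of (X ^ q - (X + C (AR q (algebraMap K K' t))))).comp
    (rbase K K').toRingHom (AR q t) = algebraMap (RatFunc K') _ (AR q (algebraMap K K' t)) := by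
    rw [RingHom.comp_apply]
    change AdjoinRoot.of _ (rbase K K' (AR q t)) = _
    rw [rbase_AR]
    rfl
  rw [e, h, sub_self]

variable {k : Type u} [Field k] [Algebra k K] [Algebra k K'] [IsScalarTower k K K']

/-- Extension of the field of constants of the Artin-Schreier algebra. -/
noncomputable def bc (k : Type u) [Field k] [Algebra k K] [Algebra k K'] [IsScalarTower k K K']
    (q : ℕ) (t : K) : AdjoinRoot (asP q (AR q t)) →ₐ[k]
      AdjoinRoot (asP q (AR q (algebraMap K K' t))) :=
  AlgHom.mk (AdjoinRoot.lift ((AdjoinRoot.of (asP q (AR q (algebraMap K K' t)))).comp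
    (rbase K K').toRingHom) (AdjoinRoot.root _) (bc_root q t)) (by
    intro a
    have h : algebraMap k (AdjoinRoot (asP q (AR q t))) a =
        AdjoinRoot.of _ (algebraMap k (RatFunc K) a) := rfl
    rw [h]
    change AdjoinRoot.lift _ _ _ _ = _
    rw [AdjoinRoot.lift_of, RingHom.comp_apply]
    have h2 : (rbase K K').toRingHom (algebraMap k (RatFunc K) a) =
        algebraMap k (RatFunc K') a := by
      change rbase K K' (algebraMap k (RatFunc K) a) = _
      rw [IsScalarTower.algebraMap_apply k K (RatFunc K), AlgHom.commutes,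
        IsScalarTower.algebraMap_apply k K' (RatFunc K'), IsScalarTower.algebraMap_apply k K K',
        IsScalarTower.algebraMap_apply K K' (RatFunc K')]
    rw [h2]
    rfl)

theorem bc_mk (q : ℕ) (t : K) (P : (RatFunc K)[X]) : bc (K' := K') k q t (AdjoinRoot.mk _ P) =
    AdjoinRoot.mk _ (P.map (rbase K K').toRingHom) := by
  refine (AdjoinRoot.lift_mk (bc_root q t) P).trans ?_
  have h := Polynomial.eval₂_map (p := P) (rbase K K').toRingHom
    (AdjoinRoot.of (asP q (AR q (algebraMap K K' t)))) (AdjoinRoot.root _)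
  rw [← h]
  exact (AdjoinRoot.aeval_eq (P.map (rbase K K').toRingHom))

theorem bc_asTr (p : ℕ) [hp : Fact p.Prime] [CharP K p] [CharP K' p] (r : ℕ) (t : K)
    (γ : RatFunc K) (hγ : γ ^ p ^ r = γ) (hγ' : rbase K K' γ ^ p ^ r = rbase K K' γ)
    (g : AdjoinRoot (asP (p ^ r) (AR (p ^ r) t))) :
    bc (K' := K') k (p ^ r) t (asTr p r _ γ hγ g) =
      asTr p r _ (rbase K K' γ) hγ' (bc (K' := K') k (p ^ r) t g) := by
  obtain ⟨P, rfl⟩ := AdjoinRoot.mk_surjective g
  rw [asTr_mk, bc_mk, bc_mk, asTr_mk, Polynomial.map_comp, Polynomial.map_add, Polynomial.map_X,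
    Polynomial.map_C]
  rfl

end bc

section valring

/-- A function behaving like a norm bounded by one on constants. -/
structure NW (k : Type*) {D Γ : Type*} [Field k] [CommRing D] [Algebra k D]
    [LinearOrderedCommGroupWithZero Γ] (w : D → Γ) : Prop where
  add : ∀ a b, w (a + b) ≤ max (w a) (w b)
  mul : ∀ a b, w (a * b) ≤ w a * w b
  const : ∀ a : k, w (algebraMap k D a) ≤ 1
  zero : w 0 = 0
  one : w 1 = 1

variable {k : Type u} [Field k] {D : Type u} [CommRing D] [Algebra k D] {Γ : Type*}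
  [LinearOrderedCommGroupWithZero Γ] {w : D → Γ} (h : NW k w)

/-- The elements of norm at most one. -/
def NW.O : Subalgebra k D where
  carrier := {g | w g ≤ 1}
  mul_mem' := fun {a b} ha hb => (h.mul a b).trans (mul_le_one' ha hb)
  add_mem' := fun {a b} ha hb => (h.add a b).trans (max_le ha hb)
  algebraMap_mem' := h.const

/-- The elements of norm less than one. -/
def NW.I : Ideal h.O where
  carrier := {g | w g.1 < 1}
  add_mem' := fun {a b} ha hb => (h.add a b).trans_lt (max_lt ha hb)
  zero_mem' := by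
    change w 0 < 1
    rw [h.zero]
    exact zero_lt_one
  smul_mem' := fun a b hb => (h.mul a b).trans_lt ((mul_le_of_le_one_left' a.2).trans_lt hb)

theorem NW.I_ne_top : h.I ≠ ⊤ := by
  intro h0
  have h1 : (1 : h.O) ∈ h.I := by
    rw [h0]
    exact Submodule.mem_top
  have h2 : w 1 < 1 := h1
  rw [h.one] at h2
  exact h2.false

include h in
theorem NW.same [IsReduced D] {X : Scheme.{u}} {π : X ⟶ Spec (.of k)} [IsSeparated π]
    (Wa Wb : Chart π) (Θa : Wa.B →ₐ[k] D) (Θb : Wb.B →ₐ[k] D)
    (hs : Wa.pt.map Θa = Wb.pt.map Θb) (νa : Wa.B →ₐ[k] k) (νb : Wb.B →ₐ[k] k)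
    (ha : ∀ b, νa b = 0 → w (Θa b) < 1) (hb : ∀ b, νb b = 0 → w (Θb b) < 1) :
    Wa.pt.map νa = Wb.pt.map νb := by
  have key : ∀ (W : Chart π) (Θ : W.B →ₐ[k] D) (ν : W.B →ₐ[k] k)
      (_ : ∀ b, ν b = 0 → w (Θ b) < 1), ∃ Θ' : W.B →ₐ[k] h.O, h.O.val.comp Θ' = Θ ∧
        (Ideal.Quotient.mkₐ k h.I).comp Θ' = (Algebra.ofId k (h.O ⧸ h.I)).comp ν := by
    intro W Θ ν hν
    have h1 : ∀ b, w (Θ b - algebraMap k D (ν b)) < 1 := by
      intro b
      have := hν (b - algebraMap k W.B (ν b)) (by
        rw [map_sub, AlgHom.commutes, Algebra.algebraMap_self, RingHom.id_apply, sub_self])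
      rwa [map_sub, AlgHom.commutes] at this
    have h2 : ∀ b, Θ b ∈ h.O := by
      intro b
      have e : Θ b = (Θ b - algebraMap k D (ν b)) + algebraMap k D (ν b) := by ring
      rw [e]
      exact (h.add _ _).trans (max_le (h1 b).le (h.const _))
    refine ⟨Θ.codRestrict h.O h2, ?_, ?_⟩
    · ext b
      rfl
    · apply AlgHom.ext
      intro b
      change Ideal.Quotient.mk h.I (Θ.codRestrict h.O h2 b) = algebraMap k (h.O ⧸ h.I) (ν b)
      have e : algebraMap k (h.O ⧸ h.I) (ν b) =
        Ideal.Quotient.mk h.I (algebraMap k h.O (ν b)) := rfl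
      rw [e, Ideal.Quotient.eq]
      exact h1 b
  obtain ⟨Θa', ha1, ha2⟩ := key Wa Θa νa ha
  obtain ⟨Θb', hb1, hb2⟩ := key Wb Θb νb hb
  have hred : IsReduced h.O := isReduced_of_injective h.O.val Subtype.val_injective
  have h1 : Wa.pt.map Θa' = Wb.pt.map Θb' := by
    apply Pt.map_injective h.O.val Subtype.val_injective
    rw [Pt.map_map, Pt.map_map, ha1, hb1, hs]
  have hnt : Nontrivial (h.O ⧸ h.I) := Ideal.Quotient.nontrivial_iff.2 h.I_ne_top
  apply Pt.map_injective (Algebra.ofId k (h.O ⧸ h.I)) (algebraMap k (h.O ⧸ h.I)).injective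
  rw [Pt.map_map, Pt.map_map, ← ha2, ← hb2, ← Pt.map_map, ← Pt.map_map, h1]

end valring

end Run7.h99
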