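import Pool.Agent.Run7.h99.Final

/-! # The final contradiction, part 2 -/

set_option autoImplicit false

open AlgebraicGeometry CategoryTheory Polynomial Pool.Agent.H19VF

universe u

namespace Run7.h99

theorem exists_centred {k B : Type*} [Field k] [CommRing B] [Algebra k B] [Algebra.FiniteType k B]
    (ν : B →ₐ[k] k) :
    ∃ gen : Finset B, Algebra.adjoin k (gen : Set B) = ⊤ ∧ ∀ b ∈ gen, ν b = 0 := by
  classical
  obtain ⟨s, hs⟩ := Algebra.FiniteType.out (R := k) (A := B)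
  refine ⟨s.image fun b => b - algebraMap k B (ν b), ?_, ?_⟩
  · rw [eq_top_iff, ← hs]
    apply Algebra.adjoin_le
    intro b hb
    have h1 : b - algebraMap k B (ν b) ∈
        Algebra.adjoin k ((s.image fun b => b - algebraMap k B (ν b) : Finset B) : Set B) :=
      Algebra.subset_adjoin (Finset.mem_coe.2 (Finset.mem_image_of_mem _ hb))
    have h2 := Subalgebra.add_mem _ h1 (Subalgebra.algebraMap_mem _ (ν b))
    rwa [sub_add_cancel] at h2
  · intro b hb
    obtain ⟨c, _, rfl⟩ := Finset.mem_image.1 hb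
    rw [map_sub, AlgHom.commutes, Algebra.algebraMap_self_apply, sub_self]

section main

variable {F : Type} [Field F] [Fintype F] {k : Type u} [Field k] [Algebra F k]
    {V : Scheme.{u}} {π : V ⟶ Spec (.of k)} [IsSeparated π] {A : Act F π} (D : FD A)
    (p : ℕ) [hp : Fact p.Prime] [CharP k p] (r : ℕ) (hq1 : 1 < p ^ r)
    (hq : Fintype.card F = p ^ r)

variable {K' : Type u} [Field K'] [CharP K' p] [Algebra (LSer k) K'] [Algebra k K']
  [IsScalarTower k (LSer k) K'] {Γ : Type*} [LinearOrderedCommGroupWithZero Γ]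
  (v : Valuation K' Γ) (ht : 1 < v (algebraMap (LSer k) K' (LSer.T 1)))
  (hφ : ∀ a : k, v (algebraMap k K' a) ≤ 1)
  (hdiv : ∀ (x : Γ) (n : ℕ), 0 < n → ∃ y, y ^ n = x)

include hq1 ht in
theorem isReduced_wr {ρ : Γ} (hρ : ρ ≠ 0) : IsReduced
    (AdjoinRoot (asP (p ^ r) (AR (p ^ r) (algebraMap (LSer k) K' (LSer.T 1))))) := by
  refine ⟨fun g hg => ?_⟩
  obtain ⟨n, hn⟩ := hg
  obtain ⟨m, hm⟩ : ∃ m, n ≤ (p ^ r) ^ m := by
    obtain ⟨m, hm⟩ := pow_unbounded_of_one_lt n hq1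
    exact ⟨m, hm.le⟩
  have h1 : g ^ (p ^ r) ^ m = 0 := pow_eq_zero_of_le hm hn
  have h2 := wr_pow_pow p r hq1 v ht hρ g m
  rw [h1, wr_zero] at h2
  have h3 := eq_zero_of_pow_eq_zero h2.symm
  exact wn_eq_zero _ hq1 _ (one_lt_mu v _ _ ht hρ) h3

include ht hφ in
theorem nw_wr {ρ : Γ} (hρ : ρ ≠ 0) : NW k (wr p r hq1 v hρ :
    AdjoinRoot (asP (p ^ r) (AR (p ^ r) (algebraMap (LSer k) K' (LSer.T 1)))) → Γ) where
  add := wr_add p r hq1 v hρ
  mul := wr_mul p r hq1 v ht hρ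
  const := fun a => by
    rw [AdjoinRoot.algebraMap_eq', RingHom.comp_apply, ← AdjoinRoot.algebraMap_eq,
      IsScalarTower.algebraMap_apply k K' (RatFunc K')]
    exact (wr_const p r hq1 v ht hρ _).trans_le (hφ a)
  zero := wr_zero p r hq1 v hρ
  one := wn_one _ _ _

theorem rbase_alg_k (a : k) : rbase (LSer k) K' (algebraMap k (RatFunc (LSer k)) a) =
    RatFunc.C (algebraMap k K' a) := by
  rw [IsScalarTower.algebraMap_apply k (LSer k) (RatFunc (LSer k)), AlgHom.commutes,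
    IsScalarTower.algebraMap_apply (LSer k) K' (RatFunc K'),
    ← IsScalarTower.algebraMap_apply k (LSer k) K']
  rfl

include p r hq1 hq ht hφ hdiv in
theorem FD.same_of_val [Algebra.FiniteType k D.Wa.B] [Algebra.FiniteType k D.Wb.B]
    (hiso : ∀ b, D.νa b = 0 → ∃ n, b ^ n ∈ Ideal.span {x | ∃ i b', x = D.ηa i b' - b'}) :
    D.Wa.pt.map D.νa = D.Wb.pt.map D.νb := by
  obtain ⟨Θa, Θb, hs, ea, eb, va, vb⟩ := D.exists_pts p r hq1 hq
  obtain ⟨ga, ga1, ga2⟩ := exists_centred D.νa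
  obtain ⟨gb, gb1, gb2⟩ := exists_centred D.νb
  have ht0 : algebraMap (LSer k) K' (LSer.T 1) ≠ 0 := by
    intro h
    rw [h, map_zero] at ht
    exact (zero_lt_one.trans ht).false
  have hΘa : ∀ a, ((bc (K' := K') k (p ^ r) (LSer.T 1)).comp Θa).toRingHom
      (algebraMap k D.Wa.B a) = algebraMap (RatFunc K') _ (RatFunc.C (algebraMap k K' a)) := by
    intro a
    change ((bc (K' := K') k (p ^ r) (LSer.T 1)).comp Θa) (algebraMap k D.Wa.B a) = _
    rw [AlgHom.commutes]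
    rfl
  have hΘb : ∀ a, ((bc (K' := K') k (p ^ r) (LSer.T 1)).comp Θb).toRingHom
      (algebraMap k D.Wb.B a) = algebraMap (RatFunc K') _ (RatFunc.C (algebraMap k K' a)) := by
    intro a
    change ((bc (K' := K') k (p ^ r) (LSer.T 1)).comp Θb) (algebraMap k D.Wb.B a) = _
    rw [AlgHom.commutes]
    rfl
  have hγ' : ∀ δ : F, rbase (LSer k) K' (algebraMap F (RatFunc (LSer k)) δ) ^ p ^ r =
      rbase (LSer k) K' (algebraMap F (RatFunc (LSer k)) δ) := by
    intro δ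
    rw [← map_pow, pow_F p r δ hq]
  have hηa : ∀ (δ : F) (b : D.Wa.B), ((bc (K' := K') k (p ^ r) (LSer.T 1)).comp Θa).toRingHom
      (D.ηa δ b) = asTr p r _ (rbase (LSer k) K' (algebraMap F (RatFunc (LSer k)) δ)) (hγ' δ)
        (((bc (K' := K') k (p ^ r) (LSer.T 1)).comp Θa).toRingHom b) := by
    intro δ b
    change bc (K' := K') k (p ^ r) (LSer.T 1) (Θa (D.ηa δ b)) = _
    rw [ea]
    exact bc_asTr p r (LSer.T 1) _ (pow_F p r δ hq) (hγ' δ) (Θa b)
  have hηb : ∀ (δ : F) (b : D.Wb.B), ((bc (K' := K') k (p ^ r) (LSer.T 1)).comp Θb).toRingHom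
      (D.ηb δ b) = asTr p r _ (rbase (LSer k) K' (algebraMap F (RatFunc (LSer k)) δ)) (hγ' δ)
        (((bc (K' := K') k (p ^ r) (LSer.T 1)).comp Θb).toRingHom b) := by
    intro δ b
    change bc (K' := K') k (p ^ r) (LSer.T 1) (Θb (D.ηb δ b)) = _
    rw [eb]
    exact bc_asTr p r (LSer.T 1) _ (pow_F p r δ hq) (hγ' δ) (Θb b)
  -- large radii
  have hla : ∀ b ∈ ga, ∃ c : Γ, ∀ ρ, c < ρ → ∀ hρ : ρ ≠ 0,
      wr p r hq1 v hρ (bc (K' := K') k (p ^ r) (LSer.T 1) (Θa b)) < 1 := by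
    intro b hb
    obtain ⟨P, hP1, hP2, hP3⟩ := va b (ga2 b hb)
    obtain ⟨c, hc⟩ := wr_large p r hq1 v ht0 (P := P.map (rbase (LSer k) K').toRingHom)
      ((Polynomial.natDegree_map_le).trans_lt hP1) (by
        intro i
        rw [Polynomial.coeff_map]
        have h1 := rbase_van (κ := K') _ _ _ (hP3 i)
        have h2 := van_none_frac (h1.mono (m' := 1) (by exact_mod_cast hq1.le))
        obtain ⟨P', Q', h3, h4, h5⟩ := h2
        exact ⟨P', Q', h3, h4, h5⟩)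
    refine ⟨c, fun ρ hcρ hρ => ?_⟩
    rw [hP2, bc_mk]
    exact hc ρ hρ hcρ
  have hlb : ∀ b ∈ gb, ∃ c : Γ, ∀ ρ, c < ρ → ∀ hρ : ρ⁻¹ ≠ 0,
      wr p r hq1 v hρ (bc (K' := K') k (p ^ r) (LSer.T 1) (Θb b)) < 1 := by
    intro b hb
    obtain ⟨P, hP1, hP2, hP3⟩ := vb b (gb2 b hb)
    obtain ⟨c, hc⟩ := wr_small p r hq1 v (P := P.map (rbase (LSer k) K').toRingHom)
      ((Polynomial.natDegree_map_le).trans_lt hP1) (by
        intro i
        rw [Polynomial.coeff_map]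
        have h1 := rbase_van (κ := K') _ _ _ (hP3 i)
        have h0 : (some (0 : LSer k)).map (algebraMap (LSer k) K') = some 0 := by
          rw [Option.map_some, map_zero]
        rw [h0] at h1
        obtain ⟨P', Q', m, h3, h4, h5⟩ := van_zero_frac h1
        exact ⟨P', Q', m, h3, h4, h5⟩)
    refine ⟨c, fun ρ hcρ hρ => ?_⟩
    rw [hP2, bc_mk]
    exact hc ρ hρ hcρ
  obtain ⟨ca, hca⟩ := exists_bound _ _ hla
  obtain ⟨cb, hcb⟩ := exists_bound _ _ hlb
  have hbig : ∀ c : Γ, ∃ ρ : Γ, c < ρ ∧ ρ ≠ 0 := by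
    intro c
    refine ⟨max c 1 * v (algebraMap (LSer k) K' (LSer.T 1)), ?_, ?_⟩
    · refine (le_max_left c 1).trans_lt ?_
      exact lt_mul_of_one_lt_right (zero_lt_one.trans_le (le_max_right _ _)) ht
    · exact mul_ne_zero (zero_lt_one.trans_le (le_max_right _ _)).ne' (zero_lt_one.trans ht).ne'
  obtain ⟨ρ₁, h11, h12⟩ := hbig ca
  obtain ⟨ρ₂, h21, h22⟩ := hbig cb
  have h23 : ρ₂⁻¹ ≠ 0 := inv_ne_zero h22
  have hA : ∀ b, D.νa b = 0 →
      wr p r hq1 v h23 (bc (K' := K') k (p ^ r) (LSer.T 1) (Θa b)) < 1 := by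
    intro b hb
    exact path_all p r hq1 (algebraMap k K') v ht hφ
      ((bc (K' := K') k (p ^ r) (LSer.T 1)).comp Θa).toRingHom hΘa D.ηa
      (fun δ : F => rbase (LSer k) K' (algebraMap F (RatFunc (LSer k)) δ)) hγ' hηa hdiv ga ga1
      D.νa ga2 hiso h12 (fun b hb => hca ρ₁ h11 b hb h12) h23 b hb
  have hB : ∀ b, D.νb b = 0 →
      wr p r hq1 v h23 (bc (K' := K') k (p ^ r) (LSer.T 1) (Θb b)) < 1 := by
    intro b hb
    exact wr_max_lt p r hq1 (algebraMap k K') v ht hφ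
      ((bc (K' := K') k (p ^ r) (LSer.T 1)).comp Θb).toRingHom hΘb gb1 D.νb gb2 h23
      (fun b hb => hcb ρ₂ h21 b hb h23) b hb
  have hred := isReduced_wr p r hq1 v ht h23
  refine (nw_wr p r hq1 v ht hφ h23).same D.Wa D.Wb
    ((bc (K' := K') k (p ^ r) (LSer.T 1)).comp Θa) ((bc (K' := K') k (p ^ r) (LSer.T 1)).comp Θb)
    ?_ D.νa D.νb hA hB
  rw [← Pt.map_map, ← Pt.map_map, hs]

end main

theorem T_notMem_range (k : Type u) [Field k] :
    algebraMap (LSer k) (AlgebraicClosure (LSer k)) (LSer.T 1) ∉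
      (algebraMap k (AlgebraicClosure (LSer k))).range := by
  rintro ⟨a, ha⟩
  rw [IsScalarTower.algebraMap_apply k (LSer k)] at ha
  have h1 := (algebraMap (LSer k) (AlgebraicClosure (LSer k))).injective ha
  have h2 := congrArg (fun f : LSer k => f.coeff 1) h1
  simp only [LSer.algebraMap_eq, LSer.coeff_C, LSer.coeff_T] at h2
  simp at h2

/-- The two closed points of the deformation coincide. -/
theorem FD.same_pt {F : Type} [Field F] [Fintype F] {k : Type u} [Field k] [IsAlgClosed k]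
    [Algebra F k] {V : Scheme.{u}} {π : V ⟶ Spec (.of k)} [IsSeparated π] {A : Act F π} (D : FD A)
    (p : ℕ) [hp : Fact p.Prime] [CharP k p] (r : ℕ) (hq1 : 1 < p ^ r)
    (hq : Fintype.card F = p ^ r) [Algebra.FiniteType k D.Wa.B] [Algebra.FiniteType k D.Wb.B]
    (hiso : ∀ b, D.νa b = 0 → ∃ n, b ^ n ∈ Ideal.span {x | ∃ i b', x = D.ηa i b' - b'}) :
    D.Wa.pt.map D.νa = D.Wb.pt.map D.νb := by
  obtain ⟨W, h1, h2⟩ := exists_val (T_notMem_range k)
  have := charP_of_injective_algebraMap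
    (algebraMap (LSer k) (AlgebraicClosure (LSer k))).injective p
  exact D.same_of_val p r hq1 hq W.valuation h2 h1 (fun x n hn => val_div W x n hn) hiso

end Run7.h99
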