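import Mathlib

/-! # Gauss norms with values in an ordered group with zero -/

set_option autoImplicit false

open Polynomial

namespace Run7.h99

variable {K : Type*} [Field K] {Γ : Type*} [LinearOrderedCommGroupWithZero Γ]

theorem bot_eq : (⊥ : Γ) = 0 := le_antisymm bot_le zero_le

/-- The Gauss norm of radius `c` attached to the valuation `v`. -/
noncomputable def gn (v : Valuation K Γ) (c : Γ) (P : K[X]) : Γ :=
  P.support.sup fun n => v (P.coeff n) * c ^ n

variable (v : Valuation K Γ) (c : Γ)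

theorem gn_zero : gn v c 0 = 0 := by
  unfold gn
  simp [bot_eq]

theorem le_gn (P : K[X]) (n : ℕ) : v (P.coeff n) * c ^ n ≤ gn v c P := by
  by_cases h : P.coeff n = 0
  · rw [h, map_zero, zero_mul]
    exact zero_le
  · exact Finset.le_sup (f := fun n => v (P.coeff n) * c ^ n) (mem_support_iff.2 h)

theorem gn_le {P : K[X]} {b : Γ} (h : ∀ n, v (P.coeff n) * c ^ n ≤ b) : gn v c P ≤ b :=
  Finset.sup_le fun n _ => h n

theorem gn_lt {P : K[X]} {b : Γ} (hb : 0 < b) (h : ∀ n, v (P.coeff n) * c ^ n < b) :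
    gn v c P < b :=
  (Finset.sup_lt_iff (by rw [bot_eq]; exact hb)).2 fun n _ => h n

theorem exists_gn (P : K[X]) : ∃ n, gn v c P = v (P.coeff n) * c ^ n := by
  by_cases h : P.support.Nonempty
  · obtain ⟨n, _, hn⟩ := Finset.exists_mem_eq_sup P.support h fun n => v (P.coeff n) * c ^ n
    exact ⟨n, hn⟩
  · rw [Finset.not_nonempty_iff_eq_empty, support_eq_empty] at h
    subst h
    exact ⟨0, by simp [gn, bot_eq]⟩

theorem gn_eq_zero_iff (hc : c ≠ 0) {P : K[X]} : gn v c P = 0 ↔ P = 0 := by
  constructor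
  · intro h
    ext n
    have h1 := le_gn v c P n
    rw [h, le_zero_iff, mul_eq_zero, map_eq_zero] at h1
    rcases h1 with h1 | h1
    · rw [h1, coeff_zero]
    · exact absurd h1 (pow_ne_zero n hc)
  · rintro rfl
    exact gn_zero v c

theorem gn_add (P Q : K[X]) : gn v c (P + Q) ≤ max (gn v c P) (gn v c Q) := by
  apply gn_le
  intro n
  rw [coeff_add]
  have h1 := v.map_add (P.coeff n) (Q.coeff n)
  rcases le_total (v (P.coeff n)) (v (Q.coeff n)) with h | h
  · rw [max_eq_right h] at h1
    exact (mul_le_mul_left h1 _).trans ((le_gn v c Q n).trans (le_max_right _ _))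
  · rw [max_eq_left h] at h1
    exact (mul_le_mul_left h1 _).trans ((le_gn v c P n).trans (le_max_left _ _))

theorem gn_monomial (n : ℕ) (a : K) : gn v c (monomial n a) = v a * c ^ n := by
  apply le_antisymm
  · apply gn_le
    intro m
    rw [coeff_monomial]
    split_ifs with h
    · rw [h]
    · rw [map_zero, zero_mul]
      exact zero_le
  · have := le_gn v c (monomial n a) n
    rwa [coeff_monomial, if_pos rfl] at this

theorem gn_C (a : K) : gn v c (C a) = v a := by
  rw [← monomial_zero_left, gn_monomial, pow_zero, mul_one]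

theorem gn_X : gn v c (X : K[X]) = c := by
  rw [← monomial_one_one_eq_X, gn_monomial, map_one, one_mul, pow_one]

theorem gn_one : gn v c (1 : K[X]) = 1 := by
  rw [← C_1, gn_C, map_one]

variable {c}

/-- the Gauss norm is attained at a minimal index -/
theorem exists_min_gn (P : K[X]) :
    ∃ i, gn v c P = v (P.coeff i) * c ^ i ∧ ∀ j < i, v (P.coeff j) * c ^ j < gn v c P := by
  classical
  have h := exists_gn v c P
  refine ⟨Nat.find h, Nat.find_spec h, fun j hj => ?_⟩
  exact lt_of_le_of_ne (le_gn v c P j) fun h' => Nat.find_min h hj h'.symm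

theorem gn_mul (hc : c ≠ 0) (P Q : K[X]) : gn v c (P * Q) = gn v c P * gn v c Q := by
  by_cases hP : P = 0
  · rw [hP, zero_mul, gn_zero, zero_mul]
  by_cases hQ : Q = 0
  · rw [hQ, mul_zero, gn_zero, mul_zero]
  have hP0 : 0 < gn v c P := zero_lt_iff.2 fun h => hP ((gn_eq_zero_iff v c hc).1 h)
  have hQ0 : 0 < gn v c Q := zero_lt_iff.2 fun h => hQ ((gn_eq_zero_iff v c hc).1 h)
  have key : ∀ a b : ℕ, v (P.coeff a * Q.coeff b) * c ^ (a + b) =
      (v (P.coeff a) * c ^ a) * (v (Q.coeff b) * c ^ b) := by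
    intro a b
    rw [map_mul, pow_add]
    ac_rfl
  apply le_antisymm
  · apply gn_le
    intro n
    have hcn : 0 < c ^ n := zero_lt_iff.2 (pow_ne_zero n hc)
    rw [← le_div_iff₀ hcn, coeff_mul]
    apply v.map_sum_le
    rintro ⟨a, b⟩ hab
    rw [Finset.HasAntidiagonal.mem_antidiagonal] at hab
    rw [le_div_iff₀ hcn, ← hab, key]
    exact mul_le_mul' (le_gn v c P a) (le_gn v c Q b)
  · obtain ⟨i, hi, hi'⟩ := exists_min_gn v P
    obtain ⟨j, hj, hj'⟩ := exists_min_gn v Q
    have hcn : 0 < c ^ (i + j) := zero_lt_iff.2 (pow_ne_zero _ hc)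
    refine le_trans (le_of_eq ?_) (le_gn v c (P * Q) (i + j))
    rw [hi, hj, ← key]
    congr 1
    rw [coeff_mul, ← Finset.add_sum_erase _ _ (a := (i, j))
      (Finset.HasAntidiagonal.mem_antidiagonal.2 rfl)]
    symm
    apply v.map_add_eq_of_lt_left
    apply v.map_sum_lt
    · intro h
      have h1 := key i j
      rw [h, zero_mul, ← hi, ← hj] at h1
      exact (mul_pos hP0 hQ0).ne h1
    · rintro ⟨a, b⟩ hab
      rw [Finset.mem_erase, Finset.HasAntidiagonal.mem_antidiagonal] at hab
      obtain ⟨hne, hab⟩ := hab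
      simp only at hab ⊢
      rw [← mul_lt_mul_iff_left₀ hcn]
      have e1 : v (P.coeff a * Q.coeff b) * c ^ (i + j) =
        (v (P.coeff a) * c ^ a) * (v (Q.coeff b) * c ^ b) := by rw [← hab, key]
      rw [e1, key, ← hi, ← hj]
      have hab' : a < i ∨ b < j := by
        by_contra hcon
        push Not at hcon
        apply hne
        ext <;> simp <;> omega
      rcases hab' with ha | hb
      · exact mul_lt_mul_of_lt_of_le_of_nonneg_of_pos (hi' a ha) (le_gn v c Q b) zero_le hQ0
      · exact mul_lt_mul_of_le_of_lt_of_nonneg_of_pos (le_gn v c P a) (hj' b hb) zero_le hP0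

/-- The Gauss norm as a valuation. -/
noncomputable def gv (hc : c ≠ 0) : Valuation K[X] Γ where
  toFun := gn v c
  map_zero' := gn_zero v c
  map_one' := gn_one v c
  map_mul' := gn_mul v hc
  map_add_le_max' := gn_add v c

@[simp] theorem gv_apply (hc : c ≠ 0) (P : K[X]) : gv v hc P = gn v c P := rfl

theorem gv_supp (hc : c ≠ 0) : nonZeroDivisors K[X] ≤ (gv v hc).supp.primeCompl := by
  intro P hP
  change P ∉ (gv v hc).supp
  rw [Valuation.mem_supp_iff, gv_apply, gn_eq_zero_iff v c hc]
  exact nonZeroDivisors.ne_zero hP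

/-- The Gauss valuation of the rational functions. -/
noncomputable def gr (hc : c ≠ 0) : Valuation (RatFunc K) Γ :=
  (gv v hc).extendToLocalization (gv_supp v hc) (RatFunc K)

theorem gr_pol (hc : c ≠ 0) (P : K[X]) : gr v hc (algebraMap K[X] (RatFunc K) P) = gn v c P :=
  Valuation.extendToLocalization_apply_map_apply _ _ _ _

theorem gr_C (hc : c ≠ 0) (a : K) : gr v hc (RatFunc.C a) = v a := by
  rw [← RatFunc.algebraMap_C, gr_pol, gn_C]

theorem gr_X (hc : c ≠ 0) : gr v hc RatFunc.X = c := by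
  rw [← RatFunc.algebraMap_X, gr_pol, gn_X]

end Run7.h99
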