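import Pool.Agent.Run7.h99.GaussG

/-! # An intermediate value theorem for maxima of monomials -/

set_option autoImplicit false

open Polynomial

namespace Run7.h99

variable {Γ : Type*} [LinearOrderedCommGroupWithZero Γ]

/-- A monomial function. -/
def mo (m : Γ × ℕ) (x : Γ) : Γ := m.1 * x ^ m.2

/-- The maximum of a family of monomial functions. -/
noncomputable def mf (F : Finset (Γ × ℕ)) (x : Γ) : Γ := F.sup fun m => mo m x

theorem mo_le_mf {F : Finset (Γ × ℕ)} {m : Γ × ℕ} (hm : m ∈ F) (x : Γ) : mo m x ≤ mf F x :=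
  Finset.le_sup (f := fun m => mo m x) hm

theorem exists_mf {F : Finset (Γ × ℕ)} {x : Γ} (h : 0 < mf F x) : ∃ m ∈ F, mf F x = mo m x := by
  have hF : F.Nonempty := by
    rw [Finset.nonempty_iff_ne_empty]
    rintro rfl
    unfold mf at h
    rw [Finset.sup_empty, bot_eq] at h
    exact h.false
  obtain ⟨m, hm, h1⟩ := Finset.exists_mem_eq_sup F hF fun m => mo m x
  exact ⟨m, hm, h1⟩

/-- The basic fact on two monomials which change their order. -/
theorem cross_point (hdiv : ∀ (x : Γ) (n : ℕ), 0 < n → ∃ y, y ^ n = x) {x y : Γ} (hx : x ≠ 0)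
    (hxy : x < y) {m m' : Γ × ℕ} (h1 : mo m x < mo m' x) (h2 : mo m' y < mo m y) :
    m'.2 < m.2 ∧ m.1 ≠ 0 ∧ m'.1 ≠ 0 ∧ ∃ z, x < z ∧ z < y ∧ mo m z = mo m' z := by
  obtain ⟨a, n⟩ := m
  obtain ⟨a', n'⟩ := m'
  unfold mo at h1 h2 ⊢
  simp only at h1 h2 ⊢
  have hx0 : 0 < x := zero_lt_iff.2 hx
  have hy0 : 0 < y := hx0.trans hxy
  have ha : a ≠ 0 := by
    rintro rfl
    rw [zero_mul] at h2
    exact not_lt_zero h2
  have ha' : a' ≠ 0 := by
    rintro rfl
    rw [zero_mul] at h1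
    exact not_lt_zero h1
  have hn : n' < n := by
    by_contra hcon
    push Not at hcon
    obtain ⟨d, rfl⟩ := Nat.exists_eq_add_of_le hcon
    have e1 : a < a' * x ^ d := by
      rw [pow_add, mul_left_comm, ← mul_comm (a' * x ^ d)] at h1
      exact lt_of_mul_lt_mul_right h1 zero_le
    have e2 : a' * y ^ d < a := by
      rw [pow_add, mul_left_comm, ← mul_comm (a' * y ^ d)] at h2
      exact lt_of_mul_lt_mul_right h2 zero_le
    have e3 := e2.trans e1
    have e4 : x ^ d ≤ y ^ d := pow_le_pow_left₀ zero_le hxy.le d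
    exact absurd e3 (not_lt.2 (mul_le_mul_right e4 a'))
  refine ⟨hn, ha, ha', ?_⟩
  obtain ⟨d, rfl⟩ := Nat.exists_eq_add_of_lt hn
  obtain ⟨z, hz⟩ := hdiv (a' / a) (d + 1) (Nat.succ_pos d)
  have ha0 : 0 < a := zero_lt_iff.2 ha
  have e1 : x ^ (d + 1) < a' / a := by
    rw [lt_div_iff₀ ha0]
    rw [add_assoc, pow_add, mul_left_comm, mul_comm a', ← mul_comm (a * x ^ (d + 1)),
      mul_comm _ a'] at h1
    rw [mul_comm]
    exact lt_of_mul_lt_mul_right h1 zero_le
  have e2 : a' / a < y ^ (d + 1) := by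
    rw [div_lt_iff₀ ha0]
    rw [add_assoc, pow_add, mul_left_comm, mul_comm a', ← mul_comm (a * y ^ (d + 1)),
      mul_comm _ a'] at h2
    rw [mul_comm]
    exact lt_of_mul_lt_mul_right h2 zero_le
  rw [← hz] at e1 e2
  refine ⟨z, lt_of_pow_lt_pow_left₀ _ zero_le e1, lt_of_pow_lt_pow_left₀ _ zero_le e2, ?_⟩
  rw [add_assoc, pow_add, hz, mul_left_comm, mul_div_cancel₀ _ ha, mul_comm]

theorem flip_right (hdiv : ∀ (x : Γ) (n : ℕ), 0 < n → ∃ y, y ^ n = x) {x z y : Γ} (hx : x ≠ 0)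
    (hxz : x < z) (hzy : z < y) {m m' : Γ × ℕ} (h1 : mo m x < mo m' x) (h2 : mo m' z < mo m z) :
    mo m' y < mo m y := by
  obtain ⟨hn, ha, ha', -⟩ := cross_point hdiv hx hxz h1 h2
  have hy0 : 0 < y := (zero_lt_iff.2 hx).trans (hxz.trans hzy)
  obtain ⟨a, n⟩ := m
  obtain ⟨a', n'⟩ := m'
  unfold mo at h1 h2 ⊢
  simp only at h1 h2 hn ha ha' ⊢
  obtain ⟨d, rfl⟩ := Nat.exists_eq_add_of_lt hn
  have e1 : a' < a * z ^ (d + 1) := by
    rw [add_assoc, pow_add, mul_left_comm, ← mul_comm (a * z ^ (d + 1))] at h2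
    exact lt_of_mul_lt_mul_right h2 zero_le
  have e2 : a' < a * y ^ (d + 1) :=
    e1.trans_le (mul_le_mul_right (pow_le_pow_left₀ zero_le hzy.le _) a)
  rw [add_assoc, pow_add, mul_left_comm, ← mul_comm (a * y ^ (d + 1))]
  exact mul_lt_mul_of_pos_right e2 (pow_pos hy0 _)

theorem flip_left (hdiv : ∀ (x : Γ) (n : ℕ), 0 < n → ∃ y, y ^ n = x) {x z y : Γ} (hx : x ≠ 0)
    (hxz : x < z) (hzy : z < y) {m m' : Γ × ℕ} (h1 : mo m z < mo m' z) (h2 : mo m' y < mo m y) :
    mo m x < mo m' x := by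
  have hz : z ≠ 0 := ((zero_lt_iff.2 hx).trans hxz).ne'
  obtain ⟨hn, ha, ha', -⟩ := cross_point hdiv hz hzy h1 h2
  have hx0 : 0 < x := zero_lt_iff.2 hx
  obtain ⟨a, n⟩ := m
  obtain ⟨a', n'⟩ := m'
  unfold mo at h1 h2 ⊢
  simp only at h1 h2 hn ha ha' ⊢
  obtain ⟨d, rfl⟩ := Nat.exists_eq_add_of_lt hn
  have e1 : a * z ^ (d + 1) < a' := by
    rw [add_assoc, pow_add, mul_left_comm, ← mul_comm (a * z ^ (d + 1))] at h1
    exact lt_of_mul_lt_mul_right h1 zero_le
  have e2 : a * x ^ (d + 1) < a' :=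
    (mul_le_mul_right (pow_le_pow_left₀ zero_le hxz.le _) a).trans_lt e1
  rw [add_assoc, pow_add, mul_left_comm, ← mul_comm (a * x ^ (d + 1))]
  exact mul_lt_mul_of_pos_right e2 (pow_pos hx0 _)

open Classical in
/-- The pairs of monomials which change their order between `x` and `y`. -/
noncomputable def flips (M : Finset (Γ × ℕ)) (x y : Γ) : Finset ((Γ × ℕ) × (Γ × ℕ)) :=
  (M ×ˢ M).filter fun P => mo P.1 x < mo P.2 x ∧ mo P.2 y < mo P.1 y

theorem mem_flips {M : Finset (Γ × ℕ)} {x y : Γ} {P : (Γ × ℕ) × (Γ × ℕ)} :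
    P ∈ flips M x y ↔ (P.1 ∈ M ∧ P.2 ∈ M) ∧ mo P.1 x < mo P.2 x ∧ mo P.2 y < mo P.1 y := by
  unfold flips
  rw [Finset.mem_filter, Finset.mem_product]

theorem ivt_aux (hdiv : ∀ (x : Γ) (n : ℕ), 0 < n → ∃ y, y ^ n = x) (F G : Finset (Γ × ℕ))
    (n : ℕ) : ∀ (x y : Γ), x ≠ 0 → x < y → (flips (F ∪ G) x y).card = n →
      (mf F x < mf G x ∧ mf G y < mf F y) ∨ (mf G x < mf F x ∧ mf F y < mf G y) →
      ∃ z, z ≠ 0 ∧ mf F z = mf G z := by
  classical
  induction n using Nat.strong_induction_on with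
  | _ n ih =>
    intro x y hx hxy hn h
    by_cases he : flips (F ∪ G) x y = ∅
    · exfalso
      have hy0 : y ≠ 0 := ((zero_lt_iff.2 hx).trans hxy).ne'
      rcases h with ⟨h1, h2⟩ | ⟨h1, h2⟩
      · obtain ⟨m, hm, e1⟩ := exists_mf (lt_of_le_of_lt zero_le h1)
        obtain ⟨m', hm', e2⟩ := exists_mf (lt_of_le_of_lt zero_le h2)
        have : (m', m) ∈ flips (F ∪ G) x y := by
          rw [mem_flips]
          refine ⟨⟨Finset.mem_union_left _ hm', Finset.mem_union_right _ hm⟩, ?_, ?_⟩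
          · rw [← e1]
            exact (mo_le_mf hm' x).trans_lt h1
          · rw [← e2]
            exact (mo_le_mf hm y).trans_lt h2
        rw [he] at this
        exact Finset.notMem_empty _ this
      · obtain ⟨m, hm, e1⟩ := exists_mf (lt_of_le_of_lt zero_le h1)
        obtain ⟨m', hm', e2⟩ := exists_mf (lt_of_le_of_lt zero_le h2)
        have : (m', m) ∈ flips (F ∪ G) x y := by
          rw [mem_flips]
          refine ⟨⟨Finset.mem_union_right _ hm', Finset.mem_union_left _ hm⟩, ?_, ?_⟩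
          · rw [← e1]
            exact (mo_le_mf hm' x).trans_lt h1
          · rw [← e2]
            exact (mo_le_mf hm y).trans_lt h2
        rw [he] at this
        exact Finset.notMem_empty _ this
    · obtain ⟨⟨m, m'⟩, hP⟩ := Finset.nonempty_iff_ne_empty.2 he
      have hP' := mem_flips.1 hP
      obtain ⟨hM, h1, h2⟩ := hP'
      simp only at hM h1 h2
      obtain ⟨-, -, -, z, hxz, hzy, hz⟩ := cross_point hdiv hx hxy h1 h2
      have hz0 : z ≠ 0 := ((zero_lt_iff.2 hx).trans hxz).ne'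
      have hl : (flips (F ∪ G) x z).card < n := by
        rw [← hn]
        apply Finset.card_lt_card
        rw [Finset.ssubset_iff_of_subset]
        · refine ⟨(m, m'), hP, fun h => ?_⟩
          have := (mem_flips.1 h).2.2
          simp only at this
          rw [hz] at this
          exact this.false
        · intro P hP
          rw [mem_flips] at hP ⊢
          exact ⟨hP.1, hP.2.1, flip_right hdiv hx hxz hzy hP.2.1 hP.2.2⟩
      have hr : (flips (F ∪ G) z y).card < n := by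
        rw [← hn]
        apply Finset.card_lt_card
        rw [Finset.ssubset_iff_of_subset]
        · refine ⟨(m, m'), hP, fun h => ?_⟩
          have := (mem_flips.1 h).2.1
          simp only at this
          rw [hz] at this
          exact this.false
        · intro P hP
          rw [mem_flips] at hP ⊢
          exact ⟨hP.1, flip_left hdiv hx hxz hzy hP.2.1 hP.2.2, hP.2.2⟩
      rcases lt_trichotomy (mf F z) (mf G z) with h3 | h3 | h3
      · rcases h with h | h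
        · exact ih _ hr z y hz0 hzy rfl (Or.inl ⟨h3, h.2⟩)
        · exact ih _ hl x z hx hxz rfl (Or.inr ⟨h.1, h3⟩)
      · exact ⟨z, hz0, h3⟩
      · rcases h with h | h
        · exact ih _ hl x z hx hxz rfl (Or.inl ⟨h.1, h3⟩)
        · exact ih _ hr z y hz0 hzy rfl (Or.inr ⟨h3, h.2⟩)

/-- If `f ≤ g` implies `f < g` at every point, then `f < g` everywhere as soon as it holds at one
point. -/
theorem ivt (hdiv : ∀ (x : Γ) (n : ℕ), 0 < n → ∃ y, y ^ n = x) (F G : Finset (Γ × ℕ))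
    (h : ∀ x : Γ, x ≠ 0 → mf F x ≤ mf G x → mf F x < mf G x) {x : Γ} (hx : x ≠ 0)
    (h0 : mf F x < mf G x) {y : Γ} (hy : y ≠ 0) : mf F y < mf G y := by
  by_contra hcon
  push Not at hcon
  have h1 : mf G y < mf F y := by
    refine lt_of_le_of_ne hcon fun he => ?_
    exact (h y hy he.ge).ne he.symm
  have h2 : ∃ z, z ≠ 0 ∧ mf F z = mf G z := by
    rcases lt_trichotomy x y with hxy | rfl | hxy
    · exact ivt_aux hdiv F G _ x y hx hxy rfl (Or.inl ⟨h0, h1⟩)
    · exact absurd h0 h1.not_gt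
    · exact ivt_aux hdiv F G _ y x hy hxy rfl (Or.inr ⟨h1, h0⟩)
  obtain ⟨z, hz, hz'⟩ := h2
  exact (h z hz hz'.le).ne hz'

section pol

variable {K : Type*} [Field K] (v : Valuation K Γ)

open Classical in
/-- The monomials of a polynomial. -/
noncomputable def mons (P : K[X]) : Finset (Γ × ℕ) := P.support.image fun n => (v (P.coeff n), n)

theorem mf_mons (P : K[X]) (x : Γ) : mf (mons v P) x = gn v x P := by
  unfold mf mons gn
  rw [Finset.sup_image]
  rfl

variable {ι : Type*} (s : Finset ι) (F G : ι → K[X])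

open Classical in
theorem mf_biUnion (x : Γ) :
    mf (s.biUnion fun i => mons v (F i)) x = s.sup fun i => gn v x (F i) := by
  have h : ∀ i, gn v x (F i) = (mons v (F i)).sup fun m => mo m x := fun i => (mf_mons v _ x).symm
  simp_rw [h]
  unfold mf
  rw [Finset.sup_biUnion]

theorem gn_ne_zero {x : Γ} (hx : x ≠ 0) {P : K[X]} (hP : P ≠ 0) : gn v x P ≠ 0 := fun h =>
  hP ((gn_eq_zero_iff v x hx).1 h)

open Classical in
theorem ivt_pol (hdiv : ∀ (x : Γ) (n : ℕ), 0 < n → ∃ y, y ^ n = x) (hG : ∀ i ∈ s, G i ≠ 0)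
    (h : ∀ x : Γ, x ≠ 0 → (∀ i ∈ s, gn v x (F i) ≤ gn v x (G i)) →
      ∀ i ∈ s, gn v x (F i) < gn v x (G i)) {x : Γ} (hx : x ≠ 0)
    (h0 : ∀ i ∈ s, gn v x (F i) < gn v x (G i)) {y : Γ} (hy : y ≠ 0) :
    ∀ i ∈ s, gn v y (F i) < gn v y (G i) := by
  set G' : K[X] := ∏ i ∈ s, G i with hG'
  set F' : ι → K[X] := fun i => F i * ∏ j ∈ s.erase i, G j with hF'
  have hG0 : G' ≠ 0 := Finset.prod_ne_zero_iff.2 hG
  have hpos : ∀ i ∈ s, ∀ x : Γ, x ≠ 0 → 0 < gn v x (∏ j ∈ s.erase i, G j) := by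
    intro i _ x hx
    apply zero_lt_iff.2
    apply gn_ne_zero v hx
    exact Finset.prod_ne_zero_iff.2 fun j hj => hG j (Finset.mem_of_mem_erase hj)
  have e1 : ∀ i ∈ s, ∀ x : Γ, x ≠ 0 → gn v x (F' i) =
      gn v x (F i) * gn v x (∏ j ∈ s.erase i, G j) := by
    intro i _ x hx
    rw [hF', gn_mul v hx]
  have e2 : ∀ i ∈ s, ∀ x : Γ, x ≠ 0 → gn v x G' =
      gn v x (G i) * gn v x (∏ j ∈ s.erase i, G j) := by
    intro i hi x hx
    rw [hG', ← Finset.mul_prod_erase s G hi, gn_mul v hx]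
  have hlt : ∀ x : Γ, x ≠ 0 → (mf (s.biUnion fun i => mons v (F' i)) x < mf (mons v G') x ↔
      ∀ i ∈ s, gn v x (F i) < gn v x (G i)) := by
    intro x hx
    rw [mf_biUnion, mf_mons, Finset.sup_lt_iff
      (by rw [bot_eq]; exact zero_lt_iff.2 (gn_ne_zero v hx hG0))]
    refine forall₂_congr fun i hi => ?_
    rw [e1 i hi x hx, e2 i hi x hx]
    exact mul_lt_mul_iff_left₀ (hpos i hi x hx)
  have hle : ∀ x : Γ, x ≠ 0 → (mf (s.biUnion fun i => mons v (F' i)) x ≤ mf (mons v G') x ↔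
      ∀ i ∈ s, gn v x (F i) ≤ gn v x (G i)) := by
    intro x hx
    rw [mf_biUnion, mf_mons, Finset.sup_le_iff]
    refine forall₂_congr fun i hi => ?_
    rw [e1 i hi x hx, e2 i hi x hx]
    exact mul_le_mul_iff_left₀ (hpos i hi x hx)
  rw [← hlt y hy]
  refine ivt hdiv _ _ ?_ hx ((hlt x hx).2 h0) hy
  intro z hz hz'
  exact (hlt z hz).2 (h z hz ((hle z hz).1 hz'))

end pol

end Run7.h99
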