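import Pool.Agent.Run7.h99.FormalGeo

/-! # Invariant refinement of two stable charts -/

set_option autoImplicit false

open AlgebraicGeometry CategoryTheory Polynomial Pool.Agent.H19VF

universe u

namespace Run7.h99

variable {F : Type} [AddCommGroup F] [Fintype F] {k : Type u} [Field k] {V : Scheme.{u}}
  {π : V ⟶ Spec (.of k)}

theorem act_same (A : Act F π) (Wa Wb : Chart π) (ηa : F → Wa.B →ₐ[k] Wa.B)
    (ηb : F → Wb.B →ₐ[k] Wb.B) (ha : IsAct A Wa ηa) (hb : IsAct A Wb ηb) {R : Type u} [CommRing R]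
    [Algebra k R] (φa : Wa.B →ₐ[k] R) (φb : Wb.B →ₐ[k] R) (h : Wa.pt.map φa = Wb.pt.map φb)
    (γ : F) : Wa.pt.map (φa.comp (ηa γ)) = Wb.pt.map (φb.comp (ηb γ)) := by
  rw [← Pt.map_map, ← Pt.map_map, ← ha, ← hb, A.pt_map, A.pt_map, h]

/-- Two stable charts which contain a common point: functions on the first one are fractions of
functions on the second one, with invariant denominator, at all translates of the point. -/
theorem inv_refine (A : Act F π) (Wa Wb : Chart π) (ηa : F → Wa.B →ₐ[k] Wa.B)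
    (ηb : F → Wb.B →ₐ[k] Wb.B) (ha : IsAct A Wa ηa) (hb : IsAct A Wb ηb) {Ω : Type u} [Field Ω]
    [Algebra k Ω] (φa : Wa.B →ₐ[k] Ω) (φb : Wb.B →ₐ[k] Ω) (h : Wa.pt.map φa = Wb.pt.map φb) :
    ∃ G : Wb.B, (∀ γ, ηb γ G = G) ∧ φb G ≠ 0 ∧ ∀ b : Wa.B, ∃ (b' : Wb.B) (n : ℕ), ∀ γ,
      φa (ηa γ b) * φb G ^ n = φb (ηb γ b') := by
  classical
  have hWa := Wa.imm
  have hsame := act_same A Wa Wb ηa ηb ha hb φa φb h
  let O : Set (PrimeSpectrum Wb.B) := Wb.pt.1 ⁻¹' Set.range Wa.pt.1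
  have hO : IsOpen O := (IsOpenImmersion.isOpen_range Wa.pt.1).preimage Wb.pt.1.continuous
  obtain ⟨I, hI⟩ := (PrimeSpectrum.isClosed_iff_zeroLocus_ideal (Oᶜ)).1 hO.isClosed_compl
  have hI' : ∀ x : PrimeSpectrum Wb.B, x ∉ O ↔ I ≤ x.asIdeal := fun x => Set.ext_iff.1 hI x
  let P : F → Ideal Wb.B := fun γ => RingHom.ker ((φb.comp (ηb γ)) : Wb.B →+* Ω)
  have hP : ∀ γ, (P γ).IsPrime := fun γ => RingHom.ker_isPrime _
  have hxO : ∀ γ, (⟨P γ, hP γ⟩ : PrimeSpectrum Wb.B) ∈ O := by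
    intro γ
    let y : PrimeSpectrum Ω := ⟨⊥, Ideal.isPrime_bot⟩
    have e1 : PrimeSpectrum.comap ((φb.comp (ηb γ)) : Wb.B →+* Ω) y = ⟨P γ, hP γ⟩ := rfl
    have h2 : Spec.map (CommRingCat.ofHom (φa.comp (ηa γ)).toRingHom) ≫ Wa.pt.1 =
        Spec.map (CommRingCat.ofHom (φb.comp (ηb γ)).toRingHom) ≫ Wb.pt.1 :=
      congrArg Subtype.val (hsame γ)
    have h3 : (Spec.map (CommRingCat.ofHom (φa.comp (ηa γ)).toRingHom) ≫ Wa.pt.1) y =
        (Spec.map (CommRingCat.ofHom (φb.comp (ηb γ)).toRingHom) ≫ Wb.pt.1) y := by rw [h2]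
    rw [← e1]
    exact ⟨(Spec.map (CommRingCat.ofHom (φa.comp (ηa γ)).toRingHom)) y, h3⟩
  have hg : ∃ g ∈ I, ∀ γ, g ∉ P γ := by
    by_contra hcon
    push Not at hcon
    have h1 : (I : Set Wb.B) ⊆ ⋃ i ∈ ((Finset.univ : Finset F) : Set F), (P i : Set Wb.B) := by
      intro g hg
      obtain ⟨γ, hγ⟩ := hcon g hg
      simp only [Finset.coe_univ, Set.mem_univ, Set.iUnion_true, Set.mem_iUnion]
      exact ⟨γ, hγ⟩
    rw [Ideal.subset_union_prime 0 0 (fun i _ _ _ => hP i)] at h1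
    obtain ⟨γ, -, h2⟩ := h1
    exact ((hI' ⟨P γ, hP γ⟩).2 h2) (hxO γ)
  obtain ⟨g, hgI, hgP⟩ := hg
  have hinv : ∀ δ, ηb δ (∏ γ : F, ηb γ g) = ∏ γ : F, ηb γ g := by
    intro δ
    rw [map_prod]
    rw [← Equiv.prod_comp (Equiv.addLeft δ) fun γ => ηb γ g]
    refine Finset.prod_congr rfl fun γ _ => ?_
    rw [Equiv.coe_addLeft, hb.add]
  obtain ⟨G, hG⟩ : ∃ G : Wb.B, G = ∏ γ : F, ηb γ g := ⟨_, rfl⟩
  rw [← hG] at hinv
  have hG0 : φb G ≠ 0 := by
    rw [hG, map_prod]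
    exact Finset.prod_ne_zero_iff.2 fun γ _ => hgP γ
  refine ⟨G, hinv, hG0, ?_⟩
  obtain ⟨ρ, hρ⟩ := Wa.F3_lift_away (R' := Localization.Away G) G Wb.pt (by
    intro x hx
    by_contra hc
    have h1 := (hI' x).1 hc hgI
    apply hx
    rw [hG, ← Finset.mul_prod_erase Finset.univ _ (Finset.mem_univ (0 : F)), hb.zero]
    exact Ideal.mul_mem_right _ _ h1)
  intro b
  obtain ⟨n, b', hn⟩ := IsLocalization.Away.surj G (ρ b)
  refine ⟨b', n, fun γ => ?_⟩
  have hu : IsUnit ((φb.comp (ηb γ)) G) := by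
    rw [AlgHom.comp_apply, hinv]
    exact isUnit_iff_ne_zero.2 hG0
  let ψ : Localization.Away G →ₐ[k] Ω :=
    { (IsLocalization.Away.lift (S := Localization.Away G) G
        (g := ((φb.comp (ηb γ)) : Wb.B →+* Ω)) hu) with
      commutes' := fun r => by
        change IsLocalization.Away.lift G hu (algebraMap k (Localization.Away G) r) = _
        rw [IsScalarTower.algebraMap_apply k Wb.B (Localization.Away G),
          IsLocalization.Away.lift_eq]
        exact (φb.comp (ηb γ)).commutes r }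
  have hψ : ∀ x : Wb.B, ψ (algebraMap Wb.B (Localization.Away G) x) = φb (ηb γ x) := fun x =>
    IsLocalization.Away.lift_eq G hu x
  have hψρ : ψ.comp ρ = φa.comp (ηa γ) := by
    apply Wa.map_injective
    rw [← Pt.map_map, ← hρ, Pt.map_map, hsame γ]
    congr 1
    apply AlgHom.ext
    intro x
    exact hψ x
  have h5 := congrArg ψ hn
  rw [map_mul, map_pow, hψ, hψ, hinv] at h5
  have h6 : ψ (ρ b) = φa (ηa γ b) := congrArg (fun e : Wa.B →ₐ[k] Ω => e b) hψρ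
  rw [h6] at h5
  exact h5

end Run7.h99
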