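import Pool.Agent.Run7.h99.PathMain

/-! # An isolated fixed point stays in the residue disc -/

set_option autoImplicit false

open Polynomial

namespace Run7.h99

section pathB

variable {k : Type*} [Field k] {K : Type*} [Field K] (p : ℕ) [hp : Fact p.Prime] [CharP K p]
  (r : ℕ) (hq : 1 < p ^ r) (φ : k →+* K)
  {Γ : Type*} [LinearOrderedCommGroupWithZero Γ] (v : Valuation K Γ) {t : K} (ht : 1 < v t)
  (hφ : ∀ a, v (φ a) ≤ 1)
variable {B : Type*} [CommRing B] [Algebra k B]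
  (Θ : B →+* AdjoinRoot (asP (p ^ r) (AR (p ^ r) t)))
  (hΘ : ∀ a, Θ (algebraMap k B a) = algebraMap (RatFunc K) _ (RatFunc.C (φ a)))

include ht hφ hΘ in
theorem wr_all_le {gen : Set B} (hgen : Algebra.adjoin k gen = ⊤) {ρ : Γ} (hρ : ρ ≠ 0)
    (h : ∀ b ∈ gen, wr p r hq v hρ (Θ b) ≤ 1) (b : B) : wr p r hq v hρ (Θ b) ≤ 1 := by
  have hb : b ∈ Algebra.adjoin k gen := by
    rw [hgen]
    exact Algebra.mem_top
  induction hb using Algebra.adjoin_induction with
  | mem x hx => exact h x hx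
  | algebraMap a =>
    rw [hΘ, wr_const p r hq v ht]
    exact hφ a
  | add x y _ _ hx hy =>
    rw [map_add]
    exact (wr_add p r hq v hρ _ _).trans (max_le hx hy)
  | mul x y _ _ hx hy =>
    rw [map_mul]
    exact (wr_mul p r hq v ht hρ _ _).trans (mul_le_one' hx hy)

include ht hφ hΘ in
theorem wr_max_lt {gen : Set B} (hgen : Algebra.adjoin k gen = ⊤) (ν : B →ₐ[k] k)
    (hν : ∀ b ∈ gen, ν b = 0) {ρ : Γ} (hρ : ρ ≠ 0)
    (h : ∀ b ∈ gen, wr p r hq v hρ (Θ b) < 1) (b : B) (hb0 : ν b = 0) :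
    wr p r hq v hρ (Θ b) < 1 := by
  have hall := wr_all_le p r hq φ v ht hφ Θ hΘ hgen hρ fun b hb => (h b hb).le
  have key : wr p r hq v hρ (Θ (b - algebraMap k B (ν b))) < 1 := by
    have hb : b ∈ Algebra.adjoin k gen := by
      rw [hgen]
      exact Algebra.mem_top
    clear hb0
    induction hb using Algebra.adjoin_induction with
    | mem x hx =>
      rw [hν x hx, map_zero, sub_zero]
      exact h x hx
    | algebraMap a =>
      rw [AlgHom.commutes, Algebra.algebraMap_self_apply, sub_self, map_zero, wr_zero]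
      exact zero_lt_one
    | add x y _ _ hx hy =>
      have e : x + y - algebraMap k B (ν (x + y)) =
          (x - algebraMap k B (ν x)) + (y - algebraMap k B (ν y)) := by
        rw [map_add, map_add]; ring
      rw [e, map_add]
      exact (wr_add p r hq v hρ _ _).trans_lt (max_lt hx hy)
    | mul x y _ _ hx hy =>
      have e : x * y - algebraMap k B (ν (x * y)) =
          (x - algebraMap k B (ν x)) * y + algebraMap k B (ν x) * (y - algebraMap k B (ν y)) := by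
        rw [map_mul, map_mul]; ring
      rw [e, map_add]
      refine (wr_add p r hq v hρ _ _).trans_lt (max_lt ?_ ?_)
      · rw [map_mul]
        exact (wr_mul p r hq v ht hρ _ _).trans_lt
          ((mul_le_of_le_one_right' (hall y)).trans_lt hx)
      · rw [map_mul]
        exact (wr_mul p r hq v ht hρ _ _).trans_lt
          ((mul_le_of_le_one_left' (hall _)).trans_lt hy)
  rwa [hb0, map_zero, sub_zero] at key

variable {ι : Type*} (η : ι → B →ₐ[k] B) (γ : ι → RatFunc K) (hγ : ∀ i, γ i ^ p ^ r = γ i)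
  (hη : ∀ i b, Θ (η i b) = asTr p r _ (γ i) (hγ i) (Θ b))

include ht hφ hΘ hη in
theorem wr_fix_lt {gen : Set B} (hgen : Algebra.adjoin k gen = ⊤) {ρ : Γ} (hρ : ρ ≠ 0)
    (h : ∀ b ∈ gen, wr p r hq v hρ (Θ b) ≤ 1) {b : B} {n : ℕ}
    (hb : b ^ n ∈ Ideal.span {x : B | ∃ i b', x = η i b' - b'}) :
    wr p r hq v hρ (Θ b) < 1 := by
  have hall := wr_all_le p r hq φ v ht hφ Θ hΘ hgen hρ h
  have h1 : ∀ x ∈ Ideal.span {x : B | ∃ i b', x = η i b' - b'}, wr p r hq v hρ (Θ x) < 1 := by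
    intro x hx
    induction hx using Submodule.span_induction with
    | mem x hx =>
      obtain ⟨i, b', rfl⟩ := hx
      rw [map_sub, hη]
      exact wr_sub p r hq v ht hρ (γ i) (hγ i) _ (hall b')
    | zero =>
      rw [map_zero, wr_zero]
      exact zero_lt_one
    | add x y _ _ hx hy =>
      rw [map_add]
      exact (wr_add p r hq v hρ _ _).trans_lt (max_lt hx hy)
    | smul a x _ hx =>
      rw [smul_eq_mul, map_mul]
      exact (wr_mul p r hq v ht hρ _ _).trans_lt ((mul_le_of_le_one_left' (hall a)).trans_lt hx)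
  obtain ⟨m, hm⟩ : ∃ m, n ≤ (p ^ r) ^ m := by
    obtain ⟨m, hm⟩ := pow_unbounded_of_one_lt n hq
    exact ⟨m, hm.le⟩
  have h2 : b ^ (p ^ r) ^ m ∈ Ideal.span {x : B | ∃ i b', x = η i b' - b'} :=
    Ideal.pow_mem_of_pow_mem _ hb hm
  have h3 := h1 _ h2
  rw [map_pow, wr_pow_pow p r hq v ht hρ] at h3
  by_contra hcon
  push Not at hcon
  exact h3.not_ge (one_le_pow₀ hcon)

include ht hφ hΘ hη in
/-- If the norms of the elements of the maximal ideal are less than one for one radius, then they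
are so for all radii. -/
theorem path_all (hdiv : ∀ (x : Γ) (n : ℕ), 0 < n → ∃ y, y ^ n = x) (gen : Finset B)
    (hgen : Algebra.adjoin k (gen : Set B) = ⊤) (ν : B →ₐ[k] k) (hν : ∀ b ∈ gen, ν b = 0)
    (hiso : ∀ b, ν b = 0 → ∃ n, b ^ n ∈ Ideal.span {x : B | ∃ i b', x = η i b' - b'})
    {ρ₁ : Γ} (hρ₁ : ρ₁ ≠ 0) (h1 : ∀ b ∈ gen, wr p r hq v hρ₁ (Θ b) < 1) {ρ : Γ} (hρ : ρ ≠ 0)
    (b : B) (hb : ν b = 0) : wr p r hq v hρ (Θ b) < 1 := by
  classical
  have hq0 : 0 < p ^ r := by omega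
  refine wr_max_lt p r hq φ v ht hφ Θ hΘ hgen ν hν hρ ?_ b hb
  choose P hP hPΘ using fun b : B => exists_rep (K := RatFunc K) hq _ (Θ b)
  set s : Finset (B × ℕ) := gen ×ˢ Finset.range (p ^ r) with hs
  set F : B × ℕ → K[X] := fun x => numP (p ^ r) t ((P x.1).coeff x.2) x.2 with hF
  set G : B × ℕ → K[X] := fun x => denP (p ^ r) ((P x.1).coeff x.2) x.2 with hG
  have hG0 : ∀ x, G x ≠ 0 := fun x => denP_ne_zero hq0 _ _
  have hsp : ∀ Q : B × ℕ → Prop, (∀ x ∈ s, Q x) ↔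
      ∀ b ∈ gen, ∀ i ∈ Finset.range (p ^ r), Q (b, i) := by
    intro Q
    rw [hs]
    constructor
    · intro h b hb i hi
      exact h (b, i) (Finset.mem_product.2 ⟨hb, hi⟩)
    · rintro h ⟨b, i⟩ hx
      exact h b (Finset.mem_product.1 hx).1 i (Finset.mem_product.1 hx).2
  have hlt : ∀ {ρ : Γ} (hρ : ρ ≠ 0), (∀ b ∈ gen, wr p r hq v hρ (Θ b) < 1) ↔
      ∀ x ∈ s, gn v ρ (F x) < gn v ρ (G x) := by
    intro ρ hρ
    rw [hsp]
    refine forall₂_congr fun b hb => ?_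
    rw [← hPΘ b, wr_lt_one_iff p r hq v hρ (hP b)]
    refine forall₂_congr fun i hi => ?_
    rw [gr_mul_mu v hq0 hρ, div_lt_one₀ (zero_lt_iff.2 (gn_ne_zero v hρ (hG0 (b, i))))]
  have hle : ∀ {ρ : Γ} (hρ : ρ ≠ 0), (∀ b ∈ gen, wr p r hq v hρ (Θ b) ≤ 1) ↔
      ∀ x ∈ s, gn v ρ (F x) ≤ gn v ρ (G x) := by
    intro ρ hρ
    rw [hsp]
    refine forall₂_congr fun b hb => ?_
    rw [← hPΘ b, wr_le_one_iff p r hq v hρ (hP b)]
    refine forall₂_congr fun i hi => ?_
    rw [gr_mul_mu v hq0 hρ, div_le_one₀ (zero_lt_iff.2 (gn_ne_zero v hρ (hG0 (b, i))))]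
  refine (hlt hρ).2 ?_
  refine ivt_pol v s F G hdiv (fun x _ => hG0 x) ?_ hρ₁ ((hlt hρ₁).1 h1) hρ
  intro x hx hx'
  rw [← hle hx] at hx'
  refine (hlt hx).1 fun b hb => ?_
  obtain ⟨n, hn⟩ := hiso b (hν b hb)
  exact wr_fix_lt p r hq φ v ht hφ Θ hΘ η γ hγ hη hgen hx hx' hn

end pathB

end Run7.h99
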