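import Pool.Agent.H19VF.Defs

/-! # Points with values in finite products -/

set_option autoImplicit false

open AlgebraicGeometry CategoryTheory Limits Polynomial Pool.Agent.H19VF

universe u

namespace Run7.h99

variable {k : Type u} [Field k] {V : Scheme.{u}} {π : V ⟶ Spec (.of k)}

/-- A point with values in a finite product is determined by its components. -/
theorem pt_pi {ι : Type u} [Finite ι] {R : Type u} [CommRing R] [Algebra k R]
    (P Q : Pt π (ι → R)) (h : ∀ i, P.map (Pi.evalAlgHom k (fun _ : ι => R) i) =
      Q.map (Pi.evalAlgHom k (fun _ : ι => R) i)) : P = Q := by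
  apply Pt.ext
  have hiso : IsIso (sigmaSpec (fun _ : ι => CommRingCat.of R)) := inferInstance
  have h1 : sigmaSpec (fun _ : ι => CommRingCat.of R) ≫ P.1 =
      sigmaSpec (fun _ : ι => CommRingCat.of R) ≫ Q.1 := by
    apply Sigma.hom_ext
    intro i
    rw [ι_sigmaSpec_assoc, ι_sigmaSpec_assoc]
    exact congrArg Subtype.val (h i)
  exact (cancel_epi _).1 h1

end Run7.h99
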