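import Pool.Agent.Run7.h99.AlgN2
import Pool.Agent.Run7.h99.PathB
import Pool.Agent.Run7.h99.PtPi

/-! # The deformed curve as a point over the Artin-Schreier algebra -/

set_option autoImplicit false

open AlgebraicGeometry CategoryTheory Polynomial Pool.Agent.H19VF

universe u

namespace Run7.h99

instance charP_LSer {k : Type u} [Field k] (p : ℕ) [CharP k p] : CharP (LSer k) p :=
  charP_of_injective_algebraMap (algebraMap k (LSer k)).injective p

section

variable {F : Type} [Field F] [Fintype F] {k : Type u} [Field k] [Algebra F k]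
  (p : ℕ) [hp : Fact p.Prime] [CharP k p] (r : ℕ) (hq : Fintype.card F = p ^ r)

/-- The function defining the Artin-Schreier cover. -/
noncomputable abbrev AA (k : Type u) [Field k] (q : ℕ) : RatFunc (LSer k) :=
  AR q (LSer.T 1 : LSer k)

theorem Emb_AA (k : Type u) [Field k] (q : ℕ) (hq : 0 < q) :
    Emb k (AA k q) = LSer.T q * LSer.C (cR k q) := by
  unfold AA AR eR
  have hX : polR (κ := k) X ≠ 0 := Dne X_ne_zero
  have hCX : (LSer.C (polR (X : k[X]))) ≠ 0 := (_root_.map_ne_zero LSer.C).2 hX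
  rw [map_mul, map_pow, map_div₀, map_mul, map_add, map_one, Emb_X, Emb_C, embC, LSer.map_T]
  unfold cR
  rw [map_div₀, map_pow, map_pow, map_add, map_one, map_add, map_one, div_pow, mul_pow, LSer.T_pow,
    one_mul]
  obtain ⟨n, rfl⟩ := Nat.exists_eq_succ_of_ne_zero hq.ne'
  rw [Nat.succ_sub_one, Nat.succ_eq_add_one, pow_succ (LSer.C (polR (X : k[X]))) n]
  field_simp

theorem Y_eq {q : ℕ} (hq : 0 < q) {y : PowerSeries (RatFunc k)}
    (hy : y ^ q - y = PowerSeries.X ^ q * PowerSeries.C (cR k q)) :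
    LSer.ofPS y ^ q = LSer.ofPS y + Emb k (AA k q) := by
  have h := congrArg LSer.ofPS hy
  rw [map_sub, map_pow, map_mul, map_pow, LSer.ofPS_X, LSer.ofPS_C, LSer.T_pow, one_mul] at h
  rw [Emb_AA k q hq]
  linear_combination h

theorem ofPS_algebraMap (γ : F) : LSer.ofPS (algebraMap F (PowerSeries (RatFunc k)) γ) =
    algebraMap F (LSer (RatFunc k)) γ := by
  rw [PowerSeries.algebraMap_apply, LSer.ofPS_C, LSer.algebraMap_eq]

theorem Emb_algebraMap_F (γ : F) : Emb k (algebraMap F (RatFunc (LSer k)) γ) =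
    algebraMap F (LSer (RatFunc k)) γ := by
  have h1 : algebraMap F (RatFunc (LSer k)) γ =
      algebraMap k (RatFunc (LSer k)) (algebraMap F k γ) := by
    rw [IsScalarTower.algebraMap_apply F (LSer k)[X] (RatFunc (LSer k)),
      IsScalarTower.algebraMap_apply k (LSer k)[X] (RatFunc (LSer k))]
    rfl
  rw [h1, Emb_algebraMap, LSer.algebraMap_eq, LSer.algebraMap_eq]
  rw [IsScalarTower.algebraMap_apply F k (RatFunc k)]

section psi

variable (y : PowerSeries (RatFunc k))
  (hy : y ^ p ^ r - y = PowerSeries.X ^ p ^ r * PowerSeries.C (cR k (p ^ r)))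

theorem branch_eq (hq1 : 1 < p ^ r) (γ : F) (hq : Fintype.card F = p ^ r)
    (hy : y ^ p ^ r - y = PowerSeries.X ^ p ^ r * PowerSeries.C (cR k (p ^ r))) :
    (LSer.ofPS y + algebraMap F (LSer (RatFunc k)) γ) ^ p ^ r =
      (LSer.ofPS y + algebraMap F (LSer (RatFunc k)) γ) + Emb k (AA k (p ^ r)) := by
  have : CharP (LSer (RatFunc k)) p := inferInstance
  rw [add_pow_char_pow, Y_eq (by omega) hy, ← hq, ← map_pow, FiniteField.pow_card]
  ring

theorem psi_root (hq1 : 1 < p ^ r) (hq : Fintype.card F = p ^ r)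
    (hy : y ^ p ^ r - y = PowerSeries.X ^ p ^ r * PowerSeries.C (cR k (p ^ r))) (γ : F) :
    eval₂ (Emb k) (LSer.ofPS y + algebraMap F (LSer (RatFunc k)) γ)
      (asP (p ^ r) (AA k (p ^ r))) = 0 := by
  unfold asP
  rw [eval₂_sub, eval₂_pow, eval₂_add, eval₂_X, eval₂_C,
    branch_eq (F := F) p r y hq1 γ hq hy, sub_self]

/-- The branches of the Artin-Schreier cover. -/
noncomputable def Psi (hq1 : 1 < p ^ r) (hq : Fintype.card F = p ^ r)
    (hy : y ^ p ^ r - y = PowerSeries.X ^ p ^ r * PowerSeries.C (cR k (p ^ r))) (γ : F) :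
    AdjoinRoot (asP (p ^ r) (AA k (p ^ r))) →ₐ[k] LSer (RatFunc k) :=
  AlgHom.mk (AdjoinRoot.lift (Emb k) (LSer.ofPS y + algebraMap F (LSer (RatFunc k)) γ)
    (psi_root p r y hq1 hq hy γ)) (by
    intro a
    have h : algebraMap k (AdjoinRoot (asP (p ^ r) (AA k (p ^ r)))) a =
        AdjoinRoot.of _ (algebraMap k (RatFunc (LSer k)) a) := rfl
    rw [h]
    change AdjoinRoot.lift _ _ _ _ = _
    rw [AdjoinRoot.lift_of, Emb_algebraMap])

variable (hq1 : 1 < p ^ r) (hq : Fintype.card F = p ^ r)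

theorem Psi_mk (γ : F) (P : (RatFunc (LSer k))[X]) : Psi p r y hq1 hq hy γ (AdjoinRoot.mk _ P) =
    P.eval₂ (Emb k) (LSer.ofPS y + algebraMap F (LSer (RatFunc k)) γ) := by
  exact AdjoinRoot.lift_mk (psi_root p r y hq1 hq hy γ) P

/-- The branches are jointly injective. -/
theorem Psi_inj {g g' : AdjoinRoot (asP (p ^ r) (AA k (p ^ r)))}
    (h : ∀ γ : F, Psi p r y hq1 hq hy γ g = Psi p r y hq1 hq hy γ g') : g = g' := by
  obtain ⟨P, hP, rfl⟩ := exists_rep hq1 _ g
  obtain ⟨P', hP', rfl⟩ := exists_rep hq1 _ g'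
  congr 1
  apply Polynomial.map_injective (Emb k) (Emb_inj k)
  have : FaithfulSMul F (LSer (RatFunc k)) := by
    rw [faithfulSMul_iff_algebraMap_injective]
    exact (algebraMap F (LSer (RatFunc k))).injective
  apply interp_ext (F := F) (LSer.ofPS y)
  · rw [natDegree_map, hq]
    exact hP
  · rw [natDegree_map, hq]
    exact hP'
  · intro γ
    have := h γ
    rw [Psi_mk, Psi_mk, ← Polynomial.eval_map, ← Polynomial.eval_map] at this
    exact this

theorem Psi_asTr (γ δ : F) (hδ : algebraMap F (RatFunc (LSer k)) δ ^ p ^ r =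
    algebraMap F (RatFunc (LSer k)) δ) (g : AdjoinRoot (asP (p ^ r) (AA k (p ^ r)))) :
    Psi p r y hq1 hq hy γ (asTr p r _ (algebraMap F (RatFunc (LSer k)) δ) hδ g) =
      Psi p r y hq1 hq hy (γ + δ) g := by
  obtain ⟨P, rfl⟩ := AdjoinRoot.mk_surjective g
  rw [asTr_mk, Psi_mk, Psi_mk, eval₂_comp, eval₂_add, eval₂_X, eval₂_C, Emb_algebraMap_F, map_add]
  congr 1
  ring

variable {B : Type u} [CommRing B] [Algebra k B] (θ : B →ₐ[k] PowerSeries (RatFunc k))
  (η : F → B →ₐ[k] B) (h : B → RatFunc (LSer k)) (hN : ∀ b, Emb k (h b) = LSer.ofPS (NmA η y θ b))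
  (hη : ∀ γ δ b, η (γ + δ) b = η γ (η δ b))

/-- The function on the cover. -/
noncomputable def ThK (b : B) : AdjoinRoot (asP (p ^ r) (AA k (p ^ r))) :=
  AdjoinRoot.mk _ (ipol 0 fun γ : F => h (η γ b))

include hN hη in
theorem Psi_ThK (γ : F) (b : B) : Psi p r y hq1 hq hy γ (ThK p r η h b) = LSer.ofPS (θ (η γ b)) := by
  have : FaithfulSMul F (PowerSeries (RatFunc k)) := by
    rw [faithfulSMul_iff_algebraMap_injective]
    exact (algebraMap F (PowerSeries (RatFunc k))).injective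
  unfold ThK
  rw [Psi_mk]
  have h1 := Th_eval θ.toRingHom (fun γ => (η γ).toRingHom) y b γ
  rw [Th_eq θ.toRingHom (fun γ => (η γ).toRingHom) y (fun γ δ b => hη γ δ b) b] at h1
  have h2 := congrArg LSer.ofPS h1
  change _ = LSer.ofPS (θ (η γ b)) at h2
  rw [← h2]
  unfold ipol
  rw [eval₂_finsetSum, eval_finsetSum, map_sum]
  refine Finset.sum_congr rfl fun δ _ => ?_
  rw [eval₂_mul, eval₂_C, eval_mul, eval_C, map_mul, hN]
  congr 1
  rw [ell_eval]
  unfold ell
  rw [eval₂_sub, eval₂_one, eval₂_pow, eval₂_sub, eval₂_X, eval₂_C, zero_add, Emb_algebraMap_F,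
    map_sub, map_one, map_pow, map_sub, map_add, zero_add, ofPS_algebraMap, ofPS_algebraMap]

end psi

end

end Run7.h99
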