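import Pool.Agent.Run7.h99.LiftK

/-! # The deformed curve as a point over the Artin-Schreier algebra, part 2 -/

set_option autoImplicit false

open AlgebraicGeometry CategoryTheory Polynomial Pool.Agent.H19VF

universe u

namespace Run7.h99

section

variable {F : Type} [Field F] [Fintype F] {k : Type u} [Field k] [Algebra F k]
  (p : ℕ) [hp : Fact p.Prime] [CharP k p] (r : ℕ)
  (y : PowerSeries (RatFunc k))
  (hy : y ^ p ^ r - y = PowerSeries.X ^ p ^ r * PowerSeries.C (cR k (p ^ r)))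
  (hq1 : 1 < p ^ r) (hq : Fintype.card F = p ^ r)
  {B : Type u} [CommRing B] [Algebra k B] (θ : B →ₐ[k] PowerSeries (RatFunc k))
  (η : F → B →ₐ[k] B) (h : B → RatFunc (LSer k)) (hN : ∀ b, Emb k (h b) = LSer.ofPS (NmA η y θ b))
  (hη : ∀ γ δ b, η (γ + δ) b = η γ (η δ b))

/-- The homomorphism to the Artin-Schreier algebra. -/
noncomputable def ThAlg (hy : y ^ p ^ r - y = PowerSeries.X ^ p ^ r * PowerSeries.C (cR k (p ^ r)))
    (hq1 : 1 < p ^ r) (hq : Fintype.card F = p ^ r)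
    (hN : ∀ b, Emb k (h b) = LSer.ofPS (NmA η y θ b))
    (hη : ∀ γ δ b, η (γ + δ) b = η γ (η δ b)) :
    B →ₐ[k] AdjoinRoot (asP (p ^ r) (AA k (p ^ r))) where
  toFun := ThK p r η h
  map_one' := by
    apply Psi_inj p r y hy hq1 hq
    intro γ
    rw [Psi_ThK p r y hy hq1 hq θ η h hN hη, map_one, map_one, map_one, map_one]
  map_mul' a b := by
    apply Psi_inj p r y hy hq1 hq
    intro γ
    simp only [Psi_ThK p r y hy hq1 hq θ η h hN hη, map_mul]
  map_zero' := by
    apply Psi_inj p r y hy hq1 hq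
    intro γ
    rw [Psi_ThK p r y hy hq1 hq θ η h hN hη, map_zero, map_zero, map_zero, map_zero]
  map_add' a b := by
    apply Psi_inj p r y hy hq1 hq
    intro γ
    simp only [Psi_ThK p r y hy hq1 hq θ η h hN hη, map_add]
  commutes' a := by
    apply Psi_inj p r y hy hq1 hq
    intro γ
    simp only [Psi_ThK p r y hy hq1 hq θ η h hN hη, AlgHom.commutes]
    exact (LSer.ofPSa k).commutes a

theorem ThAlg_apply (b : B) : ThAlg p r y θ η h hy hq1 hq hN hη b = ThK p r η h b := rfl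

theorem Psi_ThAlg (γ : F) : (Psi p r y hq1 hq hy γ).comp (ThAlg p r y θ η h hy hq1 hq hN hη) =
    ((LSer.ofPSa k).comp θ).comp (η γ) := by
  apply AlgHom.ext
  intro b
  exact Psi_ThK p r y hy hq1 hq θ η h hN hη γ b

theorem pow_F (δ : F) (hq : Fintype.card F = p ^ r) : algebraMap F (RatFunc (LSer k)) δ ^ p ^ r =
    algebraMap F (RatFunc (LSer k)) δ := by
  rw [← hq, ← map_pow, FiniteField.pow_card]

/-- The homomorphism is equivariant. -/
theorem ThAlg_equiv (δ : F) (b : B) : ThAlg p r y θ η h hy hq1 hq hN hη (η δ b) =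
    asTr p r _ (algebraMap F (RatFunc (LSer k)) δ) (pow_F p r δ hq)
      (ThAlg p r y θ η h hy hq1 hq hN hη b) := by
  apply Psi_inj p r y hy hq1 hq
  intro γ
  rw [Psi_asTr, ThAlg_apply, ThAlg_apply, Psi_ThK p r y hy hq1 hq θ η h hN hη,
    Psi_ThK p r y hy hq1 hq θ η h hN hη, hη]

/-- All branches together. -/
noncomputable def PsiAll : AdjoinRoot (asP (p ^ r) (AA k (p ^ r))) →ₐ[k]
    (ULift.{u} F → LSer (RatFunc k)) :=
  AlgHom.pi fun i => Psi p r y hq1 hq hy i.down

theorem PsiAll_inj : Function.Injective (PsiAll p r y hy hq1 hq) := by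
  intro g g' hg
  apply Psi_inj p r y hy hq1 hq
  intro γ
  exact congrFun hg (ULift.up γ)

theorem isReduced_as (y : PowerSeries (RatFunc k))
    (hy : y ^ p ^ r - y = PowerSeries.X ^ p ^ r * PowerSeries.C (cR k (p ^ r)))
    (hq1 : 1 < p ^ r) (hq : Fintype.card F = p ^ r) :
    IsReduced (AdjoinRoot (asP (p ^ r) (AA k (p ^ r)))) :=
  isReduced_of_injective (PsiAll p r y hy hq1 hq) (PsiAll_inj p r y hy hq1 hq)

end

section pts

variable {F : Type} [Field F] [Fintype F] {k : Type u} [Field k] [Algebra F k]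
    {V : Scheme.{u}} {π : V ⟶ Spec (.of k)} [IsSeparated π] {A : Act F π} (D : FD A)
    (p : ℕ) [hp : Fact p.Prime] [CharP k p] (r : ℕ) (hq1 : 1 < p ^ r)
    (hq : Fintype.card F = p ^ r)

omit hp [CharP k p] [Algebra F k] in
theorem coeff_ipol_van {K : Type u} [Field K] [Algebra F K] (s : Option K) (M : ℤ)
    (f : F → RatFunc K) (hf : ∀ γ, Van s M (f γ)) (i : ℕ) : Van s M ((ipol 0 f).coeff i) := by
  unfold ipol
  rw [finsetSum_coeff]
  apply I_van_sum
  intro γ _
  rw [coeff_C_mul, zero_add, mul_comm]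
  apply Dvan_mul_reg (hf γ)
  have e2 : ell F (algebraMap F (RatFunc K) γ) = (ell F γ).map (algebraMap F (RatFunc K)) := by
    unfold ell
    simp
  rw [e2, coeff_map, IsScalarTower.algebraMap_apply F K (RatFunc K)]
  exact I_k_mem s _

include hq1 in
/-- The two charts give the same point over the Artin-Schreier algebra. -/
theorem FD.exists_pts : ∃ (Θa : D.Wa.B →ₐ[k] AdjoinRoot (asP (p ^ r) (AA k (p ^ r))))
    (Θb : D.Wb.B →ₐ[k] AdjoinRoot (asP (p ^ r) (AA k (p ^ r)))),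
    D.Wa.pt.map Θa = D.Wb.pt.map Θb ∧
    (∀ δ b, Θa (D.ηa δ b) = asTr p r _ (algebraMap F (RatFunc (LSer k)) δ) (pow_F p r δ hq)
      (Θa b)) ∧
    (∀ δ b, Θb (D.ηb δ b) = asTr p r _ (algebraMap F (RatFunc (LSer k)) δ) (pow_F p r δ hq)
      (Θb b)) ∧
    (∀ b, D.νa b = 0 → ∃ P : (RatFunc (LSer k))[X], P.natDegree < p ^ r ∧
      Θa b = AdjoinRoot.mk _ P ∧ ∀ i, Van none (p ^ r : ℕ) (P.coeff i)) ∧
    (∀ b, D.νb b = 0 → ∃ P : (RatFunc (LSer k))[X], P.natDegree < p ^ r ∧
      Θb b = AdjoinRoot.mk _ P ∧ ∀ i, Van (some 0) (p ^ r : ℕ) (P.coeff i)) := by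
  have hy := D.hy
  rw [hq] at hy
  choose ha hNa using D.alg_a
  choose hb hNb using D.alg_b
  refine ⟨ThAlg p r D.y D.θa D.ηa ha hy hq1 hq hNa D.acta.add,
    ThAlg p r D.y D.θb D.ηb hb hy hq1 hq hNb D.actb.add, ?_, ?_, ?_, ?_, ?_⟩
  · have hred := isReduced_as p r D.y hy hq1 hq
    apply Pt.map_injective (PsiAll p r D.y hy hq1 hq) (PsiAll_inj p r D.y hy hq1 hq)
    apply pt_pi
    intro i
    rw [Pt.map_map, Pt.map_map, Pt.map_map, Pt.map_map]
    have e1 : ((Pi.evalAlgHom k (fun _ : ULift.{u} F => LSer (RatFunc k)) i).comp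
        (PsiAll p r D.y hy hq1 hq)) = Psi p r D.y hq1 hq hy i.down := rfl
    have e2 := Psi_ThAlg p r D.y hy hq1 hq D.θa D.ηa ha hNa D.acta.add i.down
    have e3 := Psi_ThAlg p r D.y hy hq1 hq D.θb D.ηb hb hNb D.actb.add i.down
    rw [e1, e2, e3]
    exact act_same A D.Wa D.Wb D.ηa D.ηb D.acta D.actb D.φa D.φb D.same' i.down
  · intro δ b
    exact ThAlg_equiv p r D.y hy hq1 hq D.θa D.ηa ha hNa D.acta.add δ b
  · intro δ b
    exact ThAlg_equiv p r D.y hy hq1 hq D.θb D.ηb hb hNb D.actb.add δ b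
  · intro b hb0
    refine ⟨ipol 0 fun γ : F => ha (D.ηa γ b), ?_, rfl, ?_⟩
    · have := ipol_natDegree (F := F) (0 : RatFunc (LSer k)) fun γ : F => ha (D.ηa γ b)
      rwa [hq] at this
    · apply coeff_ipol_van
      intro γ
      apply van_none
      intro i
      rw [hNa]
      unfold FD.Na
      rw [LSer.coeff_ofPS]
      split_ifs
      · have := D.vana (D.ηa γ b) i.toNat
        rwa [D.fixa, hb0, map_zero, sub_zero, hq] at this
      · exact I_van_zero
  · intro b hb0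
    refine ⟨ipol 0 fun γ : F => hb (D.ηb γ b), ?_, rfl, ?_⟩
    · have := ipol_natDegree (F := F) (0 : RatFunc (LSer k)) fun γ : F => hb (D.ηb γ b)
      rwa [hq] at this
    · apply coeff_ipol_van
      intro γ
      apply van_zero
      intro i
      rw [hNb]
      unfold FD.Nb
      rw [LSer.coeff_ofPS]
      split_ifs
      · have := D.vanb (D.ηb γ b) i.toNat
        rwa [D.fixb, hb0, map_zero, sub_zero, hq] at this
      · exact I_van_zero

end pts

end Run7.h99
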