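import Pool.Agent.Run7.h99.Causal

/-! # The local lemma -/

set_option autoImplicit false

open Polynomial Pool.Agent.H19VF

universe u

namespace Run7.h99

theorem der_zero {A B M : Type*} [CommRing A] [CommRing B] [Algebra A B]
    [Algebra.FormallyUnramified A B] [AddCommGroup M] [Module B M] (D : B →+ M)
    (hD : ∀ b b', D (b * b') = b • D b' + b' • D b) (hA : ∀ a : A, D (algebraMap A B a) = 0)
    (b : B) : D b = 0 := by
  let _ : Module A M := Module.compHom M (algebraMap A B)
  have : IsScalarTower A B M := ⟨fun a b m => by rw [Algebra.smul_def, mul_smul]; rfl⟩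
  let D' : Derivation A B M := Derivation.mk'
    { toFun := D
      map_add' := map_add D
      map_smul' := fun a b => by
        rw [Algebra.smul_def, hD, hA, smul_zero, add_zero]
        rfl } (fun a b => hD a b)
  have h1 : Subsingleton (Ω[B⁄A]) := inferInstance
  have h2 : D' b = D'.liftKaehlerDifferential (KaehlerDifferential.D A B b) :=
    (Derivation.liftKaehlerDifferential_comp_D D' b).symm
  have h3 : D' b = 0 := by
    rw [h2, Subsingleton.elim (KaehlerDifferential.D A B b) 0, map_zero]
  exact h3

/-- Derivations modulo an additive subgroup. -/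
theorem der_mod {k : Type u} [Field k] {n : ℕ} {B L : Type u} [CommRing B] [Algebra k B] [Field L]
    (z : Fin n → B) (hz : IsEtaleCoord k z) (f : B →+* L) (S : AddSubgroup L)
    (hS : ∀ b, ∀ x ∈ S, f b * x ∈ S) (D : B →+ L)
    (hD : ∀ b b', D (b * b') - (f b * D b' + f b' * D b) ∈ S) (hk : ∀ c, D (algebraMap k B c) ∈ S)
    (hDz : ∀ j, D (z j) ∈ S) (b : B) : D b ∈ S := by
  let _ : Algebra B L := f.toAlgebra
  let N : Submodule B L :=
    { S with
      smul_mem' := fun b x hx => hS b x hx }
  let _ : Algebra (MvPolynomial (Fin n) k) B :=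
    (MvPolynomial.aeval z : MvPolynomial (Fin n) k →ₐ[k] B).toRingHom.toAlgebra
  have het : Algebra.Etale (MvPolynomial (Fin n) k) B := hz
  let D' : B →+ L ⧸ N := (N.mkQ : L →+ L ⧸ N).comp D
  have hD' : ∀ b b', D' (b * b') = b • D' b' + b' • D' b := by
    intro b b'
    have h1 : N.mkQ (D (b * b')) = N.mkQ (f b * D b' + f b' * D b) := by
      rw [← sub_eq_zero, ← map_sub]
      exact (Submodule.Quotient.mk_eq_zero N).2 (hD b b')
    change N.mkQ (D (b * b')) = b • N.mkQ (D b') + b' • N.mkQ (D b)
    have e : ∀ (c : B) (x : L), c • N.mkQ x = N.mkQ (f c * x) := fun c x =>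
      (map_smul N.mkQ c x).symm
    rw [h1, map_add, e, e]
  have hA : ∀ a : MvPolynomial (Fin n) k, D' (algebraMap _ B a) = 0 := by
    intro a
    change D' (MvPolynomial.aeval z a) = 0
    induction a using MvPolynomial.induction_on with
    | C a =>
      rw [MvPolynomial.aeval_C]
      exact (Submodule.Quotient.mk_eq_zero N).2 (hk a)
    | add p q hp hq => rw [map_add, map_add, hp, hq, add_zero]
    | mul_X p j hp =>
      rw [map_mul, hD', hp, smul_zero, add_zero, MvPolynomial.aeval_X]
      have h2 : D' (z j) = 0 := (Submodule.Quotient.mk_eq_zero N).2 (hDz j)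
      rw [h2, smul_zero]
  have h3 := der_zero (A := MvPolynomial (Fin n) k) D' hD' hA b
  exact (Submodule.Quotient.mk_eq_zero N).1 h3

end Run7.h99
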