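import Pool.Agent.H19VF.D_Cousin

/-! # The formal solution of the Artin-Schreier equation -/

set_option autoImplicit false

open Polynomial Pool.Agent.H19VF

universe u

namespace Run7.h99

theorem exists_y {L : Type u} [Field L] (O : Subring L) (c : L) (hc : c ∈ O) (q : ℕ) (hq : 1 < q) :
    ∃ y : PowerSeries L, y ^ q - y = PowerSeries.X ^ q * PowerSeries.C c ∧
      PowerSeries.X ∣ y ∧ ∀ i, PowerSeries.coeff i y ∈ O := by
  let c' : O := ⟨c, hc⟩
  let N : (Unit → PowerSeries O) → (Unit → PowerSeries O) := fun u i =>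
    PowerSeries.X ^ (q - 1) * (u i ^ q - PowerSeries.C c')
  obtain ⟨u, hu⟩ := fixed_point N (by
    intro m a b h i
    have e : N a i - N b i = PowerSeries.X ^ (q - 1) * (a i ^ q - b i ^ q) := by
      simp only [N]
      ring
    rw [e, pow_succ' _ m]
    exact mul_dvd_mul (dvd_pow_self _ (by omega)) ((h i).trans (sub_dvd_pow_sub_pow _ _ _)))
  have hu' := congrFun hu ()
  simp only [N] at hu'
  set y' : PowerSeries O := PowerSeries.X * u () with hy'
  have hy : y' ^ q - y' = PowerSeries.X ^ q * PowerSeries.C c' := by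
    have h1 : PowerSeries.X ^ q = (PowerSeries.X : PowerSeries O) * PowerSeries.X ^ (q - 1) := by
      rw [← pow_succ']
      congr 1
      omega
    have h2 : y' = PowerSeries.X * (PowerSeries.X ^ (q - 1) * (u () ^ q - PowerSeries.C c')) := by
      rw [hy', hu']
    conv_lhs => 
      rhs
      rw [h2]
    rw [hy', mul_pow, h1]
    ring
  refine ⟨PowerSeries.map O.subtype y', ?_, ?_, ?_⟩
  · rw [← map_pow, ← map_sub, hy, map_mul, map_pow, PowerSeries.map_X, PowerSeries.map_C]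
    rfl
  · refine ⟨PowerSeries.map O.subtype (u ()), ?_⟩
    rw [hy', map_mul, PowerSeries.map_X]
  · intro i
    rw [PowerSeries.coeff_map]
    exact (PowerSeries.coeff i y').2

/-- The function `(X + 1) ^ q / X ^ (q - 1)`. -/
noncomputable def cR (κ : Type u) [Field κ] (q : ℕ) : RatFunc κ :=
  polR (X + 1) ^ q / polR X ^ (q - 1)

theorem cR_mem (κ : Type u) [Field κ] (q : ℕ) : cR κ q ∈ regOff {(0 : κ)} := by
  refine ⟨(X + 1) ^ q, q - 1, ?_⟩
  unfold cR
  rw [Finset.prod_singleton, C_0, sub_zero, map_pow, div_mul_cancel₀]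
  exact pow_ne_zero _ (Dne X_ne_zero)

theorem cR_van_zero (κ : Type u) [Field κ] (q : ℕ) (hq : 1 < q) :
    Van (some (0 : κ)) (-(q : ℤ)) (cR κ q) := by
  have h : Van (some (0 : κ)) (-((q - 1 : ℕ) : ℤ)) (cR κ q) := by
    refine ⟨(X + 1) ^ q, 1, by simp, ?_⟩
    rw [neg_neg, zpow_natCast]
    unfold cR
    change _ / _ * (polR (X - C 0)) ^ (q - 1) * _ = _
    rw [C_0, sub_zero, div_mul_cancel₀ _ (pow_ne_zero _ (Dne X_ne_zero)), map_one, mul_one,
      map_pow]
  exact h.mono (by omega)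

theorem cR_van_none (κ : Type u) [Field κ] (q : ℕ) (hq : 1 < q) :
    Van (none : Option κ) (-(q : ℤ)) (cR κ q) := by
  refine ⟨(X + 1) ^ q, X ^ (q - 1) * X ^ q, ?_, ?_, ?_⟩
  · exact mul_ne_zero (pow_ne_zero _ X_ne_zero) (pow_ne_zero _ X_ne_zero)
  · rw [← pow_add, natDegree_X_pow, natDegree_pow, ← C_1, natDegree_X_add_C]
    omega
  · rw [neg_neg, zpow_natCast]
    unfold cR
    change _ / _ * ((polR X)⁻¹) ^ q * _ = _
    have hX : polR (κ := κ) X ≠ 0 := Dne X_ne_zero
    rw [map_mul, map_pow, map_pow, map_pow, inv_pow]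
    field_simp

theorem regOff_zero_le_regAt {κ : Type u} [Field κ] {s : κ} (hs : s ≠ 0) {g : RatFunc κ}
    (hg : g ∈ regOff {(0 : κ)}) : g ∈ regAt (some s) := by
  obtain ⟨p, N, h⟩ := hg
  rw [Finset.prod_singleton, C_0, sub_zero, ← map_pow] at h
  refine ⟨p, X ^ N, ?_, h⟩
  rw [eval_pow, eval_X]
  exact pow_ne_zero _ hs

end Run7.h99
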