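import Pool.Agent.Run7.h99.Local
import Pool.Agent.Run7.h99.Ysol

/-! # The local lemma, part 2 -/

set_option autoImplicit false

open Polynomial Pool.Agent.H19VF

universe u

namespace Run7.h99

theorem Van.mul_self {κ : Type u} [Field κ] {s : Option κ} {M : ℕ} {g g' : RatFunc κ}
    (h : Van s M g) (h' : Van s M g') : Van s (2 * M : ℤ) (g * g') := by
  have := Pool.Agent.H19VF.Van.mul h h'
  rwa [← two_mul] at this

section loc

variable {k : Type u} [Field k] {B : Type u} [CommRing B] [Algebra k B]
  {F : Type*} [Field F] [Fintype F] [Algebra F k] (η : F → B →ₐ[k] B)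
  (Φ : B →ₐ[k] PowerSeries (RatFunc k)) (y : PowerSeries (RatFunc k))

theorem algebraMap_F_mem (s : Option k) (c : F) : algebraMap F (RatFunc k) c ∈ regAt s := by
  rw [IsScalarTower.algebraMap_apply F k (RatFunc k)]
  exact I_k_mem s _

/-- The polynomial `Th` for the lift. -/
noncomputable def ThA (b : B) : (PowerSeries (RatFunc k))[X] :=
  Th Φ.toRingHom (fun γ => (η γ).toRingHom) y b

theorem ThA_add (b b' : B) : ThA η Φ y (b + b') = ThA η Φ y b + ThA η Φ y b' := Th_add _ _ _ _ _

theorem ThA_natDegree (b : B) : (ThA η Φ y b).natDegree < Fintype.card F := Th_natDegree _ _ _ _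

theorem ThA_algebraMap (c : k) : ThA η Φ y (algebraMap k B c) =
    C (algebraMap k (PowerSeries (RatFunc k)) c) := by
  have : FaithfulSMul F (PowerSeries (RatFunc k)) := by
    rw [faithfulSMul_iff_algebraMap_injective]
    exact (algebraMap F (PowerSeries (RatFunc k))).injective
  apply interp_ext (F := F) y
  · exact ThA_natDegree _ _ _ _
  · rw [natDegree_C]
    exact Fintype.card_pos
  · intro γ
    have h := Th_eval Φ.toRingHom (fun γ => (η γ).toRingHom) y (algebraMap k B c) γ
    change (Th _ _ _ _).eval _ = _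
    rw [h, eval_C]
    change Φ (η γ (algebraMap k B c)) = _
    rw [AlgHom.commutes, AlgHom.commutes]

theorem ThA_coeff_sub (ν : B →ₐ[k] k) (b : B) {u : ℕ} (hu : u ≠ 0) : (ThA η Φ y b).coeff u =
    (ThA η Φ y (b - algebraMap k B (ν b))).coeff u := by
  have h : ThA η Φ y b = ThA η Φ y (b - algebraMap k B (ν b)) +
      C (algebraMap k (PowerSeries (RatFunc k)) (ν b)) := by
    rw [← ThA_algebraMap η Φ y, ← ThA_add, sub_add_cancel]
  rw [h, coeff_add, coeff_C, if_neg hu, add_zero]

variable (hη : ∀ γ δ b, η (γ + δ) b = η γ (η δ b))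

include hη in
theorem ThA_coeff (b : B) (u v : ℕ) : PowerSeries.coeff v ((ThA η Φ y b).coeff u) =
    ∑ γ : F, PowerSeries.coeff v (NmA η y Φ (η γ b)) *
      algebraMap F (RatFunc k) ((ell F γ).coeff u) := by
  have : FaithfulSMul F (PowerSeries (RatFunc k)) := by
    rw [faithfulSMul_iff_algebraMap_injective]
    exact (algebraMap F (PowerSeries (RatFunc k))).injective
  have h := Th_eq Φ.toRingHom (fun γ => (η γ).toRingHom) y
    (fun γ δ b => hη γ δ b) b
  change PowerSeries.coeff v ((Th _ _ _ _).coeff u) = _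
  rw [h]
  unfold ipol
  rw [finsetSum_coeff, map_sum]
  refine Finset.sum_congr rfl fun γ _ => ?_
  rw [coeff_C_mul, zero_add]
  have e : (ell F (algebraMap F (PowerSeries (RatFunc k)) γ)).coeff u =
      PowerSeries.C (algebraMap F (RatFunc k) ((ell F γ).coeff u)) := by
    have e2 : ell F (algebraMap F (PowerSeries (RatFunc k)) γ) =
        (ell F γ).map (algebraMap F (PowerSeries (RatFunc k))) := by
      unfold ell
      simp
    rw [e2, coeff_map, PowerSeries.algebraMap_apply]
  rw [e, PowerSeries.coeff_mul_C]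
  rfl

variable (ν : B →ₐ[k] k) (hν : ∀ γ b, ν (η γ b) = ν b) (s : Option k) (M : ℕ)
  (hη0 : ∀ b, η 0 b = b) (hyX : PowerSeries.X ∣ y)
  (hf : ∀ b, Van s M (PowerSeries.constantCoeff (Φ b) - polR (C (ν b))))

include hη hν hη0 hyX hf in
theorem ThA_van (i : ℕ) (hi : ∀ v, 1 ≤ v → v < i → ∀ b, Van s M (PowerSeries.coeff v (NmA η y Φ b)))
    (b : B) (hb : ν b = 0) (u v : ℕ) (hv : v < i) :
    Van s M (PowerSeries.coeff v ((ThA η Φ y b).coeff u)) := by
  rw [ThA_coeff η Φ y hη]
  apply I_van_sum
  intro γ _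
  rw [mul_comm]
  apply Dvan_mul_reg _ (algebraMap_F_mem s _)
  rcases Nat.eq_zero_or_pos v with rfl | hv0
  · rw [PowerSeries.coeff_zero_eq_constantCoeff_apply, NmA_const η y hyX hη0]
    have h := hf (η γ b)
    rwa [hν, hb, C_0, map_zero, sub_zero] at h
  · exact hi v hv0 hv _

variable (p : ℕ) [hp : Fact p.Prime] [CharP k p] (r : ℕ) (hq : Fintype.card F = p ^ r)
  (c : RatFunc k) (hy : y ^ Fintype.card F - y = PowerSeries.X ^ Fintype.card F * PowerSeries.C c)
  (hc : Van s (-(M : ℤ)) c)

include hη hν hη0 hyX hf hq hy hc p in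
theorem leibniz_mod (i : ℕ) (hi1 : 1 ≤ i)
    (hi : ∀ v, 1 ≤ v → v < i → ∀ b, Van s M (PowerSeries.coeff v (NmA η y Φ b))) (b b' : B) :
    Van s M (PowerSeries.coeff i (NmA η y Φ (b * b')) -
      (PowerSeries.constantCoeff (Φ b) * PowerSeries.coeff i (NmA η y Φ b') +
        PowerSeries.constantCoeff (Φ b') * PowerSeries.coeff i (NmA η y Φ b))) := by
  have : FaithfulSMul F (PowerSeries (RatFunc k)) := by
    rw [faithfulSMul_iff_algebraMap_injective]
    exact (algebraMap F (PowerSeries (RatFunc k))).injective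
  have : CharP (PowerSeries (RatFunc k)) p :=
    charP_of_injective_algebraMap (algebraMap k (PowerSeries (RatFunc k))).injective p
  have hmul : NmA η y Φ (b * b') = NmA η y Φ b * NmA η y Φ b' +
      (y ^ Fintype.card F - y) * (ThA η Φ y b * ThA η Φ y b').coeff (Fintype.card F) :=
    Nm_mul Φ.toRingHom (fun γ => (η γ).toRingHom) y p r hq b b'
  rw [hmul, hy, map_add]
  have key : ∀ x : PowerSeries (RatFunc k), ∃ A : PowerSeries (RatFunc k),
      x = PowerSeries.C (PowerSeries.constantCoeff x) + PowerSeries.X * A ∧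
        ∀ u, PowerSeries.coeff u A = PowerSeries.coeff (u + 1) x := by
    intro x
    refine ⟨PowerSeries.mk fun u => PowerSeries.coeff (u + 1) x, ?_, fun u => by
      rw [PowerSeries.coeff_mk]⟩
    ext u
    cases u with
    | zero => simp
    | succ u =>
      rw [map_add, PowerSeries.coeff_succ_X_mul, PowerSeries.coeff_mk, PowerSeries.coeff_C]
      simp
  obtain ⟨A, hA, hA'⟩ := key (NmA η y Φ b)
  obtain ⟨A', hB, hB'⟩ := key (NmA η y Φ b')
  rw [NmA_const η y hyX hη0] at hA hB
  have e1 : NmA η y Φ b * NmA η y Φ b' =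
      PowerSeries.C (PowerSeries.constantCoeff (Φ b)) * NmA η y Φ b' +
      PowerSeries.C (PowerSeries.constantCoeff (Φ b')) * NmA η y Φ b -
      PowerSeries.C (PowerSeries.constantCoeff (Φ b) * PowerSeries.constantCoeff (Φ b')) +
      PowerSeries.X ^ 2 * (A * A') := by
    rw [hA, hB, map_mul]
    ring
  rw [e1, map_add, map_sub, map_add, PowerSeries.coeff_C_mul, PowerSeries.coeff_C_mul,
    PowerSeries.coeff_C, if_neg (by omega)]
  have e2 : ∀ a₁ a₂ a₃ a₄ : RatFunc k, a₁ + a₂ - 0 + a₃ + a₄ - (a₁ + a₂) = a₃ + a₄ := by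
    intro a₁ a₂ a₃ a₄
    ring
  rw [e2]
  apply Pool.Agent.H19VF.Van.add
  · rw [PowerSeries.coeff_X_pow_mul']
    split_ifs with h2
    · rw [PowerSeries.coeff_mul]
      apply I_van_sum
      rintro ⟨u, v⟩ huv
      rw [Finset.HasAntidiagonal.mem_antidiagonal] at huv
      simp only at huv ⊢
      rw [hA', hB']
      refine (Van.mul_self (hi (u + 1) (by omega) (by omega) b)
        (hi (v + 1) (by omega) (by omega) b')).mono (by omega)
    · exact I_van_zero
  · rw [mul_assoc, PowerSeries.coeff_X_pow_mul']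
    split_ifs with h2
    · rw [PowerSeries.coeff_C_mul]
      have h3 : Van s (2 * M : ℤ) (PowerSeries.coeff (i - Fintype.card F)
          ((ThA η Φ y b * ThA η Φ y b').coeff (Fintype.card F))) := by
        rw [coeff_mul, map_sum]
        apply I_van_sum
        rintro ⟨u, v⟩ huv
        rw [Finset.HasAntidiagonal.mem_antidiagonal] at huv
        simp only at huv ⊢
        by_cases hu0 : u = 0
        · rw [coeff_eq_zero_of_natDegree_lt (p := ThA η Φ y b')
            ((ThA_natDegree η Φ y b').trans_le (by omega)), mul_zero, map_zero]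
          exact I_van_zero
        by_cases hv0 : v = 0
        · rw [coeff_eq_zero_of_natDegree_lt (p := ThA η Φ y b)
            ((ThA_natDegree η Φ y b).trans_le (by omega)), zero_mul, map_zero]
          exact I_van_zero
        rw [ThA_coeff_sub η Φ y ν b hu0, ThA_coeff_sub η Φ y ν b' hv0, PowerSeries.coeff_mul]
        apply I_van_sum
        rintro ⟨w, w'⟩ hw
        rw [Finset.HasAntidiagonal.mem_antidiagonal] at hw
        simp only at hw ⊢
        have hcard : 0 < Fintype.card F := Fintype.card_pos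
        have hνb : ∀ b : B, ν (b - algebraMap k B (ν b)) = 0 := by
          intro b
          rw [map_sub, AlgHom.commutes, Algebra.algebraMap_self_apply, sub_self]
        exact Van.mul_self
          (ThA_van η Φ y hη ν hν s M hη0 hyX hf i hi _ (hνb b) u w (by omega))
          (ThA_van η Φ y hη ν hν s M hη0 hyX hf i hi _ (hνb b') v w' (by omega))
      exact (Pool.Agent.H19VF.Van.mul hc h3).mono (by omega)
    · exact I_van_zero

variable {n : ℕ} (z : Fin n → B) (hz : IsEtaleCoord k z)
  (hzj : ∀ j i, 1 ≤ i → Van s M (PowerSeries.coeff i (NmA η y Φ (z j))))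

include hη hν hη0 hyX hf hq hy hc hz hzj p in
/-- The local lemma. -/
theorem local_lemma (i : ℕ) (hi1 : 1 ≤ i) (b : B) : Van s M (PowerSeries.coeff i (NmA η y Φ b)) := by
  induction i using Nat.strong_induction_on generalizing b with
  | _ i ih =>
  let S : AddSubgroup (RatFunc k) :=
    { carrier := {g | Van s M g}
      add_mem' := fun h h' => Pool.Agent.H19VF.Van.add h h'
      zero_mem' := I_van_zero
      neg_mem' := fun h => Dvan_neg h }
  let D : B →+ RatFunc k :=
    { toFun := fun b => PowerSeries.coeff i (NmA η y Φ b)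
      map_zero' := by
        have h : NmA η y Φ 0 = 0 := by
          have h2 := Nm_add Φ.toRingHom (fun γ => (η γ).toRingHom) y 0 0
          rw [add_zero] at h2
          exact left_eq_add.1 h2
        rw [h, map_zero]
      map_add' := fun b b' => by
        have h2 : NmA η y Φ (b + b') = NmA η y Φ b + NmA η y Φ b' :=
          Nm_add Φ.toRingHom (fun γ => (η γ).toRingHom) y b b'
        rw [h2, map_add] }
  have hreg : ∀ b, PowerSeries.constantCoeff (Φ b) ∈ regAt s := by
    intro b
    have h1 := van_zero_iff.1 ((hf b).mono (m' := 0) (by positivity))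
    have h2 := (regAt s).add_mem h1 (polR_C_mem s (ν b))
    rwa [sub_add_cancel] at h2
  refine der_mod z hz ((PowerSeries.constantCoeff (R := RatFunc k)).comp Φ.toRingHom) S
    (fun b x hx => Dvan_mul_reg hx (hreg b)) D ?_ ?_ (fun j => hzj j i hi1) b
  · intro b b'
    exact leibniz_mod η Φ y hη ν hν s M hη0 hyX hf p r hq c hy hc i hi1
      (fun v hv hvi b => ih v hvi hv b) b b'
  · intro a
    have h1 : NmA η y Φ (algebraMap k B a) = algebraMap k (PowerSeries (RatFunc k)) a := by
      change (ThA η Φ y (algebraMap k B a)).eval 0 = _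
      rw [ThA_algebraMap, eval_C]
    change Van s M (PowerSeries.coeff i (NmA η y Φ (algebraMap k B a)))
    rw [h1, PowerSeries.algebraMap_apply, PowerSeries.coeff_C, if_neg (by omega)]
    exact I_van_zero

end loc

end Run7.h99
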