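import Pool.Agent.Run7.h99.Tr

/-! # A very free curve through two given points -/

set_option autoImplicit false

open AlgebraicGeometry CategoryTheory Polynomial Pool.Agent.H19VF

universe u

namespace Run7.h99

variable {k : Type u} [Field k] {V : Scheme.{u}} {π : V ⟶ Spec (.of k)}

theorem swap_evk {R : Type u} [CommRing R] [Algebra k R] (x0 : k) :
    (evk x0).comp (S2swapP k R) = dmap (evk x0) := by
  apply AlgHom.ext
  intro x
  have h1 : ∀ p : R[X], evk x0 (pmap (S2inl k R) p) = TrivSqZeroExt.inl (evk x0 p) := by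
    intro p
    have h3 : (evk x0).comp (pmap (S2inl k R)) = (S2inl k R).comp (evk x0) := by
      rw [evk_eq, evk_eq, pe_pmap, pe_comp]
      congr 1
    exact congrArg (fun g : R[X] →ₐ[k] DualNumber R => g p) h3
  have h2 : evk x0 (C (DualNumber.eps : DualNumber R)) = DualNumber.eps := by
    change Polynomial.aeval _ (C DualNumber.eps) = _
    rw [Polynomial.aeval_C]
    rfl
  rw [AlgHom.comp_apply, S2swapP, S2ext_apply, map_add, map_mul, h1, h1, h2]
  ext <;> simp

/-- If the pull back of the tangent bundle is a sum of line bundles of positive degrees, then every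
tangent vector at any point of the line is the value of a section which vanishes at infinity. -/
theorem exists_def_at (F : Crv π k) {n : ℕ} (a : Fin n → ℤ) (h : IsSplit F a)
    (ha : ∀ i, 1 ≤ a i) (x0 : k) (τ : Pt π (DualNumber k))
    (hτ : τ.map (dfst k k) = F.at (some x0)) :
    ∃ G : Crv π (DualNumber k), G.map (dfst k k) = F ∧ G.at (some x0) = τ ∧
      G.at none = (F.at none).map (Algebra.ofId k (DualNumber k)) := by
  obtain ⟨e, e', he, he', hg, hb, -⟩ := h
  have hτ' : τ.map (dfst k k) = F.y.map (evk x0) := hτ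
  obtain ⟨c, ⟨ρ0, hρ0, hρ0c⟩, -⟩ := (hb x0).2 τ hτ'
  obtain ⟨ρ, hρ, hρe⟩ := exists_comb F.y e he
  obtain ⟨ρ', hρ', hρe'⟩ := exists_comb F.w e' he'
  -- the overlap
  have h1 : ρ.map (S2map (lauY k k) n) = (ρ'.map (S2map (lauW k k) n)).map
      (S2scl k (fun i => LaurentPolynomial.T (-(a i)))) := by
    apply comb_unique
    · rw [Pt.map_map, Pt.map_map, Pt.map_map]
      have h2 : (nfst k (LaurentPolynomial k) n).comp (S2map (lauY k k) n) =
          (lauY k k).comp (nfst k k[X] n) := by
        apply AlgHom.ext
        intro x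
        exact S2map_fst _ _ _
      have h3 : ((nfst k (LaurentPolynomial k) n).comp (S2scl k
          (fun i => LaurentPolynomial.T (-(a i))))).comp (S2map (lauW k k) n) =
          (lauW k k).comp (nfst k k[X] n) := by
        apply AlgHom.ext
        intro x
        change (S2scl k (fun i => LaurentPolynomial.T (-(a i))) (S2map (lauW k k) n x)).fst =
          lauW k k x.fst
        rw [S2scl_fst, S2map_fst]
      rw [h2, h3, ← Pt.map_map, ← Pt.map_map, hρ, hρ']
      exact F.glue
    · intro i
      have h2 : ∀ (φ : k[X] →ₐ[k] LaurentPolynomial k),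
          (lin k (Pi.single i (1 : LaurentPolynomial k))).comp (S2map φ n) =
          (dmap φ).comp (lin k (Pi.single i (1 : k[X]))) := by
        intro φ
        rw [S2dmap_lin]
        congr 2
        funext j
        by_cases hj : j = i
        · subst hj
          simp
        · simp [hj]
      rw [Pt.map_map, h2, ← Pt.map_map, hρe, hg i, Pt.map_map, Pt.map_map, Pt.map_map,
        ← hρe' i, Pt.map_map, AlgHom.comp_assoc, ← h2, ← AlgHom.comp_assoc,
        S2lin_single i (fun i => LaurentPolynomial.T (-(a i)))]
  -- the deformation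
  have hglue : ((ρ.map (lin k (fun i => C (c i)))).map (S2swapP k k)).map (lauY k (DualNumber k)) =
      ((ρ'.map (lin k (fun i => C (c i) * X ^ (a i).toNat))).map (S2swapP k k)).map
        (lauW k (DualNumber k)) := by
    rw [Pt.map_map (ρ.map _), Pt.map_map (ρ'.map _), S2swap_lauY, S2swap_lauW, ← Pt.map_map,
      ← Pt.map_map]
    congr 1
    rw [Pt.map_map, Pt.map_map, S2dmap_lin, S2dmap_lin, ← Pt.map_map, ← Pt.map_map, h1, Pt.map_map,
      S2lin_scl]
    congr 2
    funext i
    have h3 : ∀ r : k, lauY k k (C r) = LaurentPolynomial.C r := by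
      intro r
      change Polynomial.aeval _ (C r) = _
      rw [Polynomial.aeval_C]
      rfl
    have h4 : ∀ r : k, lauW k k (C r) = LaurentPolynomial.C r := by
      intro r
      change Polynomial.aeval _ (C r) = _
      rw [Polynomial.aeval_C]
      rfl
    have h5 : lauW k k X = LaurentPolynomial.T (-1) := by
      change Polynomial.aeval _ X = _
      rw [Polynomial.aeval_X]
    rw [map_mul, map_pow, h3, h4, h5, LaurentPolynomial.T_pow]
    congr 2
    have := ha i
    omega
  refine ⟨⟨(ρ.map (lin k (fun i => C (c i)))).map (S2swapP k k),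
    (ρ'.map (lin k (fun i => C (c i) * X ^ (a i).toNat))).map (S2swapP k k), hglue⟩, ?_, ?_, ?_⟩
  · apply Crv.ext
    · change ((ρ.map (lin k (fun i => C (c i)))).map (S2swapP k k)).map (pmap (dfst k k)) = F.y
      rw [Pt.map_map, S2swap_fst, Pt.map_map, S2fst_lin]
      exact hρ
    · change ((ρ'.map (lin k (fun i => C (c i) * X ^ (a i).toNat))).map (S2swapP k k)).map
        (pmap (dfst k k)) = F.w
      rw [Pt.map_map, S2swap_fst, Pt.map_map, S2fst_lin]
      exact hρ'
  · change ((ρ.map (lin k (fun i => C (c i)))).map (S2swapP k k)).map (evk x0) = τ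
    rw [Pt.map_map, swap_evk, Pt.map_map, S2dmap_lin, ← Pt.map_map]
    have h3 : ρ.map (S2map (evk x0) n) = ρ0 := by
      apply comb_unique
      · have h4 : (nfst k k n).comp (S2map (evk x0) n) =
            (evk x0).comp (nfst k k[X] n) := by
          apply AlgHom.ext
          intro x
          exact S2map_fst _ _ _
        rw [Pt.map_map, h4, ← Pt.map_map, hρ, ← hτ', ← hρ0c, Pt.map_map, S2fst_lin]
      · intro i
        rw [hρ0 i, Pt.map_map]
        have h4 : (lin k (Pi.single i (1 : k))).comp (S2map (evk x0) n) =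
            (dmap (evk x0)).comp (lin k (Pi.single i (1 : k[X]))) := by
          rw [S2dmap_lin]
          congr 2
          funext j
          by_cases hj : j = i
          · subst hj
            simp
          · simp [hj]
        rw [h4, ← Pt.map_map, hρe]
    rw [h3, ← hρ0c]
    congr 2
    funext i
    change Polynomial.aeval _ (C (c i)) = _
    rw [Polynomial.aeval_C]
    rfl
  · change ((ρ'.map (lin k (fun i => C (c i) * X ^ (a i).toNat))).map (S2swapP k k)).map (evk 0) =
      (F.w.map (evk 0)).map (Algebra.ofId k (DualNumber k))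
    rw [Pt.map_map, S2swap_evk, Pt.map_map, ← hρ', Pt.map_map, Pt.map_map]
    congr 1
    apply AlgHom.ext
    intro x
    ext
    · simp
      rfl
    · have h5 : evk (0 : k) (X : k[X]) = 0 := by
        change Polynomial.aeval _ X = _
        rw [Polynomial.aeval_X, map_zero]
      have h6 : ∀ i, evk (0 : k) (C (c i) * X ^ (a i).toNat : k[X]) = 0 := by
        intro i
        have h7 : (a i).toNat ≠ 0 := by
          have := ha i
          omega
        rw [map_mul, map_pow, h5, zero_pow h7, mul_zero]
      have h8 : (dmap (evk (0 : k)) (lin k (fun i => C (c i) * X ^ (a i).toNat) x)).snd = 0 := by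
        rw [dmap_snd, lin_snd, map_sum]
        refine Finset.sum_eq_zero fun i _ => ?_
        rw [map_mul, h6, zero_mul]
      exact h8

/-- Two points of a smooth variety with a very free curve lie on a very free curve, at infinity and
at zero. -/
theorem exists_two [IsAlgClosed k] {n : ℕ} [SmoothOfRelativeDimension n π] [IsSeparated π]
    [QuasiCompact π] [IsIntegral V] (F : Crv π k) (hF : IsVeryFree F) (z1 z2 : Pt π k) :
    ∃ F0 : Crv π k, IsVeryFree F0 ∧ F0.at none = z1 ∧ F0.at (some 0) = z2 := by
  obtain ⟨F', h1, h2, s, -, -, h3⟩ := theorem_A' (n := n) F hF z1 (fun _ : Fin 1 => z2)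
  obtain ⟨a, ha, hs⟩ := isSplit_of_isVeryFree (n := n) F' h1
  obtain ⟨F0, hF0⟩ := exists_tr F' (s 0)
  refine ⟨F0, ?_, by rw [hF0.at_none, h2], by rw [hF0.at_some, zero_add, h3]⟩
  intro τ hτ
  rw [hF0.at_some, zero_add] at hτ
  obtain ⟨G, g1, g2, g3⟩ := exists_def_at F' a hs ha (s 0) τ hτ
  obtain ⟨G', hG'⟩ := exists_tr G (s 0)
  refine ⟨G', ?_, ?_, ?_⟩
  · have h4 := hG'.map (dfst k k)
    rw [g1] at h4
    exact h4.unique hF0
  · rw [hG'.at_some, zero_add, g2]
  · rw [hG'.at_none, hF0.at_none, g3]

end Run7.h99
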