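import Pool.Agent.Run7.h99.Core
import Pool.Agent.Run7.h99.Two
import Pool.Agent.H19VF.R3_Dim
import Pool.Agent.H19VF.Q7_Smooth
import Pool.Agent.H19VF.R2_Pts

/-! # The main theorem in terms of closed points -/

set_option autoImplicit false

open AlgebraicGeometry CategoryTheory Polynomial Pool.Agent.H19VF

universe u

namespace Run7.h99

variable {k : Type u} [Field k] {X : Scheme.{u}} {π : X ⟶ Spec (.of k)}

/-- The closed points which are fixed by an endomorphism are the closed points of a closed set. -/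
theorem exists_fix_closed [IsAlgClosed k] [IsSeparated π] [LocallyOfFiniteType π] (a : X ⟶ X)
    (ha : a ≫ π = π) :
    ∃ Z : TopologicalSpace.Closeds X, ∀ x : X, IsClosed ({x} : Set X) → (x ∈ Z ↔ a x = x) := by
  have hsep := isSep π
  have hcl : IsClosedImmersion (Limits.equalizer.ι a (𝟙 X)) := inferInstance
  refine ⟨⟨Set.range (Limits.equalizer.ι a (𝟙 X)),
    (Limits.equalizer.ι a (𝟙 X)).isClosedEmbedding.isClosed_range⟩, fun x hx => ⟨?_, ?_⟩⟩
  · rintro ⟨y, hy⟩
    have h1 := Limits.equalizer.condition a (𝟙 X)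
    rw [Category.comp_id] at h1
    have h2 : (Limits.equalizer.ι a (𝟙 X) ≫ a) y = Limits.equalizer.ι a (𝟙 X) y := by rw [h1]
    rw [← hy]
    exact h2
  · intro h
    obtain ⟨P, hP⟩ := exists_pt (π := π) x hx
    have hPx : P.pnt = x := by
      have h1 : P.pnt ∈ Set.range P.1 := ⟨_, rfl⟩
      rw [hP] at h1
      exact h1
    let P' : Pt π k := ⟨P.1 ≫ a, by rw [Category.assoc, ha, P.2]⟩
    have h2 : P' = P := by
      apply Pt.pnt_injective
      change a P.pnt = P.pnt
      rw [hPx, h]
    have h3 : P.1 ≫ a = P.1 ≫ 𝟙 X := by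
      rw [Category.comp_id]
      exact congrArg Subtype.val h2
    refine ⟨Limits.equalizer.lift P.1 h3 (IsLocalRing.closedPoint k), ?_⟩
    have h4 : Limits.equalizer.lift P.1 h3 ≫ Limits.equalizer.ι a (𝟙 X) = P.1 :=
      Limits.equalizer.lift_ι _ _
    have h5 : (Limits.equalizer.lift P.1 h3 ≫ Limits.equalizer.ι a (𝟙 X))
      (IsLocalRing.closedPoint k) = x := by rw [h4]; exact hPx
    exact h5

/-- Finitely many of the given endomorphisms have the same fixed closed points as all of them. -/
theorem exists_finset_fix [IsAlgClosed k] [IsSeparated π] [LocallyOfFiniteType π] [QuasiCompact π]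
    {ι : Type*} (a : ι → (X ⟶ X)) (ha : ∀ i, a i ≫ π = π) :
    ∃ s : Finset ι, ∀ x : X, IsClosed ({x} : Set X) → (∀ i ∈ s, a i x = x) → ∀ i, a i x = x := by
  classical
  choose Z hZ using fun i => exists_fix_closed (a i) (ha i)
  have h1 : IsLocallyNoetherian X := LocallyOfFiniteType.isLocallyNoetherian π
  have h2 : CompactSpace X := by
    have : CompactSpace (Spec (.of k)) := inferInstance
    exact QuasiCompact.compactSpace_of_compactSpace π
  have h3 : IsNoetherian X := {}
  have h4 : TopologicalSpace.NoetherianSpace X := inferInstance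
  have h5 : WellFoundedLT (TopologicalSpace.Closeds X) :=
    inferInstance
  obtain ⟨m, ⟨s, rfl⟩, hm⟩ := h5.wf.has_min
    (Set.range fun s : Finset ι => s.inf Z) ⟨_, ∅, rfl⟩
  refine ⟨s, fun x hx hs i => ?_⟩
  have h6 : (insert i s).inf Z = s.inf Z := by
    have h7 : (insert i s).inf Z ≤ s.inf Z := Finset.inf_mono (Finset.subset_insert i s)
    exact (h7.lt_or_eq.resolve_left (hm _ ⟨_, rfl⟩))
  rw [← hZ i x hx]
  have h8 : x ∈ s.inf Z := by
    have : ∀ t : Finset ι, (∀ i ∈ t, x ∈ Z i) → x ∈ t.inf Z := by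
      intro t
      induction t using Finset.induction_on with
      | empty =>
        intro _
        rw [Finset.inf_empty]
        trivial
      | insert j t _ ih =>
        intro h
        rw [Finset.inf_insert]
        exact ⟨h j (Finset.mem_insert_self j t), ih fun l hl => h l (Finset.mem_insert_of_mem hl)⟩
    exact this s fun i hi => (hZ i x hx).2 (hs i hi)
  rw [← h6, Finset.inf_insert] at h8
  exact h8.1

theorem pnt_range (P : Pt π k) : Set.range P.1 = {P.pnt} := by
  ext y
  constructor
  · rintro ⟨a, rfl⟩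
    have : a = IsLocalRing.closedPoint k := Subsingleton.elim (α := PrimeSpectrum k) _ _
    rw [this]
    rfl
  · rintro rfl
    exact ⟨_, rfl⟩

theorem exists_pnt [IsAlgClosed k] [LocallyOfFiniteType π] (x : X) (hx : IsClosed ({x} : Set X)) :
    ∃ P : Pt π k, P.pnt = x := by
  obtain ⟨P, hP⟩ := exists_pt (π := π) x hx
  refine ⟨P, ?_⟩
  have h1 : P.pnt ∈ Set.range P.1 := ⟨_, rfl⟩
  rw [hP] at h1
  exact h1

/-- Finitely many elements of a vector space over the prime field are in the image of a finite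
field. -/
theorem exists_gf (p : ℕ) [Fact p.Prime] {M : Type*} [AddCommGroup M] [Module (ZMod p) M]
    (s : Finset M) : ∃ ψ : GaloisField p (s.card + 1) →+ M, ∀ i ∈ s, ∃ g, ψ g = i := by
  classical
  have hd : s.card + 1 ≠ 0 := Nat.succ_ne_zero _
  let e : GaloisField p (s.card + 1) ≃ₗ[ZMod p] (Option s → ZMod p) :=
    LinearEquiv.ofFinrankEq _ _ (by
      rw [GaloisField.finrank p hd, Module.finrank_fintype_fun_eq_card, Fintype.card_option,
        Fintype.card_coe])
  let c : Option s → M := fun o => o.elim 0 (fun i => i.1)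
  let ψ : (Option s → ZMod p) →ₗ[ZMod p] M := Fintype.linearCombination (ZMod p) c
  refine ⟨(ψ.comp e.toLinearMap).toAddMonoidHom, fun i hi =>
    ⟨e.symm (Pi.single (some ⟨i, hi⟩) 1), ?_⟩⟩
  change ψ (e _) = i
  rw [LinearEquiv.apply_symm_apply]
  change Fintype.linearCombination (ZMod p) c _ = _
  rw [Fintype.linearCombination_apply_single, one_smul]
  rfl

/-- The main theorem: an isolated fixed point of an elementary abelian `p`-group of automorphisms
is the only fixed point. -/
theorem main_unique (p : ℕ) [Fact p.Prime] [IsAlgClosed k] [CharP k p] [IsIntegral X]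
    [IsSeparated π] [LocallyOfFiniteType π] [QuasiCompact π] [Smooth π] (F0 : Crv π k)
    (hF0 : IsVeryFree F0) {E : Type*} [CommGroup E] (hE : ∀ e : E, e ^ p = 1)
    (φ : E →* Aut (Over.mk π)) (z : X) (hz : IsClosed ({z} : Set X))
    (hfix : ∀ e, (φ e).hom.left z = z) (U : X.Opens) (hzU : z ∈ U)
    (hiso : ∀ x ∈ U, IsClosed ({x} : Set X) → (∀ e, (φ e).hom.left x = x) → x = z) (x : X)
    (hx : IsClosed ({x} : Set X)) (hxfix : ∀ e, (φ e).hom.left x = x) : x = z := by
  classical
  obtain ⟨s0, hs0⟩ := exists_finset_fix (π := π) (fun e : E => ((φ e).hom.left : X ⟶ X))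
    (fun e => Over.w (φ e).hom)
  obtain ⟨s, ψ, hψ⟩ : ∃ (s : Finset (Additive E)) (ψ : GaloisField p (s.card + 1) →+ Additive E),
      ∀ i ∈ s0, ∃ g, ψ g = Additive.ofMul i := by
    have hm : Module (ZMod p) (Additive E) := AddCommGroup.zmodModule (n := p) (by
      intro y
      exact hE (Additive.toMul y))
    obtain ⟨ψ, hψ⟩ := exists_gf p (s0.image fun i => Additive.ofMul i)
    exact ⟨_, ψ, fun i hi => hψ _ (Finset.mem_image_of_mem _ hi)⟩
  have hd : s.card + 1 ≠ 0 := Nat.succ_ne_zero _
  let GF := GaloisField p (s.card + 1)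
  let _ : Fintype GF := Fintype.ofFinite GF
  let _ : Algebra (ZMod p) k := ZMod.algebra k p
  let ι : GF →ₐ[ZMod p] k := IsAlgClosed.lift
  let _ : Algebra GF k := ι.toRingHom.toAlgebra
  have hcard : Fintype.card GF = p ^ (s.card + 1) := by
    rw [← Nat.card_eq_fintype_card]
    exact GaloisField.card p _ hd
  let A : Act GF π :=
    { a := fun γ => (φ (Additive.toMul (ψ γ))).hom.left
      zero := by
        rw [map_zero, toMul_zero, map_one]
        rfl
      add := fun γ δ => by
        have h1 : ψ (γ + δ) = ψ δ + ψ γ := by rw [map_add, add_comm]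
        rw [h1, toMul_add, map_mul]
        rfl
      str := fun γ => Over.w _ }
  have hA : ∀ x : X, IsClosed ({x} : Set X) → (∀ γ, A.a γ x = x) →
      ∀ e, (φ e).hom.left x = x := by
    intro x hx h
    refine hs0 x hx fun i hi => ?_
    obtain ⟨g, hg⟩ := hψ i hi
    have h1 := h g
    change (φ (Additive.toMul (ψ g))).hom.left x = x at h1
    rw [hg] at h1
    exact h1
  have hpt : ∀ P : Pt π k, (∀ e, (φ e).hom.left P.pnt = P.pnt) → ∀ γ, A.pt γ P = P := by
    intro P h γ
    apply Pt.pnt_injective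
    exact h _
  obtain ⟨n, hn⟩ := exists_relDim (π := π)
  obtain ⟨P1, hP1⟩ := exists_pnt (π := π) z hz
  obtain ⟨P2, hP2⟩ := exists_pnt (π := π) x hx
  obtain ⟨F1, g1, g2, g3⟩ := exists_two (n := n) F0 hF0 P1 P2
  have key := core p (s.card + 1) hcard n A F1 g1 P1 P2 g2 g3 (hpt P1 (by rw [hP1]; exact hfix))
    (hpt P2 (by rw [hP2]; exact hxfix)) U (by rw [pnt_range, hP1]; simpa using hzU) (by
      intro P hPU hP
      rw [pnt_range] at hPU
      apply Pt.pnt_injective
      rw [hP1]
      refine hiso P.pnt (hPU rfl) (Q7_closed P) (hA P.pnt (Q7_closed P) fun γ => ?_)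
      exact congrArg Pt.pnt (hP γ))
  rw [← hP1, ← hP2, key]

end Run7.h99
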