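import Pool.Agent.Run7.h99.GaussG

/-! # The Gauss valuation of sums `∑ g i ^ q * X ^ i` -/

set_option autoImplicit false

open Polynomial

namespace Run7.h99

variable {K : Type*} [Field K] {Γ : Type*} [LinearOrderedCommGroupWithZero Γ] (v : Valuation K Γ)
variable (p : ℕ) [hp : Fact p.Prime] [CharP K p] (r : ℕ)

theorem coeff_pow_q (P : K[X]) (n : ℕ) :
    (P ^ p ^ r).coeff n = if p ^ r ∣ n then P.coeff (n / p ^ r) ^ p ^ r else 0 := by
  rw [← Polynomial.map_iterateFrobenius_expand p P r, coeff_map,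
    coeff_expand (pow_pos hp.out.pos r)]
  split_ifs
  · rfl
  · exact map_zero _

theorem coeff_sum_q (P : ℕ → K[X]) (a i : ℕ) (hi : i < p ^ r) :
    (∑ j ∈ Finset.range (p ^ r), P j ^ p ^ r * X ^ j).coeff (p ^ r * a + i) =
      (P i).coeff a ^ p ^ r := by
  have hq : 0 < p ^ r := pow_pos hp.out.pos r
  rw [finsetSum_coeff, Finset.sum_eq_single i]
  · rw [coeff_mul_X_pow, coeff_pow_q, if_pos (dvd_mul_right _ _), Nat.mul_div_cancel_left _ hq]
  · intro j hj hji
    rw [Finset.mem_range] at hj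
    rw [coeff_mul_X_pow', coeff_pow_q]
    split_ifs with h1 h2
    · exfalso
      apply hji
      obtain ⟨b, hb⟩ := h2
      have h3 : (p ^ r * a + i) % p ^ r = (p ^ r * b + j) % p ^ r := by
        congr 1; omega
      rw [Nat.mul_add_mod, Nat.mul_add_mod, Nat.mod_eq_of_lt hi, Nat.mod_eq_of_lt hj] at h3
      exact h3.symm
    · rfl
    · rfl
  · intro h
    exact absurd (Finset.mem_range.2 hi) h

variable {c : Γ}

theorem orth_pol (hc : c ≠ 0) (P : ℕ → K[X]) :
    gn v c (∑ j ∈ Finset.range (p ^ r), P j ^ p ^ r * X ^ j) =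
      (Finset.range (p ^ r)).sup fun i => gn v c (P i) ^ p ^ r * c ^ i := by
  have hq : 0 < p ^ r := pow_pos hp.out.pos r
  apply le_antisymm
  · apply gn_le
    intro n
    have h1 := coeff_sum_q p r P (n / p ^ r) (n % p ^ r) (Nat.mod_lt _ hq)
    rw [Nat.div_add_mod] at h1
    refine le_trans ?_ (Finset.le_sup (f := fun i => gn v c (P i) ^ p ^ r * c ^ i)
      (Finset.mem_range.2 (Nat.mod_lt n hq)))
    have e : c ^ n = (c ^ (n / p ^ r)) ^ p ^ r * c ^ (n % p ^ r) := by
      conv_lhs => rw [← Nat.div_add_mod n (p ^ r), pow_add, pow_mul']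
    rw [h1, e, map_pow, ← mul_assoc, ← mul_pow]
    exact mul_le_mul_left (pow_le_pow_left₀ zero_le (le_gn v c _ _) _) _
  · apply Finset.sup_le
    intro i hi
    rw [Finset.mem_range] at hi
    obtain ⟨a, ha⟩ := exists_gn v c (P i)
    have h1 := coeff_sum_q p r P a i hi
    refine le_trans (le_of_eq ?_) (le_gn v c _ (p ^ r * a + i))
    rw [h1, ha, pow_add, pow_mul', map_pow, ← mul_assoc, ← mul_pow]

/-- The same for rational functions. -/
theorem orth_rat (hc : c ≠ 0) (g : ℕ → RatFunc K) :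
    gr v hc (∑ j ∈ Finset.range (p ^ r), g j ^ p ^ r * RatFunc.X ^ j) =
      (Finset.range (p ^ r)).sup fun i => gr v hc (g i) ^ p ^ r * c ^ i := by
  classical
  obtain ⟨b, hb⟩ := IsLocalization.exist_integer_multiples_of_finset (nonZeroDivisors K[X])
    ((Finset.range (p ^ r)).image g)
  have hb0 : (b : K[X]) ≠ 0 := nonZeroDivisors.ne_zero b.2
  have h1 : ∀ j, ∃ P : K[X], j ∈ Finset.range (p ^ r) →
      algebraMap K[X] (RatFunc K) P = algebraMap K[X] (RatFunc K) b * g j := by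
    intro j
    by_cases hj : j ∈ Finset.range (p ^ r)
    · obtain ⟨P, hP⟩ := hb (g j) (Finset.mem_image_of_mem g hj)
      refine ⟨P, fun _ => ?_⟩
      rw [hP, Algebra.smul_def]
    · exact ⟨0, fun h => absurd h hj⟩
  choose P hP using h1
  have hbn : gn v c (b : K[X]) ≠ 0 := fun h => hb0 ((gn_eq_zero_iff v c hc).1 h)
  have h2 : algebraMap K[X] (RatFunc K) (∑ j ∈ Finset.range (p ^ r), P j ^ p ^ r * X ^ j) =
      algebraMap K[X] (RatFunc K) b ^ p ^ r *
        ∑ j ∈ Finset.range (p ^ r), g j ^ p ^ r * RatFunc.X ^ j := by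
    rw [map_sum, Finset.mul_sum]
    refine Finset.sum_congr rfl fun j hj => ?_
    rw [map_mul, map_pow, map_pow, hP j hj, RatFunc.algebraMap_X]
    ring
  have h3 : ∀ j ∈ Finset.range (p ^ r), gn v c (P j) = gn v c (b : K[X]) * gr v hc (g j) := by
    intro j hj
    rw [← gr_pol v hc, hP j hj, map_mul, gr_pol]
  have h4 := congrArg (gr v hc) h2
  rw [gr_pol, orth_pol v p r hc, map_mul, map_pow, gr_pol] at h4
  apply mul_left_cancel₀ (pow_ne_zero (p ^ r) hbn)
  rw [← h4]
  have h5 : (Finset.range (p ^ r)).sup (fun i => gn v c (P i) ^ p ^ r * c ^ i) =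
      (Finset.range (p ^ r)).sup (fun i => gn v c (b : K[X]) ^ p ^ r *
        (gr v hc (g i) ^ p ^ r * c ^ i)) := by
    refine Finset.sup_congr rfl fun j hj => ?_
    rw [h3 j hj, mul_pow, mul_assoc]
  rw [h5]
  symm
  apply Finset.apply_sup_eq_sup_comp (g := fun x => gn v c (b : K[X]) ^ p ^ r * x)
  · intro x y
    exact mul_max _ _ _
  · simp [bot_eq]

end Run7.h99
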