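import Pool.Agent.Run7.h99.Radius

/-! # The path of norms -/

set_option autoImplicit false

open Polynomial

namespace Run7.h99

section path

variable {K : Type*} [Field K] (p : ℕ) [hp : Fact p.Prime] [CharP K p] (r : ℕ) (hq : 1 < p ^ r)
  {Γ : Type*} [LinearOrderedCommGroupWithZero Γ] (v : Valuation K Γ) {t : K} (ht : 1 < v t)

/-- The norm of radius `ρ`. -/
noncomputable def wr {ρ : Γ} (hρ : ρ ≠ 0) (g : AdjoinRoot (asP (p ^ r) (AR (p ^ r) t))) : Γ :=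
  wn (gr v (pow_ne_zero (p ^ r) hρ)) hq (AR (p ^ r) t) (mu v t (p ^ r) ρ) g

theorem wr_add {ρ : Γ} (hρ : ρ ≠ 0) (g g' : AdjoinRoot (asP (p ^ r) (AR (p ^ r) t))) :
    wr p r hq v hρ (g + g') ≤ max (wr p r hq v hρ g) (wr p r hq v hρ g') := wn_add _ _ _ _ _

theorem wr_zero {ρ : Γ} (hρ : ρ ≠ 0) :
    wr p r hq v hρ (0 : AdjoinRoot (asP (p ^ r) (AR (p ^ r) t))) = 0 := wn_zero _ _ _

include ht in
theorem wr_mul {ρ : Γ} (hρ : ρ ≠ 0) (g g' : AdjoinRoot (asP (p ^ r) (AR (p ^ r) t))) :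
    wr p r hq v hρ (g * g') ≤ wr p r hq v hρ g * wr p r hq v hρ g' :=
  wn_mul _ hq _ (one_lt_mu v t _ ht hρ) (gr_AR v t _ (by omega) hρ _) _ _

include ht in
theorem wr_pow {ρ : Γ} (hρ : ρ ≠ 0) (g : AdjoinRoot (asP (p ^ r) (AR (p ^ r) t))) :
    wr p r hq v hρ (g ^ p ^ r) = wr p r hq v hρ g ^ p ^ r :=
  wn_pow_q p r v _ hq (one_lt_mu v t _ ht hρ) (eR t) _ rfl (gr_AR v t _ (by omega) hρ _) _

include ht in
theorem wr_pow_pow {ρ : Γ} (hρ : ρ ≠ 0) (g : AdjoinRoot (asP (p ^ r) (AR (p ^ r) t))) (n : ℕ) :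
    wr p r hq v hρ (g ^ (p ^ r) ^ n) = wr p r hq v hρ g ^ (p ^ r) ^ n := by
  induction n with
  | zero => simp
  | succ n ih => rw [pow_succ (p ^ r), pow_mul g, wr_pow p r hq v ht hρ, ih, ← pow_mul]

include ht in
theorem wr_sub {ρ : Γ} (hρ : ρ ≠ 0) (γ : RatFunc K) (hγ : γ ^ p ^ r = γ)
    (g : AdjoinRoot (asP (p ^ r) (AR (p ^ r) t))) (hg : wr p r hq v hρ g ≤ 1) :
    wr p r hq v hρ (asTr p r _ γ hγ g - g) < 1 :=
  wn_asTr_sub p r _ _ hq (one_lt_mu v t _ ht hρ) γ hγ g hg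

include ht in
theorem wr_const {ρ : Γ} (hρ : ρ ≠ 0) (a : K) :
    wr p r hq v hρ (algebraMap (RatFunc K) (AdjoinRoot (asP (p ^ r) (AR (p ^ r) t)))
      (RatFunc.C a)) = v a := by
  unfold wr
  rw [AdjoinRoot.algebraMap_eq, ← AdjoinRoot.mk_C, wn_mk_of_lt, gn_C, gr_C]
  rw [natDegree_C]
  omega

/-- The norm is less than one if and only if finitely many Gauss norms are. -/
theorem wr_lt_one_iff {ρ : Γ} (hρ : ρ ≠ 0) {P : (RatFunc K)[X]} (hP : P.natDegree < p ^ r) :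
    wr p r hq v hρ (AdjoinRoot.mk (asP (p ^ r) (AR (p ^ r) t)) P) < 1 ↔
      ∀ i ∈ Finset.range (p ^ r), gr v (pow_ne_zero (p ^ r) hρ) (P.coeff i) *
        mu v t (p ^ r) ρ ^ i < 1 := by
  unfold wr
  rw [wn_mk_of_lt _ _ _ hP]
  constructor
  · intro h i _
    exact (le_gn _ _ _ _).trans_lt h
  · intro h
    refine gn_lt _ _ zero_lt_one fun n => ?_
    by_cases hn : n < p ^ r
    · exact h n (Finset.mem_range.2 hn)
    · rw [coeff_eq_zero_of_natDegree_lt (by omega), map_zero, zero_mul]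
      exact zero_lt_one

theorem wr_le_one_iff {ρ : Γ} (hρ : ρ ≠ 0) {P : (RatFunc K)[X]} (hP : P.natDegree < p ^ r) :
    wr p r hq v hρ (AdjoinRoot.mk (asP (p ^ r) (AR (p ^ r) t)) P) ≤ 1 ↔
      ∀ i ∈ Finset.range (p ^ r), gr v (pow_ne_zero (p ^ r) hρ) (P.coeff i) *
        mu v t (p ^ r) ρ ^ i ≤ 1 := by
  unfold wr
  rw [wn_mk_of_lt _ _ _ hP]
  constructor
  · intro h i _
    exact (le_gn _ _ _ _).trans h
  · intro h
    refine gn_le _ _ fun n => ?_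
    by_cases hn : n < p ^ r
    · exact h n (Finset.mem_range.2 hn)
    · rw [coeff_eq_zero_of_natDegree_lt (by omega), map_zero, zero_mul]
      exact zero_le

/-- The numerator polynomial attached to a coefficient. -/
noncomputable def numP (q : ℕ) (t : K) (f : RatFunc K) (i : ℕ) : K[X] :=
  expand K q f.num * (C t * (X ^ q + 1)) ^ i

/-- The denominator polynomial attached to a coefficient. -/
noncomputable def denP (q : ℕ) (f : RatFunc K) (i : ℕ) : K[X] :=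
  expand K q f.denom * (X ^ (q - 1)) ^ i

theorem denP_ne_zero {q : ℕ} (hq : 0 < q) (f : RatFunc K) (i : ℕ) : denP q f i ≠ 0 := by
  unfold denP
  apply mul_ne_zero
  · rw [Ne, expand_eq_zero hq]
    exact f.denom_ne_zero
  · exact pow_ne_zero _ (pow_ne_zero _ X_ne_zero)

theorem gr_mul_mu {q : ℕ} (hq : 0 < q) {ρ : Γ} (hρ : ρ ≠ 0) (hc : ρ ^ q ≠ 0) (f : RatFunc K)
    (i : ℕ) : gr v hc f * mu v t q ρ ^ i = gn v ρ (numP q t f i) / gn v ρ (denP q f i) := by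
  have h1 : gv v hρ (numP q t f i) = gn v (ρ ^ q) f.num * (v t * max (ρ ^ q) 1) ^ i := by
    unfold numP
    rw [map_mul, map_pow, map_mul, gv_apply, gv_apply, gv_apply, gn_expand v q hq, gn_C,
      gn_X_pow_add_one v q hq]
  have h2 : gv v hρ (denP q f i) = gn v (ρ ^ q) f.denom * (ρ ^ (q - 1)) ^ i := by
    unfold denP
    rw [map_mul, map_pow, map_pow, gv_apply, gv_apply, gn_expand v q hq, gn_X]
  rw [← gv_apply v hρ, ← gv_apply v hρ, h1, h2]
  have h3 : gr v hc f = gn v (ρ ^ q) f.num / gn v (ρ ^ q) f.denom := by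
    conv_lhs => rw [← RatFunc.num_div_denom f]
    rw [map_div₀, gr_pol, gr_pol]
  unfold mu
  rw [h3, div_pow, div_mul_div_comm]

end path

end Run7.h99
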