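import Pool.Agent.Run7.h99.ASNorm2
import Pool.Agent.Run7.h99.IVT

/-! # The norms of radius `ρ` on the Artin-Schreier algebra -/

set_option autoImplicit false

open Polynomial

namespace Run7.h99

variable {K : Type*} [Field K]

/-- The rational function `t (X + 1) / X`. -/
noncomputable def eR (t : K) : RatFunc K := RatFunc.C t * (RatFunc.X + 1) / RatFunc.X

/-- The rational function `X e ^ q`. -/
noncomputable def AR (q : ℕ) (t : K) : RatFunc K := RatFunc.X * eR t ^ q

variable {Γ : Type*} [LinearOrderedCommGroupWithZero Γ] (v : Valuation K Γ) (t : K) (q : ℕ)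

/-- The norm of the generator of the Artin-Schreier algebra. -/
noncomputable def mu (ρ : Γ) : Γ := v t * max (ρ ^ q) 1 / ρ ^ (q - 1)

theorem gn_expand (hq : 0 < q) (ρ : Γ) (P : K[X]) :
    gn v ρ (expand K q P) = gn v (ρ ^ q) P := by
  apply le_antisymm
  · apply gn_le
    intro n
    rw [coeff_expand hq]
    split_ifs with h
    · obtain ⟨m, rfl⟩ := h
      rw [Nat.mul_div_cancel_left _ hq, pow_mul]
      exact le_gn v (ρ ^ q) P m
    · rw [map_zero, zero_mul]
      exact zero_le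
  · apply gn_le
    intro n
    have h := le_gn v ρ (expand K q P) (q * n)
    rw [coeff_expand hq, if_pos (dvd_mul_right q n), Nat.mul_div_cancel_left _ hq, pow_mul] at h
    exact h

theorem gn_X_pow_add_one (hq : 0 < q) (ρ : Γ) : gn v ρ (X ^ q + 1 : K[X]) = max (ρ ^ q) 1 := by
  apply le_antisymm
  · refine (gn_add v ρ _ _).trans (max_le_max ?_ (gn_one v ρ).le)
    rw [← one_mul (X ^ q : K[X]), ← C_1, C_mul_X_pow_eq_monomial, gn_monomial, map_one, one_mul]
  · apply max_le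
    · have h := le_gn v ρ (X ^ q + 1 : K[X]) q
      rw [coeff_add, coeff_X_pow, if_pos rfl, coeff_one, if_neg hq.ne', add_zero, map_one,
        one_mul] at h
      exact h
    · have h := le_gn v ρ (X ^ q + 1 : K[X]) 0
      rw [coeff_add, coeff_X_pow, if_neg hq.ne, coeff_one, if_pos rfl, zero_add, map_one,
        one_mul, pow_zero] at h
      exact h

theorem gr_eR (hq : 0 < q) {ρ : Γ} (hρ : ρ ≠ 0) (hc : ρ ^ q ≠ 0) :
    gr v hc (eR t) = v t * max (ρ ^ q) 1 / ρ ^ q := by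
  unfold eR
  rw [map_div₀, map_mul, gr_C, gr_X]
  congr 2
  have h : (RatFunc.X + 1 : RatFunc K) = algebraMap K[X] (RatFunc K) (X ^ 1 + 1) := by
    rw [map_add, map_one, pow_one, RatFunc.algebraMap_X]
  rw [h, gr_pol, gn_X_pow_add_one v 1 one_pos, pow_one]

theorem gr_AR (hq : 0 < q) {ρ : Γ} (hρ : ρ ≠ 0) (hc : ρ ^ q ≠ 0) :
    gr v hc (AR q t) = mu v t q ρ ^ q := by
  unfold AR mu
  rw [map_mul, map_pow, gr_X, gr_eR v t q hq hρ, ← mul_pow]
  congr 1
  obtain ⟨n, rfl⟩ := Nat.exists_eq_succ_of_ne_zero hq.ne'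
  rw [Nat.succ_sub_one, Nat.succ_eq_add_one, pow_succ ρ n, mul_div_assoc', mul_comm ρ,
    mul_div_mul_right _ _ hρ]

theorem one_lt_mu (ht : 1 < v t) {ρ : Γ} (hρ : ρ ≠ 0) : 1 < mu v t q ρ := by
  unfold mu
  have hp : 0 < ρ ^ (q - 1) := zero_lt_iff.2 (pow_ne_zero _ hρ)
  rw [one_lt_div₀ hp]
  have h1 : ρ ^ (q - 1) ≤ max (ρ ^ q) 1 := by
    rcases le_total ρ 1 with h | h
    · exact (pow_le_one₀ zero_le h).trans (le_max_right _ _)
    · exact (pow_le_pow_right₀ h (Nat.sub_le q 1)).trans (le_max_left _ _)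
  have h2 : 0 < max (ρ ^ q) 1 := lt_of_lt_of_le zero_lt_one (le_max_right _ _)
  calc _ ≤ max (ρ ^ q) 1 := h1
    _ < v t * max (ρ ^ q) 1 := lt_mul_of_one_lt_left h2 ht

end Run7.h99
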