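import Pool.Agent.H19VF.J1b_Ex

/-! # Charts which are stable under a finite group of automorphisms -/

set_option autoImplicit false

open AlgebraicGeometry CategoryTheory Polynomial Pool.Agent.H19VF

universe u

namespace Run7.h99

/-- An action of the additive group `F` on the `k`-scheme `V`. -/
structure Act (F : Type) [AddCommGroup F] {k : Type u} [Field k] {V : Scheme.{u}}
    (π : V ⟶ Spec (.of k)) where
  /-- the automorphisms -/
  a : F → (V ⟶ V)
  zero : a 0 = 𝟙 V
  add : ∀ γ δ, a (γ + δ) = a γ ≫ a δ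
  str : ∀ γ, a γ ≫ π = π

variable {F : Type} [AddCommGroup F] {k : Type u} [Field k] {V : Scheme.{u}}
  {π : V ⟶ Spec (.of k)}

theorem Act.isIso (A : Act F π) (γ : F) : IsIso (A.a γ) :=
  ⟨A.a (-γ), by rw [← A.add, add_neg_cancel, A.zero], by rw [← A.add, neg_add_cancel, A.zero]⟩

/-- The action on points. -/
noncomputable def Act.pt (A : Act F π) (γ : F) {R : Type u} [CommRing R] [Algebra k R]
    (P : Pt π R) : Pt π R :=
  ⟨P.1 ≫ A.a γ, by rw [Category.assoc, A.str, P.2]⟩

theorem Act.pt_map (A : Act F π) (γ : F) {R R' : Type u} [CommRing R] [Algebra k R] [CommRing R']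
    [Algebra k R'] (P : Pt π R) (φ : R →ₐ[k] R') : (A.pt γ P).map φ = A.pt γ (P.map φ) := by
  apply Pt.ext
  exact (Category.assoc _ _ _).symm

theorem Act.pt_zero (A : Act F π) {R : Type u} [CommRing R] [Algebra k R]
    (P : Pt π R) : A.pt 0 P = P := by
  apply Pt.ext
  change P.1 ≫ A.a 0 = P.1
  rw [A.zero, Category.comp_id]

theorem Act.pt_add (A : Act F π) (γ δ : F) {R : Type u} [CommRing R] [Algebra k R]
    (P : Pt π R) : A.pt (γ + δ) P = A.pt δ (A.pt γ P) := by
  apply Pt.ext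
  change P.1 ≫ A.a (γ + δ) = (P.1 ≫ A.a γ) ≫ A.a δ
  rw [A.add, Category.assoc]

/-- Restriction of a chart with etale coordinates. -/
theorem restrict_echart {n : ℕ} (W : EChart π n) (U : Chart π)
    (h : Set.range U.pt.1 ⊆ Set.range W.pt.1) :
    ∃ z : Fin n → U.B, IsEtaleCoord k z := by
  obtain ⟨α, hα⟩ := W.toChart.F3_lift U.pt h
  refine ⟨fun j => α (W.z j), ?_⟩
  have h1 : Spec.map (CommRingCat.ofHom α.toRingHom) ≫ W.pt.1 = U.pt.1 :=
    (congrArg Subtype.val hα).symm
  have hW := W.imm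
  have h2 : IsOpenImmersion (Spec.map (CommRingCat.ofHom α.toRingHom)) := by
    have : IsOpenImmersion (Spec.map (CommRingCat.ofHom α.toRingHom) ≫ W.pt.1) := by
      rw [h1]; exact U.imm
    exact IsOpenImmersion.of_comp _ W.pt.1
  have h3 : Etale (Spec.map (CommRingCat.ofHom α.toRingHom)) := inferInstance
  rw [HasRingHomProperty.Spec_iff (P := @Etale)] at h3
  unfold IsEtaleCoord
  have h4 : (MvPolynomial.aeval fun j => α (W.z j) : MvPolynomial (Fin n) k →ₐ[k] U.B).toRingHom =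
      α.toRingHom.comp (MvPolynomial.aeval W.z : MvPolynomial (Fin n) k →ₐ[k] W.B).toRingHom := by
    apply MvPolynomial.ringHom_ext
    · intro a
      simp
    · intro j
      simp
  rw [h4]
  exact RingHom.Etale.stableUnderComposition _ _ W.et h3

/-- A separated scheme over a field is separated. -/
theorem isSep (π : V ⟶ Spec (.of k)) [IsSeparated π] : V.IsSeparated := by
  rw [Scheme.isSeparated_iff, ← Limits.terminal.comp_from π]
  infer_instance

/-- Every fixed point has a stable affine neighbourhood with etale coordinates, inside of any given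
neighbourhood. -/
theorem exists_stable [Finite F] {n : ℕ} [SmoothOfRelativeDimension n π] [IsSeparated π]
    (A : Act F π) (z : Pt π k) (hz : ∀ γ, A.pt γ z = z) (U : V.Opens)
    (hU : Set.range z.1 ⊆ U) :
    ∃ (W : EChart π n) (η : F → W.B →ₐ[k] W.B) (ν : W.B →ₐ[k] k),
      Set.range W.pt.1 ⊆ U ∧ z = W.pt.map ν ∧ (∀ γ, A.pt γ W.pt = W.pt.map (η γ)) ∧
      ∀ j, ν (W.z j) = 0 := by
  have hsep := isSep π
  obtain ⟨W0, φ0, h0⟩ := exists_echart n z
  have hW0 := W0.imm
  let x : V := z.1 (IsLocalRing.closedPoint k)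
  have hx : Set.range z.1 = {x} := by
    ext y
    constructor
    · rintro ⟨a, rfl⟩
      have : a = IsLocalRing.closedPoint k := Subsingleton.elim (α := PrimeSpectrum k) _ _
      rw [this]
      rfl
    · rintro rfl
      exact ⟨_, rfl⟩
  have hxU : x ∈ U := hU ⟨_, rfl⟩
  have hxW : x ∈ W0.pt.1.opensRange := by
    refine ⟨Spec.map (CommRingCat.ofHom φ0.toRingHom) (IsLocalRing.closedPoint k), ?_⟩
    change (Spec.map (CommRingCat.ofHom φ0.toRingHom) ≫ W0.pt.1) (IsLocalRing.closedPoint k) = x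
    have h1 : Spec.map (CommRingCat.ofHom φ0.toRingHom) ≫ W0.pt.1 = z.1 :=
      (congrArg Subtype.val h0).symm
    rw [h1]
  obtain ⟨O1, hO1, hxO, hle⟩ : ∃ O1 : V.Opens, IsAffineOpen O1 ∧ x ∈ O1 ∧
      O1 ≤ W0.pt.1.opensRange ⊓ U := by
    obtain ⟨O1, h1, h2, h3⟩ := exists_isAffineOpen_mem_and_subset (X := V)
      (U := W0.pt.1.opensRange ⊓ U) (x := x) ⟨hxW, hxU⟩
    exact ⟨O1, h1, h2, h3⟩
  let V' : V.Opens := ⨅ γ, A.a γ ⁻¹ᵁ O1
  have hV' : IsAffineOpen V' := by
    apply IsAffineOpen.iInf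
    intro γ
    have := A.isIso γ
    exact hO1.preimage_of_isIso (A.a γ)
  have hmem : ∀ v : V, v ∈ V' ↔ ∀ γ, A.a γ v ∈ O1 := by
    intro v
    have h1 : v ∈ V' ↔ v ∈ (V' : Set V) := Iff.rfl
    rw [h1, TopologicalSpace.Opens.coe_iInf, Set.mem_iInter]
    exact Iff.rfl
  have hxfix : ∀ γ, A.a γ x = x := by
    intro γ
    have h1 : z.1 ≫ A.a γ = z.1 := congrArg Subtype.val (hz γ)
    change (z.1 ≫ A.a γ) (IsLocalRing.closedPoint k) = x
    rw [h1]
  have hxV : x ∈ V' := (hmem x).2 fun γ => by rw [hxfix]; exact hxO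
  have hV'O : V' ≤ O1 := by
    intro v hv
    have := (hmem v).1 hv 0
    rw [A.zero] at this
    exact this
  obtain ⟨i, hp, -⟩ := F3_exists_chart (k := k) (π := π) V' hV'
  let U0 : Chart π :=
    { B := Γ(V, V')
      pt := ⟨hV'.fromSpec, hp⟩
      imm := inferInstanceAs (IsOpenImmersion hV'.fromSpec) }
  have hr : Set.range U0.pt.1 = V' := hV'.range_fromSpec
  obtain ⟨zz, hzz⟩ := restrict_echart W0 U0 (by
    rw [hr]
    intro v hv
    exact (hle (hV'O hv)).1)
  have hη : ∀ γ, ∃ φ : U0.B →ₐ[k] U0.B, A.pt γ U0.pt = U0.pt.map φ := by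
    intro γ
    apply U0.F3_lift
    rw [hr]
    rintro _ ⟨w, rfl⟩
    change (U0.pt.1 ≫ A.a γ) w ∈ V'
    have h1 : U0.pt.1 w ∈ V' := by
      have : U0.pt.1 w ∈ Set.range U0.pt.1 := ⟨w, rfl⟩
      rw [hr] at this
      exact this
    change A.a γ (U0.pt.1 w) ∈ V'
    rw [hmem] at h1 ⊢
    intro δ
    have h2 := h1 (γ + δ)
    rw [A.add] at h2
    exact h2
  choose η hη using hη
  obtain ⟨ν, hν⟩ := U0.F3_lift_local z (by rw [hr]; exact hxV)
  let W1 : EChart π n := { U0 with z := zz, et := hzz }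
  refine ⟨J_cent W1 (fun j => ν (zz j)), η, ν, ?_, hν, hη, ?_⟩
  · change Set.range U0.pt.1 ⊆ _
    rw [hr]
    intro v hv
    exact (hle (hV'O hv)).2
  · intro j
    change ν (zz j - algebraMap k U0.B (ν (zz j))) = 0
    rw [map_sub, AlgHom.commutes]
    exact sub_self _

end Run7.h99
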