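import Pool.Agent.H19VF.P_Main
import Pool.Agent.H19VF.S5_Split
import Pool.Agent.H19VF.S2_Free
import Pool.Agent.H19VF.S1_Comb

/-! # Translation of curves over arbitrary rings -/

set_option autoImplicit false

open AlgebraicGeometry CategoryTheory Polynomial Pool.Agent.H19VF

universe u

namespace Run7.h99

variable {k : Type u} [Field k] {V : Scheme.{u}} {π : V ⟶ Spec (.of k)}

section pe

variable {R S S' : Type u} [CommRing R] [Algebra k R] [CommRing S] [Algebra k S] [CommRing S']
  [Algebra k S']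

/-- The homomorphism of a polynomial ring given by a homomorphism of the coefficients and the
value of the variable. -/
noncomputable def pe (ρ : R →ₐ[k] S) (t : S) : R[X] →ₐ[k] S :=
  { Polynomial.eval₂RingHom ρ.toRingHom t with
    commutes' := fun a => by
      change Polynomial.eval₂RingHom ρ.toRingHom t (algebraMap k R[X] a) = _
      have h : algebraMap k R[X] a = C (algebraMap k R a) := rfl
      rw [h, Polynomial.coe_eval₂RingHom, Polynomial.eval₂_C]
      exact ρ.commutes a }

theorem pe_C (ρ : R →ₐ[k] S) (t : S) (a : R) : pe ρ t (C a) = ρ a :=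
  Polynomial.eval₂_C _ _

theorem pe_X (ρ : R →ₐ[k] S) (t : S) : pe ρ t X = t :=
  Polynomial.eval₂_X _ _

theorem pe_comp (ρ : R →ₐ[k] S) (t : S) (φ : S →ₐ[k] S') :
    φ.comp (pe ρ t) = pe (φ.comp ρ) (φ t) := by
  apply J1ext
  · intro a
    rw [AlgHom.comp_apply, pe_C, pe_C, AlgHom.comp_apply]
  · rw [AlgHom.comp_apply, pe_X, pe_X]

theorem pe_pmap (φ : R →ₐ[k] S) (ρ : S →ₐ[k] S') (t : S') :
    (pe ρ t).comp (pmap φ) = pe (ρ.comp φ) t := by
  apply J1ext
  · intro a
    rw [pe_C, AlgHom.comp_apply, AlgHom.comp_apply]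
    change pe ρ t (Polynomial.map _ (C a)) = _
    rw [Polynomial.map_C, pe_C]
    rfl
  · rw [pe_X, AlgHom.comp_apply]
    change pe ρ t (Polynomial.map _ X) = _
    rw [Polynomial.map_X, pe_X]

theorem evk_eq (a : k) : (evk a : R[X] →ₐ[k] R) = pe (AlgHom.id k R) (algebraMap k R a) := by
  apply J1ext
  · intro b
    rw [J1evk_C, pe_C]
    rfl
  · rw [J1evk_X, pe_X]

/-- The value of Laurent polynomials. -/
noncomputable def le (ρ : R →ₐ[k] S) (t : Sˣ) : LaurentPolynomial R →ₐ[k] S :=
  { LaurentPolynomial.eval₂ ρ.toRingHom t with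
    commutes' := fun a => by
      change LaurentPolynomial.eval₂ ρ.toRingHom t (algebraMap k (LaurentPolynomial R) a) = _
      have h1 : algebraMap k (LaurentPolynomial R) a = LaurentPolynomial.C (algebraMap k R a) := rfl
      rw [h1, LaurentPolynomial.eval₂_C]
      exact ρ.commutes a }

theorem le_C (ρ : R →ₐ[k] S) (t : Sˣ) (a : R) : le ρ t (LaurentPolynomial.C a) = ρ a :=
  LaurentPolynomial.eval₂_C _ _ a

theorem le_T (ρ : R →ₐ[k] S) (t : Sˣ) (n : ℤ) :
    le ρ t (LaurentPolynomial.T n) = ((t ^ n : Sˣ) : S) :=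
  LaurentPolynomial.eval₂_T _ _ n

theorem le_lauY (ρ : R →ₐ[k] S) (t : Sˣ) : (le ρ t).comp (lauY k R) = pe ρ (t : S) := by
  apply J1ext
  · intro a
    rw [AlgHom.comp_apply, J1lauY_C, le_C, pe_C]
  · rw [AlgHom.comp_apply, J1lauY_X, le_T, pe_X, zpow_one]

theorem le_lauW (ρ : R →ₐ[k] S) (t : Sˣ) : (le ρ t).comp (lauW k R) = pe ρ ((t⁻¹ : Sˣ) : S) := by
  apply J1ext
  · intro a
    rw [AlgHom.comp_apply, J1lauW_C, le_C, pe_C]
  · rw [AlgHom.comp_apply, J1lauW_X, le_T, pe_X, zpow_neg, zpow_one]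

theorem glue_unit (G : Crv π R) (ρ : R →ₐ[k] S) {t u : S} (h : t * u = 1) :
    G.y.map (pe ρ t) = G.w.map (pe ρ u) := by
  let t' : Sˣ := ⟨t, u, h, by rw [mul_comm, h]⟩
  have h1 := congrArg (fun p => Pt.map p (le ρ t')) G.glue
  simp only [Pt.map_map] at h1
  rw [le_lauY, le_lauW] at h1
  exact h1

end pe

section tr

variable {R : Type u} [CommRing R] [Algebra k R]

/-- `G'` is the curve `y ↦ G (y + a)`. -/
def IsTr (G G' : Crv π R) (a : k) : Prop :=
  (∀ (S : Type u) [CommRing S] [Algebra k S] (ρ : R →ₐ[k] S) (t : S),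
    G'.y.map (pe ρ t) = G.y.map (pe ρ (t + algebraMap k S a))) ∧
  ∀ (S : Type u) [CommRing S] [Algebra k S] (ρ : R →ₐ[k] S) (w v : S),
    v * (1 + algebraMap k S a * w) = 1 → G'.w.map (pe ρ w) = G.w.map (pe ρ (w * v))

theorem IsTr.at_none {G G' : Crv π R} {a : k} (h : IsTr G G' a) : G'.at none = G.at none := by
  change G'.w.map (evk 0) = G.w.map (evk 0)
  rw [evk_eq, h.2 R (AlgHom.id k R) _ 1 (by rw [map_zero]; ring), mul_one]

theorem IsTr.at_some {G G' : Crv π R} {a : k} (h : IsTr G G' a) (b : k) :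
    G'.at (some b) = G.at (some (b + a)) := by
  change G'.y.map (evk b) = G.y.map (evk (b + a))
  rw [evk_eq, h.1, evk_eq, map_add]

theorem IsTr.map {G G' : Crv π R} {a : k} (h : IsTr G G' a) {R' : Type u} [CommRing R']
    [Algebra k R'] (φ : R →ₐ[k] R') : IsTr (G.map φ) (G'.map φ) a := by
  constructor
  · intro S _ _ ρ t
    change (G'.y.map (pmap φ)).map _ = (G.y.map (pmap φ)).map _
    rw [Pt.map_map, Pt.map_map, pe_pmap, pe_pmap, h.1]
  · intro S _ _ ρ w v hv
    change (G'.w.map (pmap φ)).map _ = (G.w.map (pmap φ)).map _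
    rw [Pt.map_map, Pt.map_map, pe_pmap, pe_pmap, h.2 S _ w v hv]

/-- The two basic open sets of the line with coordinate `w`. -/
noncomputable def wcov (R : Type u) [CommRing R] [Algebra k R] (a : k) : ULift.{u} Bool → R[X]
  | ⟨false⟩ => X
  | ⟨true⟩ => 1 + C (algebraMap k R a) * X

theorem wcov_span (a : k) : Ideal.span (Set.range (wcov R a)) = ⊤ := by
  rw [Ideal.eq_top_iff_one]
  have h1 : (X : R[X]) ∈ Ideal.span (Set.range (wcov R a)) := Ideal.subset_span ⟨⟨false⟩, rfl⟩
  have h2 : (1 + C (algebraMap k R a) * X : R[X]) ∈ Ideal.span (Set.range (wcov R a)) :=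
    Ideal.subset_span ⟨⟨true⟩, rfl⟩
  have h3 := Ideal.sub_mem _ h2 (Ideal.mul_mem_left _ (C (algebraMap k R a)) h1)
  rwa [add_sub_cancel_right] at h3

theorem pt_ext_cov {E : Type u} [CommRing E] [Algebra k E] {ι : Type u} (s : ι → E)
    (hs : Ideal.span (Set.range s) = ⊤) (p p' : Pt π E)
    (h : ∀ i, p.map (IsScalarTower.toAlgHom k E (Localization.Away (s i))) =
      p'.map (IsScalarTower.toAlgHom k E (Localization.Away (s i)))) : p = p' := by
  apply Pt.ext
  refine (Scheme.affineOpenCoverOfSpanRangeEqTop (R := .of E) s hs).openCover.hom_ext _ _ ?_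
  intro x
  exact congrArg Subtype.val (h x)

/-- The constants and the variable in an algebra over the polynomial ring. -/
theorem to_pe (S : Type u) [CommRing S] [Algebra k S] (f : R[X] →ₐ[k] S) :
    f = pe (f.comp (IsScalarTower.toAlgHom k R R[X])) (f X) := by
  apply J1ext
  · intro a
    rw [pe_C]
    rfl
  · rw [pe_X]

theorem pe_id : pe (IsScalarTower.toAlgHom k R R[X]) X = AlgHom.id k R[X] := by
  apply J1ext
  · intro a
    rw [pe_C]
    rfl
  · rw [pe_X]
    rfl

theorem wcov_true (a : k) {S : Type u} [CommRing S] [Algebra R[X] S] [Algebra k S]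
    [IsScalarTower k R[X] S] :
    algebraMap R[X] S (wcov R a ⟨true⟩) = 1 + algebraMap k S a * algebraMap R[X] S X := by
  change algebraMap R[X] S (1 + C (algebraMap k R a) * X) = _
  rw [map_add, map_one, map_mul, IsScalarTower.algebraMap_apply k R[X] S]
  rfl

theorem IsTr.unique {G G' G'' : Crv π R} {a : k} (h : IsTr G G' a) (h' : IsTr G G'' a) :
    G' = G'' := by
  apply Crv.ext
  · have h1 := h.1 R[X] (IsScalarTower.toAlgHom k R R[X]) X
    have h2 := h'.1 R[X] (IsScalarTower.toAlgHom k R R[X]) X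
    have h3 : pe (IsScalarTower.toAlgHom k R R[X]) X = AlgHom.id k R[X] := pe_id
    rw [h3, Pt.map_id] at h1 h2
    rw [h1, h2]
  · apply pt_ext_cov (wcov R a) (wcov_span a)
    intro i
    have hu : IsUnit (algebraMap R[X] (Localization.Away (wcov R a i)) (wcov R a i)) :=
      IsLocalization.Away.algebraMap_isUnit _
    rw [to_pe _ (IsScalarTower.toAlgHom k R[X] (Localization.Away (wcov R a i)))]
    rcases i with ⟨_ | _⟩
    · obtain ⟨v, hv⟩ := hu.exists_left_inv
      have hv' : v * (IsScalarTower.toAlgHom k R[X] (Localization.Away (wcov R a ⟨false⟩))) X = 1 :=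
        hv
      rw [← glue_unit G' _ hv', ← glue_unit G'' _ hv', h.1, h'.1]
    · obtain ⟨v, hv⟩ := hu.exists_left_inv
      have hv' : v * (1 + algebraMap k _ a * (IsScalarTower.toAlgHom k R[X]
          (Localization.Away (wcov R a ⟨true⟩))) X) = 1 := by
        rw [wcov_true] at hv
        exact hv
      rw [h.2 _ _ _ v hv', h'.2 _ _ _ v hv']

theorem pe_ae {S : Type u} [CommRing S] [Algebra k S] (ρ : R →ₐ[k] S) (t : S) (a : k) :
    (pe ρ t).comp (pe (IsScalarTower.toAlgHom k R R[X]) (X + algebraMap k R[X] a)) =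
      pe ρ (t + algebraMap k S a) := by
  rw [pe_comp]
  congr 1
  · apply AlgHom.ext
    intro b
    exact pe_C ρ t b
  · rw [map_add, pe_X, AlgHom.commutes]

theorem exists_lift_away {E S : Type u} [CommRing E] [Algebra k E] [CommRing S] [Algebra k S]
    (g : E) (φ : E →ₐ[k] S) {z : S} (hz : z * φ g = 1) : ∃ χ : Localization.Away g →ₐ[k] S,
      χ.comp (IsScalarTower.toAlgHom k E (Localization.Away g)) = φ := by
  have hu : IsUnit (φ g) := IsUnit.of_mul_eq_one_right _ hz
  have hf : ∀ y : Submonoid.powers g, IsUnit (φ y) := by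
    rintro ⟨_, n, rfl⟩
    change IsUnit (φ (g ^ n))
    rw [map_pow]
    exact hu.pow n
  refine ⟨IsLocalization.liftAlgHom (M := Submonoid.powers g) (f := φ) hf, ?_⟩
  apply AlgHom.ext
  intro x
  exact IsLocalization.lift_eq _ _

/-- Translations exist. -/
theorem exists_tr (G : Crv π R) (a : k) : ∃ G' : Crv π R, IsTr G G' a := by
  have hu : ∀ i, ∃ v, v * algebraMap R[X] (Localization.Away (wcov R a i)) (wcov R a i) = 1 :=
    fun i => (IsLocalization.Away.algebraMap_isUnit _).exists_left_inv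
  choose v hv using hu
  let f : ∀ i, Pt π (Localization.Away (wcov R a i))
    | ⟨false⟩ => G.y.map (pe ((IsScalarTower.toAlgHom k R[X] _).comp
        (IsScalarTower.toAlgHom k R R[X])) (v ⟨false⟩ + algebraMap k _ a))
    | ⟨true⟩ => G.w.map (pe ((IsScalarTower.toAlgHom k R[X] _).comp
        (IsScalarTower.toAlgHom k R R[X])) (algebraMap R[X] _ X * v ⟨true⟩))
  have hcross : ∀ (F : Type u) [CommRing F] [Algebra k F]
      (α : Localization.Away (wcov R a ⟨false⟩) →ₐ[k] F)
      (β : Localization.Away (wcov R a ⟨true⟩) →ₐ[k] F),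
      (∀ e : R[X], α (algebraMap R[X] _ e) = β (algebraMap R[X] _ e)) →
      (f ⟨false⟩).map α = (f ⟨true⟩).map β := by
    intro F _ _ α β hαβ
    change (G.y.map _).map α = (G.w.map _).map β
    rw [Pt.map_map, Pt.map_map, pe_comp, pe_comp]
    have h1 : α.comp ((IsScalarTower.toAlgHom k R[X] _).comp (IsScalarTower.toAlgHom k R R[X])) =
        β.comp ((IsScalarTower.toAlgHom k R[X] _).comp (IsScalarTower.toAlgHom k R R[X])) := by
      apply AlgHom.ext
      intro b
      exact hαβ _
    rw [h1]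
    apply glue_unit
    have h2 := congrArg α (hv ⟨false⟩)
    have h3 := congrArg β (hv ⟨true⟩)
    rw [wcov_true] at h3
    have h4 : α (v ⟨false⟩) * α (algebraMap R[X] _ X) = 1 := by
      rw [← map_mul, ← map_one α]
      exact h2
    rw [map_mul, map_add, map_one, map_mul, AlgHom.commutes, ← hαβ] at h3
    rw [map_add, AlgHom.commutes, map_mul, ← hαβ]
    linear_combination (β (v ⟨true⟩)) * h4 + h3
  obtain ⟨w, hw⟩ := S1_glue (π := π) (wcov R a) (wcov_span a) f (by
    intro i j F _ _ α β hαβ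
    rcases i with ⟨_ | _⟩ <;> rcases j with ⟨_ | _⟩
    · have h1 : α = β := by
        apply AlgHom.coe_ringHom_injective
        exact IsLocalization.ringHom_ext (Submonoid.powers (wcov R a ⟨false⟩)) (RingHom.ext hαβ)
      rw [h1]
    · exact hcross F α β hαβ
    · exact (hcross F β α fun e => (hαβ e).symm).symm
    · have h1 : α = β := by
        apply AlgHom.coe_ringHom_injective
        exact IsLocalization.ringHom_ext (Submonoid.powers (wcov R a ⟨true⟩)) (RingHom.ext hαβ)
      rw [h1])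
  have hA : ∀ (S : Type u) [CommRing S] [Algebra k S] (ρ : R →ₐ[k] S) (x z : S), z * x = 1 →
      w.map (pe ρ x) = G.y.map (pe ρ (z + algebraMap k S a)) := by
    intro S _ _ ρ x z hz
    obtain ⟨χ, hχ⟩ := exists_lift_away (wcov R a ⟨false⟩) (pe ρ x) (z := z) (by
      change z * pe ρ x X = 1
      rw [pe_X, hz])
    have h0 : ∀ e : R[X], χ (algebraMap R[X] _ e) = pe ρ x e := fun e =>
      congrArg (fun g : R[X] →ₐ[k] S => g e) hχ
    rw [← hχ, ← Pt.map_map, hw]
    change (G.y.map _).map χ = _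
    rw [Pt.map_map, pe_comp, map_add, AlgHom.commutes]
    have h1 : χ (v ⟨false⟩) = z := by
      have h2 := congrArg χ (hv ⟨false⟩)
      rw [map_mul, h0, map_one] at h2
      have h3 : χ (v ⟨false⟩) * x = 1 := by
        rw [← h2]
        congr 1
        exact (pe_X ρ x).symm
      calc χ (v ⟨false⟩) = χ (v ⟨false⟩) * (z * x) := by rw [hz, mul_one]
        _ = z * (χ (v ⟨false⟩) * x) := by ring
        _ = z := by rw [h3, mul_one]
    rw [h1]
    congr 2
    apply AlgHom.ext
    intro b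
    exact (h0 (C b)).trans (pe_C ρ x b)
  have hB : ∀ (S : Type u) [CommRing S] [Algebra k S] (ρ : R →ₐ[k] S) (x z : S),
      z * (1 + algebraMap k S a * x) = 1 → w.map (pe ρ x) = G.w.map (pe ρ (x * z)) := by
    intro S _ _ ρ x z hz
    have hx : pe ρ x (wcov R a ⟨true⟩) = 1 + algebraMap k S a * x := by
      change pe ρ x (1 + C (algebraMap k R a) * X) = _
      rw [map_add, map_one, map_mul, pe_C, pe_X, AlgHom.commutes]
    obtain ⟨χ, hχ⟩ := exists_lift_away (wcov R a ⟨true⟩) (pe ρ x) (z := z) (by rw [hx, hz])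
    have h0 : ∀ e : R[X], χ (algebraMap R[X] _ e) = pe ρ x e := fun e =>
      congrArg (fun g : R[X] →ₐ[k] S => g e) hχ
    rw [← hχ, ← Pt.map_map, hw]
    change (G.w.map _).map χ = _
    rw [Pt.map_map, pe_comp, map_mul, h0, pe_X]
    have h1 : χ (v ⟨true⟩) = z := by
      have h2 := congrArg χ (hv ⟨true⟩)
      rw [map_mul, h0, map_one, hx] at h2
      calc χ (v ⟨true⟩) = χ (v ⟨true⟩) * (z * (1 + algebraMap k S a * x)) := by rw [hz, mul_one]
        _ = z * (χ (v ⟨true⟩) * (1 + algebraMap k S a * x)) := by ring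
        _ = z := by rw [h2, mul_one]
    rw [h1]
    congr 2
    apply AlgHom.ext
    intro b
    exact (h0 (C b)).trans (pe_C ρ x b)
  refine ⟨⟨G.y.map (pe (IsScalarTower.toAlgHom k R R[X]) (X + algebraMap k R[X] a)), w, ?_⟩, ?_, ?_⟩
  · have e1 : lauY k R = pe ((lauY k R).comp (IsScalarTower.toAlgHom k R R[X]))
        (LaurentPolynomial.T 1) := by
      rw [← J1lauY_X (k := k)]
      exact to_pe _ _
    have e2 : lauW k R = pe ((lauY k R).comp (IsScalarTower.toAlgHom k R R[X]))
        (LaurentPolynomial.T (-1)) := by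
      apply J1ext
      · intro b
        rw [J1lauW_C, pe_C]
        exact (J1lauY_C (k := k) b).symm
      · rw [J1lauW_X, pe_X]
    rw [Pt.map_map, e1, pe_ae, e2, hA _ _ _ (LaurentPolynomial.T 1) (by
      rw [← LaurentPolynomial.T_add, add_neg_cancel, LaurentPolynomial.T_zero])]
  · intro S _ _ ρ t
    change (G.y.map _).map _ = _
    rw [Pt.map_map, pe_ae]
  · intro S _ _ ρ x z hz
    exact hB S ρ x z hz

end tr

end Run7.h99
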